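import Pool.Agent.Helper66.RMT.Defs

/-!
# Random matrix model: weights

`b` is the weight in the explicit formula: `1 / (1/2 + it)` for the summatory function of the Moebius function and
`ζ(1 + 2it) / (1/2 + it)` for that of the Liouville function.
-/

set_option autoImplicit false

namespace Pool.Agent.Helper66.RMT

open MeasureTheory ProbabilityTheory Filter Finset Topology

/-- The properties of a weight that are used. -/
structure IsW (b : ℝ → ℂ) (m : ℝ) : Prop where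
  meas : Measurable b
  bd : ∃ A : ℝ, ∀ t : ℝ, 1 ≤ t → ‖b t‖ ≤ A * (1 + Real.log t) / t
  mean : Tendsto (fun T : ℝ => (∫ t in (1 : ℝ)..T, t * ‖b t‖) / T) atTop (𝓝 m)
  conv : ∀ u : ℝ, 0 < u → ∃ z : ℝ, Tendsto (fun K : ℕ =>
    (∫ t in (6 * Real.pi)..(2 * Real.pi * K), Complex.exp ((u * t : ℝ) * Complex.I) * b t).re) atTop (𝓝 z)
  drift : ∃ C : ℝ, ∀ u : ℝ, 1 ≤ u → ∀ K : ℕ, 3 ≤ K →
    |(∫ t in (6 * Real.pi)..(2 * Real.pi * K), Complex.exp ((u * t : ℝ) * Complex.I) * b t).re| ≤ C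

/-- The ordinates. -/
noncomputable def ord (x : (n : ℕ) → Fin (sz n) → ℝ) (n : ℕ) (j : Fin (sz n)) : ℝ :=
  2 * Real.pi * n + x n j

/-- The partial sums. -/
noncomputable def partW (b : ℝ → ℂ) (x : (n : ℕ) → Fin (sz n) → ℝ) (K : ℕ) (u : ℝ) : ℂ :=
  ∑ n ∈ range K, ∑ j, b (ord x n j) * Complex.exp ((u * ord x n j : ℝ) * Complex.I) / dz (x n) j

/-- The sums of the absolute values. -/
noncomputable def CW (b : ℝ → ℂ) (x : (n : ℕ) → Fin (sz n) → ℝ) (K : ℕ) : ℝ :=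
  ∑ n ∈ range K, ∑ j, ‖b (ord x n j)‖ / ‖dz (x n) j‖

end Pool.Agent.Helper66.RMT
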