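import Pool.Agent.Helper66.RMT.Asm2

/-!
# Random matrix model: deterministic assembly, third part

Bounds for the sums of the coefficients, and the upper half.
-/

set_option autoImplicit false

namespace Pool.Agent.Helper66.RMT

open Filter Finset Topology

variable {κ : ℝ} {x : (n : ℕ) → Fin (sz n) → ℝ}

/-- `∑_{n < K} amp / n`. -/
noncomputable def S (x : (n : ℕ) → Fin (sz n) → ℝ) (K : ℕ) : ℝ := ∑ n ∈ range K, amp (x n) / n

/-- `∑_{n < K} ∑_j |c|`. -/
noncomputable def C (x : (n : ℕ) → Fin (sz n) → ℝ) (K : ℕ) : ℝ := ∑ n ∈ range K, ∑ j, ‖coef x n j‖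

theorem coef_norm (h : Good κ x) {n : ℕ} (hn : 1 ≤ n) (j : Fin (sz n)) :
    ‖coef x n j‖ ≤ 1 / ‖dz (x n) j‖ / n / (2 * Real.pi) ∧
    (1 / ‖dz (x n) j‖ / n - 2 * (1 / ‖dz (x n) j‖ / (n : ℝ) ^ 2)) / (2 * Real.pi) ≤ ‖coef x n j‖ := by
  have hn' : (1 : ℝ) ≤ n := by exact_mod_cast hn
  have hpi := Real.pi_gt_three
  have hd : 0 < ‖dz (x n) j‖ := norm_pos_iff.mpr (h.ne n j)
  have ho : 2 * Real.pi * n ≤ ord x n j := by
    unfold ord
    linarith [h.nonneg n j]
  have ho2 : ord x n j ≤ 2 * Real.pi * n + 2 * Real.pi := by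
    unfold ord
    linarith [h.lt n j]
  have hopos : 0 < ord x n j := lt_of_lt_of_le (by positivity) ho
  have h2 : 2 * Real.pi * n ≤ ‖(1 / 2 : ℂ) + ord x n j * Complex.I‖ := by
    refine ho.trans ?_
    have := Complex.abs_im_le_norm ((1 / 2 : ℂ) + ord x n j * Complex.I)
    have e : ((1 / 2 : ℂ) + ord x n j * Complex.I).im = ord x n j := by simp
    rw [e, abs_of_pos hopos] at this
    exact this
  have h3 : ‖(1 / 2 : ℂ) + ord x n j * Complex.I‖ ≤ 2 * Real.pi * n + 2 * Real.pi + 1 / 2 := by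
    refine (norm_add_le _ _).trans ?_
    rw [norm_mul, Complex.norm_I, mul_one, Complex.norm_real, Real.norm_of_nonneg hopos.le]
    have : ‖(1 / 2 : ℂ)‖ = 1 / 2 := by norm_num
    rw [this]
    linarith
  set N := ‖(1 / 2 : ℂ) + ord x n j * Complex.I‖ with hN
  have hNpos : 0 < N := lt_of_lt_of_le (by positivity) h2
  have e1 : ‖coef x n j‖ = 1 / ‖dz (x n) j‖ * (1 / N) := by
    unfold coef
    rw [norm_div, norm_one, norm_mul, ← hN]
    field_simp
  rw [e1]
  constructor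
  · have : 1 / ‖dz (x n) j‖ / n / (2 * Real.pi) = 1 / ‖dz (x n) j‖ * (1 / (2 * Real.pi * n)) := by
      field_simp
    rw [this]
    gcongr
  · have : (1 / ‖dz (x n) j‖ / n - 2 * (1 / ‖dz (x n) j‖ / (n : ℝ) ^ 2)) / (2 * Real.pi) =
        1 / ‖dz (x n) j‖ * ((1 / n - 2 / (n : ℝ) ^ 2) / (2 * Real.pi)) := by
      field_simp
    rw [this]
    apply mul_le_mul_of_nonneg_left _ (by positivity)
    refine le_trans ?_ (one_div_le_one_div_of_le hNpos h3)
    rw [div_le_div_iff₀ (by positivity) (by positivity)]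
    have e2 : (1 / (n : ℝ) - 2 / (n : ℝ) ^ 2) * (2 * Real.pi * n + 2 * Real.pi + 1 / 2) =
        (1 - 2 / n) * (2 * Real.pi + (2 * Real.pi + 1 / 2) / n) := by
      field_simp
      ring
    rw [e2, one_mul]
    have e3 : (1 - 2 / (n : ℝ)) * (2 * Real.pi + (2 * Real.pi + 1 / 2) / n) =
        2 * Real.pi - (2 * Real.pi - 1 / 2) / n - 2 * (2 * Real.pi + 1 / 2) / (n : ℝ) ^ 2 := by
      field_simp
      ring
    rw [e3]
    have h4 : 0 ≤ (2 * Real.pi - 1 / 2) / (n : ℝ) := by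
      apply div_nonneg _ (by positivity)
      linarith
    have h5 : 0 ≤ 2 * (2 * Real.pi + 1 / 2) / (n : ℝ) ^ 2 := by positivity
    linarith

theorem isEmpty_zero : IsEmpty (Fin (sz 0)) := by
  have : sz 0 = 0 := by simp [sz]
  rw [this]
  infer_instance

theorem block_le (h : Good κ x) (n : ℕ) : ∑ j, ‖coef x n j‖ ≤ amp (x n) / n / (2 * Real.pi) := by
  rcases Nat.eq_zero_or_pos n with rfl | hn
  · have := isEmpty_zero
    simp
  · unfold amp
    rw [sum_div, sum_div]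
    exact sum_le_sum fun j _ => (coef_norm h hn j).1

theorem block_ge (h : Good κ x) (n : ℕ) :
    (amp (x n) / n - 2 * (amp (x n) / (n : ℝ) ^ 2)) / (2 * Real.pi) ≤ ∑ j, ‖coef x n j‖ := by
  rcases Nat.eq_zero_or_pos n with rfl | hn
  · have := isEmpty_zero
    simp
  · have e : (amp (x n) / n - 2 * (amp (x n) / (n : ℝ) ^ 2)) / (2 * Real.pi) =
        ∑ j, (1 / ‖dz (x n) j‖ / n - 2 * (1 / ‖dz (x n) j‖ / (n : ℝ) ^ 2)) / (2 * Real.pi) := by
      unfold amp
      rw [← sum_div, sum_sub_distrib, ← mul_sum, ← sum_div, ← sum_div]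
    rw [e]
    exact sum_le_sum fun j _ => (coef_norm h hn j).2

theorem C_le (h : Good κ x) (K : ℕ) : C x K ≤ S x K / (2 * Real.pi) := by
  unfold C S
  rw [sum_div]
  exact sum_le_sum fun n _ => block_le h n

theorem C_diff (h : Good κ x) {L K : ℕ} (hLK : L ≤ K) :
    C x K - C x L ≤ (S x K - S x L) / (2 * Real.pi) := by
  unfold C S
  rw [← sum_range_add_sum_Ico _ hLK, ← sum_range_add_sum_Ico (fun n => amp (x n) / n) hLK]
  have : ∑ n ∈ Ico L K, ∑ j, ‖coef x n j‖ ≤ (∑ n ∈ Ico L K, amp (x n) / n) / (2 * Real.pi) := by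
    rw [sum_div]
    exact sum_le_sum fun n _ => block_le h n
  have e : ((∑ n ∈ range L, amp (x n) / n) + ∑ n ∈ Ico L K, amp (x n) / n -
      ∑ n ∈ range L, amp (x n) / n) = ∑ n ∈ Ico L K, amp (x n) / n := by ring
  rw [e]
  linarith

theorem C_ge (h : Good κ x) (K : ℕ) :
    (S x K - 2 * rem x 0) / (2 * Real.pi) ≤ C x K := by
  have hpi := Real.pi_pos
  unfold C S
  have h1 : ∑ n ∈ range K, (amp (x n) / n - 2 * (amp (x n) / (n : ℝ) ^ 2)) / (2 * Real.pi) ≤
      ∑ n ∈ range K, ∑ j, ‖coef x n j‖ := sum_le_sum fun n _ => block_ge h n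
  refine le_trans ?_ h1
  rw [← sum_div, sum_sub_distrib, ← mul_sum]
  gcongr
  have := sum_le_rem h 0 K
  rwa [← range_eq_Ico] at this

theorem S_mono (h : Good κ x) : Monotone (S x) := by
  intro a b hab
  unfold S
  apply sum_le_sum_of_subset_of_nonneg (range_mono hab)
  intro n _ _
  have := h.amp_nonneg n
  positivity

theorem norm_part_le (K : ℕ) (u : ℝ) : ‖part x K u‖ ≤ C x K := by
  unfold part C
  refine (norm_sum_le _ _).trans (sum_le_sum fun n _ => (norm_sum_le _ _).trans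
    (sum_le_sum fun j _ => ?_))
  rw [norm_mul, Complex.norm_exp_ofReal_mul_I, mul_one]

theorem norm_part_diff_le {L K : ℕ} (hLK : L ≤ K) (u : ℝ) :
    ‖part x K u - part x L u‖ ≤ C x K - C x L := by
  unfold part C
  rw [← sum_range_add_sum_Ico _ hLK, ← sum_range_add_sum_Ico (fun n => ∑ j, ‖coef x n j‖) hLK,
    add_sub_cancel_left, add_sub_cancel_left]
  refine (norm_sum_le _ _).trans (sum_le_sum fun n _ => (norm_sum_le _ _).trans
    (sum_le_sum fun j _ => ?_))
  rw [norm_mul, Complex.norm_exp_ofReal_mul_I, mul_one]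

/-- Along powers of two. -/
theorem S_pow (h : Good κ x) : Tendsto (fun k : ℕ => S x (2 ^ k) / ((k : ℝ) * Real.log 2) ^ (5 / 4 : ℝ))
    atTop (𝓝 (4 / 5 * κ)) := by
  have h1 := h.lln.comp pow_tendsto
  refine h1.congr fun k => ?_
  simp only [Function.comp, S]
  congr 2
  push_cast
  rw [Real.log_pow]

/-- A rescaled version. -/
theorem S_resc (h : Good κ x) {l : ℝ} (hl : 0 < l) {α : Type*} {F : Filter α} (k : α → ℕ) (v : α → ℝ)
    (hk : Tendsto k F atTop) (hv : ∀ᶠ a in F, 0 < v a)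
    (hkv : Tendsto (fun a => (k a : ℝ) * Real.log 2 / v a) F (𝓝 l)) :
    Tendsto (fun a => S x (2 ^ k a) / v a ^ (5 / 4 : ℝ)) F (𝓝 (4 / 5 * κ * l ^ (5 / 4 : ℝ))) := by
  have h1 := ((S_pow h).comp hk).mul (hkv.rpow_const (p := 5 / 4) (Or.inl hl.ne'))
  refine h1.congr' ?_
  filter_upwards [hv, hk.eventually_ge_atTop 1] with a ha hka
  have hk0 : (0 : ℝ) < k a := by exact_mod_cast hka
  have hl2 : 0 < Real.log 2 := Real.log_pos (by norm_num)
  have h2 : 0 < (k a : ℝ) * Real.log 2 := by positivity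
  simp only [Function.comp]
  rw [Real.div_rpow h2.le ha.le]
  have h3 : 0 < ((k a : ℝ) * Real.log 2) ^ (5 / 4 : ℝ) := Real.rpow_pos_of_pos h2 _
  have h4 : 0 < v a ^ (5 / 4 : ℝ) := Real.rpow_pos_of_pos ha _
  field_simp

/-- The upper half, for one `ε`. -/
theorem upper (h : Good κ x) {ε : ℝ} (hε : 0 < ε) (hε1 : ε < 1) (hεm : ∃ m : ℕ, ε = 1 / ((m : ℝ) + 2))
    (b : ℝ)
    (hb : 4 / 5 * κ * (1 / (1 - ε)) ^ (5 / 4 : ℝ) / Real.pi < b) :
    ∀ᶠ u : ℝ in atTop, ∀ z : ℂ, Tendsto (fun K => part x K u) atTop (𝓝 z) →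
      2 * ‖z‖ ≤ b * Real.log (Real.log u) ^ (5 / 4 : ℝ) := by
  have hl2 : 0 < Real.log 2 := Real.log_pos (by norm_num)
  have hpi := Real.pi_pos
  have hloglog : Tendsto (fun u : ℝ => Real.log (Real.log u)) atTop atTop :=
    Real.tendsto_log_atTop.comp Real.tendsto_log_atTop
  have h1e : 0 < 1 - ε := by linarith
  set k : ℝ → ℕ := fun u => ⌈(1 / (1 - ε)) * (Real.log (Real.log u) / Real.log 2)⌉₊ with hk
  have hvt : Tendsto (fun u : ℝ => Real.log (Real.log u) / Real.log 2) atTop atTop :=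
    hloglog.atTop_div_const hl2
  have hkt : Tendsto k atTop atTop :=
    tendsto_nat_ceil_atTop.comp (hvt.const_mul_atTop (by positivity))
  have hkv : Tendsto (fun u => (k u : ℝ) * Real.log 2 / Real.log (Real.log u)) atTop
      (𝓝 (1 / (1 - ε))) := by
    have h2 := (tendsto_nat_ceil_mul_div_atTop (R := ℝ) (a := 1 / (1 - ε)) (by positivity)).comp hvt
    refine h2.congr' ?_
    filter_upwards [hloglog.eventually_gt_atTop 0] with u hu
    simp only [Function.comp, hk]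
    field_simp
  have hS := S_resc h (by positivity : (0 : ℝ) < 1 / (1 - ε)) k (fun u => Real.log (Real.log u)) hkt
    (hloglog.eventually_gt_atTop 0) hkv
  have hpw : Tendsto (fun u : ℝ => Real.log (Real.log u) ^ (5 / 4 : ℝ)) atTop atTop :=
    (tendsto_rpow_atTop (by norm_num)).comp hloglog
  have heta : Tendsto (fun u : ℝ => 2 * eta x ε (k u) / Real.log (Real.log u) ^ (5 / 4 : ℝ)) atTop
      (𝓝 0) := by
    have h3 := ((eta_tendsto h hε).comp hkt).const_mul 2
    rw [mul_zero] at h3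
    exact h3.div_atTop hpw
  have htot := (hS.div_const Real.pi).add heta
  rw [add_zero] at htot
  obtain ⟨k₀, hk₀⟩ := lim_close h hε hεm
  filter_upwards [htot.eventually_lt_const hb, hkt.eventually_ge_atTop k₀, eventually_ge_atTop 1,
    Real.tendsto_log_atTop.eventually_gt_atTop 0, hpw.eventually_gt_atTop 0]
    with u hu1 hu2 hu3 hu5 hu4 z hz
  have hu6 : u ≤ Real.exp ((2 : ℝ) ^ ((k u : ℝ) * (1 - ε))) := by
    rw [← Real.log_le_iff_le_exp (by linarith)]
    have h4 : Real.log (Real.log u) / Real.log 2 ≤ (k u : ℝ) * (1 - ε) := by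
      have h5 := Nat.le_ceil ((1 / (1 - ε)) * (Real.log (Real.log u) / Real.log 2))
      have h6 : (1 / (1 - ε)) * (Real.log (Real.log u) / Real.log 2) * (1 - ε) ≤ (k u : ℝ) * (1 - ε) := by
        gcongr
      calc _ = (1 / (1 - ε)) * (Real.log (Real.log u) / Real.log 2) * (1 - ε) := by field_simp
        _ ≤ _ := h6
    calc Real.log u = (2 : ℝ) ^ (Real.log (Real.log u) / Real.log 2) := by
          rw [Real.rpow_def_of_pos (by norm_num), mul_div_cancel₀ _ hl2.ne', Real.exp_log hu5]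
      _ ≤ _ := Real.rpow_le_rpow_of_exponent_le (by norm_num) h4
  have h7 := hk₀ (k u) hu2 u hu3 hu6 z hz
  have h8 : ‖z‖ ≤ S x (2 ^ k u) / (2 * Real.pi) + eta x ε (k u) := by
    calc ‖z‖ = ‖part x (2 ^ k u) u + (z - part x (2 ^ k u) u)‖ := by congr 1; ring
      _ ≤ ‖part x (2 ^ k u) u‖ + ‖z - part x (2 ^ k u) u‖ := norm_add_le _ _
      _ ≤ S x (2 ^ k u) / (2 * Real.pi) + eta x ε (k u) :=
          add_le_add ((norm_part_le _ _).trans (C_le h _)) h7
  have h9 : 2 * ‖z‖ ≤ (S x (2 ^ k u) / Real.log (Real.log u) ^ (5 / 4 : ℝ) / Real.pi +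
      2 * eta x ε (k u) / Real.log (Real.log u) ^ (5 / 4 : ℝ)) * Real.log (Real.log u) ^ (5 / 4 : ℝ) := by
    have e : (S x (2 ^ k u) / Real.log (Real.log u) ^ (5 / 4 : ℝ) / Real.pi +
      2 * eta x ε (k u) / Real.log (Real.log u) ^ (5 / 4 : ℝ)) * Real.log (Real.log u) ^ (5 / 4 : ℝ) =
      2 * (S x (2 ^ k u) / (2 * Real.pi) + eta x ε (k u)) := by
      field_simp
    rw [e]
    linarith
  refine h9.trans ?_
  gcongr

end Pool.Agent.Helper66.RMT
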