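import Pool.Agent.Helper66.RMT.SqSum

/-!
# Random matrix model: block B4

Almost surely there are no small linear forms in the ordinates.
-/

set_option autoImplicit false

namespace Pool.Agent.Helper66.RMT

open MeasureTheory ProbabilityTheory Filter Finset Topology

/-- The indices of the ordinates below `2π 2^k`. -/
abbrev Idx (k : ℕ) := Σ n : Fin (2 ^ k), Fin (sz n)

theorem sz_le {n k : ℕ} (h : n < 2 ^ k) : sz n ≤ k := by
  rcases Nat.eq_zero_or_pos n with rfl | hn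
  · simp [sz]
  have h1 : (sz n : ℝ) ≤ k := by
    refine (sz_le_log n).trans ?_
    have h2 : Real.log n ≤ Real.log ((2 : ℝ) ^ k) :=
      Real.log_le_log (by exact_mod_cast hn) (by exact_mod_cast h.le)
    rw [Real.log_pow] at h2
    have h3 : Real.log 2 ≤ 1 := by
      have := Real.log_two_lt_d9
      linarith
    have : (k : ℝ) * Real.log 2 ≤ k * 1 := by gcongr
    linarith
  exact_mod_cast h1

theorem card_idx (k : ℕ) : Fintype.card (Idx k) ≤ k * 2 ^ k := by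
  rw [Fintype.card_sigma]
  calc ∑ n : Fin (2 ^ k), Fintype.card (Fin (sz n)) ≤ ∑ _n : Fin (2 ^ k), k := by
        apply sum_le_sum
        intro n _
        rw [Fintype.card_fin]
        exact sz_le n.2
    _ = k * 2 ^ k := by simp [mul_comm]

section

variable {Ω : Type*} [MeasurableSpace Ω] (P : Measure Ω) [IsProbabilityMeasure P]
  (θ : (n : ℕ) → Ω → (Fin (sz n) → ℝ)) (hm : ∀ n, Measurable (θ n)) (hi : iIndepFun θ P)
  (hl : ∀ n, P.map (θ n) = cue (sz n))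

include hm hi hl

theorem form_prob {k : ℕ} (m : Idx k → ℤ) (n₀ : Fin (2 ^ k)) (j₀ : Fin (sz n₀)) (h0 : m ⟨n₀, j₀⟩ ≠ 0)
    (δ : ℝ) (hδ : 0 < δ) :
    P {ω | |∑ p : Idx k, (m p : ℝ) * (2 * Real.pi * (p.1 : ℕ) + θ p.1 ω p.2)| < δ} ≤
      ENNReal.ofReal (4 ^ k * δ) := by
  -- the other blocks
  set R : Ω → ℝ := fun ω => ∑ n ∈ univ.erase n₀, ∑ j : Fin (sz (n : Fin (2 ^ k))),
    (m ⟨n, j⟩ : ℝ) * (2 * Real.pi * ((n : Fin (2 ^ k)) : ℕ) + θ n ω j) +
    ∑ j : Fin (sz n₀), (m ⟨n₀, j⟩ : ℝ) * (2 * Real.pi * (n₀ : ℕ)) with hR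
  have hRm : Measurable R := by
    rw [hR]
    refine Measurable.add ?_ measurable_const
    refine Finset.measurable_sum _ fun n _ => Finset.measurable_sum _ fun j _ => ?_
    exact (((measurable_pi_apply j).comp (hm n)).const_add _).const_mul _
  have hind : IndepFun (θ n₀) R P := by
    have h1 := hi.indepFun_finset {(n₀ : ℕ)} ((range (2 ^ k)).erase n₀) (by simp) hm
    -- compose
    have h2 : R = (fun x : ((n : ((range (2 ^ k)).erase (n₀ : ℕ) : Finset ℕ)) → Fin (sz n) → ℝ) =>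
        ∑ n ∈ (univ.erase n₀).attach, ∑ j : Fin (sz (n : Fin (2 ^ k))),
          (m ⟨n, j⟩ : ℝ) * (2 * Real.pi * ((n : Fin (2 ^ k)) : ℕ) +
            x ⟨((n : Fin (2 ^ k)) : ℕ), by
              rw [mem_erase, mem_range]
              refine ⟨?_, (n : Fin (2 ^ k)).2⟩
              intro h
              exact (mem_erase.mp n.2).1 (Fin.ext h)⟩ j) +
          ∑ j : Fin (sz n₀), (m ⟨n₀, j⟩ : ℝ) * (2 * Real.pi * (n₀ : ℕ))) ∘
        (fun ω (n : ((range (2 ^ k)).erase (n₀ : ℕ) : Finset ℕ)) => θ n ω) := by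
      funext ω
      simp only [hR, Function.comp]
      congr 1
      rw [← sum_attach]
    have h3 : θ n₀ = (fun x : ((n : ({(n₀ : ℕ)} : Finset ℕ)) → Fin (sz n) → ℝ) =>
        x ⟨n₀, mem_singleton_self _⟩) ∘ (fun ω (n : ({(n₀ : ℕ)} : Finset ℕ)) => θ n ω) := rfl
    rw [h2, h3]
    refine h1.comp (measurable_pi_apply _) ?_
    refine Measurable.add ?_ measurable_const
    refine Finset.measurable_sum _ fun n _ => Finset.measurable_sum _ fun j _ => ?_
    refine Measurable.const_mul (Measurable.const_add ?_ _) _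
    fun_prop
  have hmap := (indepFun_iff_map_prod_eq_prod_map_map (hm n₀).aemeasurable hRm.aemeasurable).mp hind
  set B : Set ((Fin (sz n₀) → ℝ) × ℝ) := {x | |∑ j, (m ⟨n₀, j⟩ : ℝ) * x.1 j + x.2| < δ} with hB
  have hBm : MeasurableSet B := by
    have : Measurable fun x : (Fin (sz n₀) → ℝ) × ℝ =>
        |∑ j, (m ⟨n₀, j⟩ : ℝ) * x.1 j + x.2| := by fun_prop
    exact measurableSet_lt this measurable_const
  have hset : {ω | |∑ p : Idx k, (m p : ℝ) * (2 * Real.pi * (p.1 : ℕ) + θ p.1 ω p.2)| < δ} =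
      (fun ω => (θ n₀ ω, R ω)) ⁻¹' B := by
    ext ω
    simp only [hB, Set.mem_preimage, Set.mem_ofPred_eq]
    have e1 : ∑ p : Idx k, (m p : ℝ) * (2 * Real.pi * (p.1 : ℕ) + θ p.1 ω p.2) =
        ∑ j, (m ⟨n₀, j⟩ : ℝ) * θ n₀ ω j + R ω := by
      rw [Fintype.sum_sigma, ← add_sum_erase univ _ (mem_univ n₀)]
      simp only [hR]
      have e2 : ∑ j : Fin (sz n₀), (m ⟨n₀, j⟩ : ℝ) * (2 * Real.pi * (n₀ : ℕ) + θ n₀ ω j) =
          ∑ j, (m ⟨n₀, j⟩ : ℝ) * θ n₀ ω j +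
            ∑ j : Fin (sz n₀), (m ⟨n₀, j⟩ : ℝ) * (2 * Real.pi * (n₀ : ℕ)) := by
        rw [← sum_add_distrib]
        exact sum_congr rfl fun j _ => by ring
      rw [e2]
      ring
    rw [e1]
  rw [hset, ← Measure.map_apply ((hm n₀).prodMk hRm) hBm, hmap, Measure.prod_apply_symm hBm]
  have hmne : (fun j => m ⟨n₀, j⟩ : Fin (sz n₀) → ℤ) ≠ 0 := by
    intro h
    exact h0 (congrFun h j₀)
  calc ∫⁻ r, (P.map (θ n₀)) ((fun x => (x, r)) ⁻¹' B) ∂(P.map R)
      ≤ ∫⁻ _r, ENNReal.ofReal (4 ^ k * δ) ∂(P.map R) := by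
        apply lintegral_mono
        intro r
        rw [hl]
        refine (lin_small (fun j => m ⟨n₀, j⟩) hmne r δ hδ).trans ?_
        apply ENNReal.ofReal_le_ofReal
        gcongr
        · norm_num
        · exact sz_le n₀.2
    _ = ENNReal.ofReal (4 ^ k * δ) := by
        rw [lintegral_const, Measure.map_apply hRm MeasurableSet.univ]
        simp

/-- B4. -/
theorem forms' (ε : ℝ) (hε : 0 < ε) :
    ∀ᵐ ω ∂P, ∃ k₀ : ℕ, ∀ k ≥ k₀, ∀ m : Idx k → ℤ, (∀ p, |m p| ≤ k) → m ≠ 0 →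
      Real.exp (-(2 : ℝ) ^ ((k : ℝ) * (1 + ε))) ≤
        |∑ p : Idx k, (m p : ℝ) * (2 * Real.pi * (p.1 : ℕ) + θ p.1 ω p.2)| := by
  classical
  set δ : ℕ → ℝ := fun k => Real.exp (-(2 : ℝ) ^ ((k : ℝ) * (1 + ε))) with hδ
  set A : (k : ℕ) → Finset (Idx k → ℤ) := fun k =>
    (Fintype.piFinset fun _ : Idx k => Icc (-(k : ℤ)) k).erase 0 with hA
  set E : ℕ → Set Ω := fun k => ⋃ m ∈ A k,
    {ω | |∑ p : Idx k, (m p : ℝ) * (2 * Real.pi * (p.1 : ℕ) + θ p.1 ω p.2)| < δ k} with hE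
  have hcard : ∀ k, (#(A k) : ℝ) ≤ (2 * k + 1) ^ (k * 2 ^ k) := by
    intro k
    have h1 : #(A k) ≤ (2 * k + 1) ^ (Fintype.card (Idx k)) := by
      refine (card_erase_le).trans (le_of_eq ?_)
      rw [Fintype.card_piFinset, prod_const, card_univ]
      congr 1
      rw [Int.card_Icc]
      omega
    calc (#(A k) : ℝ) ≤ ((2 * k + 1 : ℕ) : ℝ) ^ (Fintype.card (Idx k)) := by exact_mod_cast h1
      _ ≤ ((2 * k + 1 : ℕ) : ℝ) ^ (k * 2 ^ k) := by
          apply pow_le_pow_right₀ _ (card_idx k)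
          have : 1 ≤ 2 * k + 1 := by omega
          exact_mod_cast this
      _ = _ := by push_cast; ring
  have hPE : ∀ k, P (E k) ≤ ENNReal.ofReal ((2 * k + 1) ^ (k * 2 ^ k) * (4 ^ k * δ k)) := by
    intro k
    have hδk : 0 < δ k := Real.exp_pos _
    calc P (E k) ≤ ∑ m ∈ A k,
          P {ω | |∑ p : Idx k, (m p : ℝ) * (2 * Real.pi * (p.1 : ℕ) + θ p.1 ω p.2)| < δ k} :=
          measure_biUnion_finset_le _ _
      _ ≤ ∑ _m ∈ A k, ENNReal.ofReal (4 ^ k * δ k) := by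
          apply sum_le_sum
          intro m hmA
          have hne : m ≠ 0 := (mem_erase.mp hmA).1
          obtain ⟨⟨n₀, j₀⟩, hp⟩ := Function.ne_iff.mp hne
          exact form_prob P θ hm hi hl m n₀ j₀ hp (δ k) hδk
      _ = ENNReal.ofReal (#(A k) * (4 ^ k * δ k)) := by
          rw [sum_const, nsmul_eq_mul, ENNReal.ofReal_mul (p := (#(A k) : ℝ)) (Nat.cast_nonneg _),
            ENNReal.ofReal_natCast]
      _ ≤ _ := by
          apply ENNReal.ofReal_le_ofReal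
          gcongr
          exact hcard k
  -- summability
  have hev : ∀ᶠ k : ℕ in atTop, (2 * (k : ℝ) + 1) ^ (k * 2 ^ k) * (4 ^ k * δ k) ≤ Real.exp (-(k : ℝ)) := by
    have h1 : Tendsto (fun k : ℕ => ((k : ℝ) ^ 2 * 4) / ((2 : ℝ) ^ ε) ^ (k : ℝ)) atTop (𝓝 0) := by
      have hb : (1 : ℝ) < (2 : ℝ) ^ ε := Real.one_lt_rpow (by norm_num) hε
      have h2 : Tendsto (fun x : ℝ => x ^ (2 : ℝ) * Real.exp (-(Real.log ((2 : ℝ) ^ ε)) * x)) atTop
          (𝓝 0) := tendsto_rpow_mul_exp_neg_mul_atTop_nhds_zero 2 _ (Real.log_pos hb)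
      have h3 := (h2.comp tendsto_natCast_atTop_atTop).const_mul (4 : ℝ)
      rw [mul_zero] at h3
      refine h3.congr fun k => ?_
      simp only [Function.comp]
      rw [Real.rpow_def_of_pos (by linarith : (0 : ℝ) < (2 : ℝ) ^ ε)]
      have : Real.exp (-Real.log ((2 : ℝ) ^ ε) * k) = (Real.exp (Real.log ((2 : ℝ) ^ ε) * k))⁻¹ := by
        rw [← Real.exp_neg]
        congr 1
        ring
      rw [this, Real.rpow_two]
      ring
    filter_upwards [h1.eventually_le_const (show (0 : ℝ) < 1 by norm_num), eventually_ge_atTop 2]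
      with k hk hk2
    have hk' : (2 : ℝ) ≤ k := by exact_mod_cast hk2
    have hpos : (0 : ℝ) < ((2 : ℝ) ^ ε) ^ (k : ℝ) := by positivity
    rw [div_le_one hpos] at hk
    have e1 : (2 : ℝ) ^ ((k : ℝ) * (1 + ε)) = (2 : ℝ) ^ k * ((2 : ℝ) ^ ε) ^ (k : ℝ) := by
      rw [← Real.rpow_natCast 2 k, ← Real.rpow_mul (by norm_num), ← Real.rpow_add (by norm_num)]
      congr 1
      ring
    have e2 : (2 * (k : ℝ) + 1) ^ (k * 2 ^ k) ≤ Real.exp ((k : ℝ) * 2 ^ k * (2 * k)) := by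
      have h5 : 2 * (k : ℝ) + 1 ≤ Real.exp (2 * k) := Real.add_one_le_exp _
      calc (2 * (k : ℝ) + 1) ^ (k * 2 ^ k) ≤ (Real.exp (2 * k)) ^ (k * 2 ^ k) := by gcongr
        _ = _ := by
            rw [← Real.exp_nat_mul]
            congr 1
            push_cast
            ring
    have e3 : (4 : ℝ) ^ k ≤ Real.exp (2 * k) := by
      have h5 : (4 : ℝ) ≤ Real.exp 2 := by
        have := Real.add_one_le_exp (1 : ℝ)
        have h6 : Real.exp 2 = Real.exp 1 * Real.exp 1 := by rw [← Real.exp_add]; norm_num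
        rw [h6]
        nlinarith
      calc (4 : ℝ) ^ k ≤ (Real.exp 2) ^ k := by gcongr
        _ = _ := by rw [← Real.exp_nat_mul]; congr 1; ring
    calc (2 * (k : ℝ) + 1) ^ (k * 2 ^ k) * (4 ^ k * δ k)
        ≤ Real.exp ((k : ℝ) * 2 ^ k * (2 * k)) * (Real.exp (2 * k) * δ k) := by
          have : 0 < δ k := Real.exp_pos _
          gcongr
      _ = Real.exp ((k : ℝ) * 2 ^ k * (2 * k) + (2 * k + -(2 : ℝ) ^ ((k : ℝ) * (1 + ε)))) := by
          rw [hδ, Real.exp_add, Real.exp_add]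
      _ ≤ Real.exp (-(k : ℝ)) := by
          apply Real.exp_le_exp.mpr
          rw [e1]
          have h2k : (1 : ℝ) ≤ (2 : ℝ) ^ k := one_le_pow₀ (by norm_num)
          have h6 : (2 : ℝ) ^ k * ((k : ℝ) ^ 2 * 4) ≤ (2 : ℝ) ^ k * ((2 : ℝ) ^ ε) ^ (k : ℝ) := by
            gcongr
          nlinarith [mul_nonneg (show (0 : ℝ) ≤ (2 : ℝ) ^ k - 1 by linarith)
            (show (0 : ℝ) ≤ (k : ℝ) ^ 2 by positivity)]
  have hBC : ∀ᵐ ω ∂P, ∀ᶠ k : ℕ in atTop, ω ∉ E k := by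
    apply ae_eventually_notMem
    obtain ⟨k₁, hk₁⟩ := eventually_atTop.mp hev
    have hsum : Summable fun k : ℕ => Real.exp (-(k : ℝ)) := Real.summable_exp_neg_nat
    have h1 : ∀ k, P (E k) ≤ (if k < k₁ then 1 else 0) + ENNReal.ofReal (Real.exp (-(k : ℝ))) := by
      intro k
      by_cases hk : k < k₁
      · rw [if_pos hk]
        exact prob_le_one.trans le_self_add
      · rw [if_neg hk, zero_add]
        exact (hPE k).trans (ENNReal.ofReal_le_ofReal (hk₁ k (by omega)))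
    refine ne_top_of_le_ne_top ?_ (ENNReal.tsum_le_tsum h1)
    rw [ENNReal.tsum_add, ← ENNReal.ofReal_tsum_of_nonneg (fun k => (Real.exp_pos _).le) hsum]
    refine ENNReal.add_ne_top.mpr ⟨?_, ENNReal.ofReal_ne_top⟩
    rw [tsum_eq_sum (s := range k₁)]
    · refine ENNReal.sum_ne_top.mpr fun k _ => ?_
      split_ifs <;> simp
    · intro k hk
      rw [if_neg (by simpa using hk)]
  filter_upwards [hBC] with ω hω
  obtain ⟨k₀, hk₀⟩ := eventually_atTop.mp hω
  refine ⟨k₀, fun k hk m hmb hm0 => ?_⟩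
  by_contra hcon
  push Not at hcon
  apply hk₀ k hk
  simp only [hE, Set.mem_iUnion, Set.mem_ofPred_eq, exists_prop]
  refine ⟨m, ?_, hcon⟩
  rw [hA, mem_erase, Fintype.mem_piFinset]
  exact ⟨hm0, fun p => mem_Icc.mpr (abs_le.mp (hmb p))⟩

end

end Pool.Agent.Helper66.RMT
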