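import Pool.Agent.Helper66.RMT.Forms
import Pool.Agent.Helper66.RMT.DefsW

/-!
# Random matrix model: deterministic assembly, first part

Convergence of the explicit formula.
-/

set_option autoImplicit false

namespace Pool.Agent.Helper66.RMT

open Filter Finset Topology

/-- The coefficients `1 / (ρ ζ'(ρ))`. -/
noncomputable def coef (x : (n : ℕ) → Fin (sz n) → ℝ) (n : ℕ) (j : Fin (sz n)) : ℂ :=
  1 / ((1 / 2 + ord x n j * Complex.I) * dz (x n) j)

/-- The partial sums. -/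
noncomputable def part (x : (n : ℕ) → Fin (sz n) → ℝ) (K : ℕ) (u : ℝ) : ℂ :=
  ∑ n ∈ range K, ∑ j, coef x n j * Complex.exp ((u * ord x n j : ℝ) * Complex.I)

/-- What is known about almost every sample. -/
structure Good (κ : ℝ) (x : (n : ℕ) → Fin (sz n) → ℝ) : Prop where
  ne : ∀ n j, dz (x n) j ≠ 0
  nonneg : ∀ n j, 0 ≤ x n j
  lt : ∀ n j, x n j < 2 * Real.pi
  lln : Tendsto (fun K : ℕ => (∑ n ∈ range K, amp (x n) / n) / Real.log K ^ (5 / 4 : ℝ)) atTop
    (𝓝 (4 / 5 * κ))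
  sq : Summable fun n : ℕ => amp (x n) / (n : ℝ) ^ 2
  tail : ∀ ε : ℝ, (∃ m : ℕ, ε = 1 / ((m : ℝ) + 2)) → ∃ k₀ : ℕ, ∀ k ≥ k₀, ∀ K : ℕ, K ≤ 2 ^ (k + 1) → ∀ u : ℝ,
    (2 : ℝ) ^ (-(k : ℝ)) ≤ u → u ≤ Real.exp ((2 : ℝ) ^ ((k : ℝ) * (1 - ε))) →
      ‖∑ n ∈ Ico (2 ^ k) K, Complex.exp ((2 * Real.pi * n * u : ℝ) * Complex.I) / n *
        (ff (x n) u - mu u)‖ ≤ (2 : ℝ) ^ (-(k : ℝ) * ε / 8)
  forms : ∀ ε : ℝ, 0 < ε → ∃ k₀ : ℕ, ∀ k ≥ k₀, ∀ m : Idx k → ℤ, (∀ p, |m p| ≤ k) → m ≠ 0 →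
      Real.exp (-(2 : ℝ) ^ ((k : ℝ) * (1 + ε))) ≤
        |∑ p : Idx k, (m p : ℝ) * (2 * Real.pi * (p.1 : ℕ) + x p.1 p.2)|

/-- Summation by parts. -/
theorem abel_le (z : ℕ → ℂ) (hz : ∀ n, ‖z n‖ ≤ 1) {L : ℕ} (hL : 1 ≤ L) (K : ℕ) :
    ‖∑ n ∈ Ico L K, (z (n + 1) - z n) / n‖ ≤ 2 / L := by
  have hL' : (0 : ℝ) < L := by exact_mod_cast hL
  rcases Nat.lt_or_ge K L with h | h
  · rw [Ico_eq_empty_of_le h.le, sum_empty, norm_zero]
    positivity
  have key : ∀ K, L ≤ K → ‖(∑ n ∈ Ico L K, (z (n + 1) - z n) / n) - z K / K‖ ≤ 2 / L - 1 / K := by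
    intro K hK
    induction K, hK using Nat.le_induction with
    | base =>
      rw [Ico_self, sum_empty, zero_sub, norm_neg, norm_div, Complex.norm_natCast]
      have : 2 / (L : ℝ) - 1 / L = 1 / L := by ring
      rw [this]
      gcongr
      exact hz L
    | succ K hK ih =>
      have hK' : (0 : ℝ) < K := by exact_mod_cast (by omega : 0 < K)
      have hKc : (K : ℂ) ≠ 0 := by exact_mod_cast (by omega : K ≠ 0)
      have hKc1 : ((K : ℂ) + 1) ≠ 0 := by exact_mod_cast (by omega : K + 1 ≠ 0)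
      rw [sum_Ico_succ_top hK]
      have e : (∑ n ∈ Ico L K, (z (n + 1) - z n) / n) + (z (K + 1) - z K) / K - z (K + 1) / ((K + 1 : ℕ) : ℂ) =
          ((∑ n ∈ Ico L K, (z (n + 1) - z n) / n) - z K / K) +
            z (K + 1) * (((1 / (K : ℝ) - 1 / ((K : ℝ) + 1) : ℝ)) : ℂ) := by
        push_cast
        field_simp
        ring
      rw [e]
      refine (norm_add_le _ _).trans ?_
      have h1 : 0 ≤ 1 / (K : ℝ) - 1 / ((K : ℝ) + 1) := by
        rw [sub_nonneg]
        gcongr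
        linarith
      rw [norm_mul, Complex.norm_real, Real.norm_of_nonneg h1]
      have h2 : ‖z (K + 1)‖ * (1 / (K : ℝ) - 1 / ((K : ℝ) + 1)) ≤ 1 * (1 / (K : ℝ) - 1 / ((K : ℝ) + 1)) := by
        gcongr
        exact hz _
      push_cast
      linarith
  have h1 := key K h
  have hK' : (0 : ℝ) < K := by exact_mod_cast (by omega : 0 < K)
  have h2 : ‖z K / K‖ ≤ 1 / K := by
    rw [norm_div, Complex.norm_natCast]
    gcongr
    exact hz K
  calc ‖∑ n ∈ Ico L K, (z (n + 1) - z n) / n‖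
      = ‖((∑ n ∈ Ico L K, (z (n + 1) - z n) / n) - z K / K) + z K / K‖ := by
        congr 1
        ring
    _ ≤ (2 / L - 1 / K) + 1 / K := (norm_add_le _ _).trans (add_le_add h1 h2)
    _ = 2 / L := by ring

/-- The mean part of the tail. -/
theorem mu_sum_le {u : ℝ} (hu : 0 < u) {L : ℕ} (hL : 1 ≤ L) (K : ℕ) :
    ‖∑ n ∈ Ico L K, Complex.exp ((2 * Real.pi * n * u : ℝ) * Complex.I) / n * mu u‖ ≤ 1 / (u * L) := by
  have hL' : (0 : ℝ) < L := by exact_mod_cast hL
  set z : ℕ → ℂ := fun n => Complex.exp ((2 * Real.pi * n * u : ℝ) * Complex.I) with hz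
  have h1 : ∀ n : ℕ, z n * (Complex.exp ((2 * Real.pi * u : ℝ) * Complex.I) - 1) = z (n + 1) - z n := by
    intro n
    rw [mul_sub, mul_one]
    congr 1
    simp only [hz]
    rw [← Complex.exp_add]
    congr 1
    push_cast
    ring
  have h2 : ∑ n ∈ Ico L K, Complex.exp ((2 * Real.pi * n * u : ℝ) * Complex.I) / n * mu u =
      (∑ n ∈ Ico L K, (z (n + 1) - z n) / n) / ((2 * Real.pi * u : ℝ) * Complex.I) := by
    rw [sum_div]
    apply sum_congr rfl
    intro n _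
    rw [← h1 n]
    unfold mu
    ring
  rw [h2, norm_div, norm_mul, Complex.norm_I, mul_one, Complex.norm_real, Real.norm_eq_abs,
    abs_of_pos (by positivity)]
  have h3 := abel_le z (fun n => by rw [hz]; exact (Complex.norm_exp_ofReal_mul_I _).le) hL K
  calc _ ≤ (2 / L) / (2 * Real.pi * u) := by gcongr
    _ ≤ 1 / (u * L) := by
        have hpi := Real.pi_gt_three
        rw [div_div, div_le_div_iff₀ (by positivity) (by positivity)]
        have : 0 < u * L := by positivity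
        nlinarith

theorem Good.amp_nonneg {κ : ℝ} {x : (n : ℕ) → Fin (sz n) → ℝ} (_ : Good κ x) (n : ℕ) :
    0 ≤ amp (x n) := RMT.amp_nonneg _

/-- One block against its main part. -/
theorem block_close {κ : ℝ} {x : (n : ℕ) → Fin (sz n) → ℝ} (h : Good κ x) {n : ℕ} (hn : 1 ≤ n) (u : ℝ) :
    ‖∑ j, coef x n j * Complex.exp ((u * ord x n j : ℝ) * Complex.I) -
      Complex.exp ((2 * Real.pi * n * u : ℝ) * Complex.I) / n * ff (x n) u / (2 * Real.pi * Complex.I)‖ ≤
      amp (x n) / (n : ℝ) ^ 2 := by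
  have hn' : (1 : ℝ) ≤ n := by exact_mod_cast hn
  have hpi := Real.pi_gt_three
  have hnc : (n : ℂ) ≠ 0 := by exact_mod_cast (by omega : n ≠ 0)
  have hpic : (Real.pi : ℂ) ≠ 0 := by exact_mod_cast Real.pi_ne_zero
  unfold ff amp
  rw [mul_sum, sum_div, ← sum_sub_distrib, sum_div]
  refine (norm_sum_le _ _).trans (sum_le_sum fun j _ => ?_)
  have hd : dz (x n) j ≠ 0 := h.ne n j
  have ho : 2 * Real.pi * n ≤ ord x n j := by
    unfold ord
    linarith [h.nonneg n j]
  have ho2 : ord x n j - 2 * Real.pi * n ≤ 2 * Real.pi := by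
    unfold ord
    linarith [h.lt n j]
  have hopos : 0 < ord x n j := lt_of_lt_of_le (by positivity) ho
  have hre : ((1 / 2 : ℂ) + ord x n j * Complex.I) ≠ 0 := by
    intro h0
    have := congrArg Complex.re h0
    simp at this
  have e1 : Complex.exp ((u * ord x n j : ℝ) * Complex.I) =
      Complex.exp ((2 * Real.pi * n * u : ℝ) * Complex.I) * Complex.exp ((u * x n j : ℝ) * Complex.I) := by
    rw [← Complex.exp_add]
    congr 1
    unfold ord
    push_cast
    ring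
  have e2 : coef x n j * Complex.exp ((u * ord x n j : ℝ) * Complex.I) -
      Complex.exp ((2 * Real.pi * n * u : ℝ) * Complex.I) / n *
        (Complex.exp ((u * x n j : ℝ) * Complex.I) / dz (x n) j) / (2 * Real.pi * Complex.I) =
      (1 / dz (x n) j) * ((1 / ((1 / 2 : ℂ) + ord x n j * Complex.I) - 1 / (2 * Real.pi * n * Complex.I)) *
        (Complex.exp ((2 * Real.pi * n * u : ℝ) * Complex.I) *
          Complex.exp ((u * x n j : ℝ) * Complex.I))) := by
    rw [e1]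
    unfold coef
    field_simp
  rw [e2, norm_mul, norm_mul, norm_mul, Complex.norm_exp_ofReal_mul_I, Complex.norm_exp_ofReal_mul_I,
    mul_one, mul_one, norm_div, norm_one, div_eq_mul_one_div (1 / ‖dz (x n) j‖)]
  apply mul_le_mul_of_nonneg_left _ (by positivity)
  have e3 : (1 / ((1 / 2 : ℂ) + ord x n j * Complex.I) - 1 / (2 * Real.pi * n * Complex.I)) =
      (((2 * Real.pi * n - ord x n j : ℝ) : ℂ) * Complex.I - 1 / 2) /
        (((1 / 2 : ℂ) + ord x n j * Complex.I) * (2 * Real.pi * n * Complex.I)) := by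
    have hE : (2 * Real.pi * n * Complex.I : ℂ) ≠ 0 := by
      simp [hpic, hnc]
    rw [div_sub_div _ _ hre hE]
    congr 1
    push_cast
    ring
  rw [e3, norm_div, norm_mul]
  have h1 : ‖((2 * Real.pi * n - ord x n j : ℝ) : ℂ) * Complex.I - 1 / 2‖ ≤ 2 * Real.pi + 1 / 2 := by
    refine (norm_sub_le _ _).trans ?_
    rw [norm_mul, Complex.norm_I, mul_one, Complex.norm_real, Real.norm_eq_abs, abs_sub_comm,
      abs_of_nonneg (by linarith)]
    have : ‖(1 / 2 : ℂ)‖ = 1 / 2 := by norm_num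
    rw [this]
    linarith
  have h2 : 2 * Real.pi * n ≤ ‖(1 / 2 : ℂ) + ord x n j * Complex.I‖ := by
    refine ho.trans ?_
    have := Complex.abs_im_le_norm ((1 / 2 : ℂ) + ord x n j * Complex.I)
    have e : ((1 / 2 : ℂ) + ord x n j * Complex.I).im = ord x n j := by simp
    rw [e, abs_of_pos hopos] at this
    exact this
  have h3 : ‖(2 * Real.pi * n * Complex.I : ℂ)‖ = 2 * Real.pi * n := by
    have : (2 * Real.pi * n * Complex.I : ℂ) = ((2 * Real.pi * n : ℝ) : ℂ) * Complex.I := by push_cast; ring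
    rw [this, norm_mul, Complex.norm_I, mul_one, Complex.norm_real, Real.norm_of_nonneg (by positivity)]
  rw [h3]
  calc _ ≤ (2 * Real.pi + 1 / 2) / ((2 * Real.pi * n) * (2 * Real.pi * n)) := by gcongr
    _ ≤ 1 / (n : ℝ) ^ 2 := by
        rw [div_le_div_iff₀ (by positivity) (by positivity)]
        have h5 : 2 * Real.pi + 1 / 2 ≤ (2 * Real.pi) * (2 * Real.pi) := by nlinarith
        calc (2 * Real.pi + 1 / 2) * (n : ℝ) ^ 2 ≤ ((2 * Real.pi) * (2 * Real.pi)) * (n : ℝ) ^ 2 := by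
              gcongr
          _ = _ := by ring

/-- The remainder of the series `∑ amp / n²`. -/
noncomputable def rem (x : (n : ℕ) → Fin (sz n) → ℝ) (L : ℕ) : ℝ :=
  ∑' n : ℕ, amp (x (n + L)) / ((n + L : ℕ) : ℝ) ^ 2

theorem rem_tendsto {κ : ℝ} {x : (n : ℕ) → Fin (sz n) → ℝ} (_ : Good κ x) :
    Tendsto (rem x) atTop (𝓝 0) :=
  tendsto_sum_nat_add fun n => amp (x n) / (n : ℝ) ^ 2

theorem sum_le_rem {κ : ℝ} {x : (n : ℕ) → Fin (sz n) → ℝ} (h : Good κ x) (L K : ℕ) :
    ∑ n ∈ Ico L K, amp (x n) / (n : ℝ) ^ 2 ≤ rem x L := by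
  have hs : Summable fun n : ℕ => amp (x (n + L)) / ((n + L : ℕ) : ℝ) ^ 2 :=
    (summable_nat_add_iff L).mpr h.sq
  rw [sum_Ico_eq_sum_range]
  have h1 := hs.sum_le_tsum (range (K - L)) fun n _ => by
    have := h.amp_nonneg (n + L)
    positivity
  refine le_trans (le_of_eq ?_) h1
  apply sum_congr rfl
  intro n _
  rw [add_comm L n]

/-- Difference of partial sums. -/
theorem part_diff {κ : ℝ} {x : (n : ℕ) → Fin (sz n) → ℝ} (h : Good κ x) {L K : ℕ} (hL : 1 ≤ L)
    (hLK : L ≤ K) {u : ℝ} (hu : 0 < u) :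
    ‖part x K u - part x L u‖ ≤
      ‖∑ n ∈ Ico L K, Complex.exp ((2 * Real.pi * n * u : ℝ) * Complex.I) / n * (ff (x n) u - mu u)‖ +
        1 / (u * L) + rem x L := by
  have hpi := Real.pi_gt_three
  have e1 : part x K u - part x L u =
      ∑ n ∈ Ico L K, ∑ j, coef x n j * Complex.exp ((u * ord x n j : ℝ) * Complex.I) := by
    unfold part
    rw [← sum_range_add_sum_Ico _ hLK]
    ring
  set W := ∑ n ∈ Ico L K, Complex.exp ((2 * Real.pi * n * u : ℝ) * Complex.I) / n * (ff (x n) u - mu u)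
    with hW
  set V := ∑ n ∈ Ico L K, Complex.exp ((2 * Real.pi * n * u : ℝ) * Complex.I) / n * mu u with hV
  have e2 : ∑ n ∈ Ico L K, ∑ j, coef x n j * Complex.exp ((u * ord x n j : ℝ) * Complex.I) =
      (W + V) / (2 * Real.pi * Complex.I) +
      ∑ n ∈ Ico L K, (∑ j, coef x n j * Complex.exp ((u * ord x n j : ℝ) * Complex.I) -
      Complex.exp ((2 * Real.pi * n * u : ℝ) * Complex.I) / n * ff (x n) u /
        (2 * Real.pi * Complex.I)) := by
    rw [sum_sub_distrib, hW, hV, ← sum_add_distrib, sum_div]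
    have : ∀ n ∈ Ico L K, (Complex.exp ((2 * Real.pi * n * u : ℝ) * Complex.I) / n * (ff (x n) u - mu u) +
        Complex.exp ((2 * Real.pi * n * u : ℝ) * Complex.I) / n * mu u) / (2 * Real.pi * Complex.I) =
        Complex.exp ((2 * Real.pi * n * u : ℝ) * Complex.I) / n * ff (x n) u /
        (2 * Real.pi * Complex.I) := fun n _ => by ring
    rw [sum_congr rfl this]
    ring
  rw [e1, e2]
  have h3 : ‖(2 * Real.pi * Complex.I : ℂ)‖ = 2 * Real.pi := by
    have : (2 * Real.pi * Complex.I : ℂ) = ((2 * Real.pi : ℝ) : ℂ) * Complex.I := by push_cast; ring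
    rw [this, norm_mul, Complex.norm_I, mul_one, Complex.norm_real, Real.norm_of_nonneg (by positivity)]
  have h4 : ‖(W + V) / (2 * Real.pi * Complex.I)‖ ≤ ‖W‖ + 1 / (u * L) := by
    rw [norm_div, h3, div_le_iff₀ (by positivity)]
    have h5 := norm_add_le W V
    have h6 : ‖V‖ ≤ 1 / (u * L) := mu_sum_le hu hL K
    have h7 : 0 ≤ ‖W‖ + 1 / (u * L) := by positivity
    calc ‖W + V‖ ≤ ‖W‖ + 1 / (u * L) := by linarith
      _ ≤ (‖W‖ + 1 / (u * L)) * (2 * Real.pi) := le_mul_of_one_le_right h7 (by linarith)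
  refine (norm_add_le _ _).trans (add_le_add h4 ?_)
  refine (norm_sum_le _ _).trans (le_trans (sum_le_sum fun n hn => ?_) (sum_le_rem h L K))
  exact block_close h (by have := (mem_Ico.mp hn).1; omega) u

end Pool.Agent.Helper66.RMT
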