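import Pool.Agent.Helper66.RMT.Defs
import Pool.Agent.Helper51.DO.L2

/-!
# Random matrix model: Kronecker's theorem with a bound

Block C1. The mean value of a product of Fejer kernels over an interval.
-/

set_option autoImplicit false

namespace Pool.Agent.Helper66.RMT

open MeasureTheory Filter Finset Pool.Agent.Helper51.DO

/-- The integral of `e^{isu}` over an interval. -/
theorem osc_int {s : ℝ} (hs : s ≠ 0) (U V : ℝ) :
    ‖∫ u in U..V, Complex.exp ((u * s : ℝ) * Complex.I)‖ ≤ 2 / |s| := by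
  have hc : ((s : ℂ) * Complex.I) ≠ 0 := by
    simp [hs]
  have h1 : ∫ u in U..V, Complex.exp ((u * s : ℝ) * Complex.I) =
      (Complex.exp ((s : ℂ) * Complex.I * V) - Complex.exp ((s : ℂ) * Complex.I * U)) /
        ((s : ℂ) * Complex.I) := by
    rw [← integral_exp_mul_complex hc]
    apply intervalIntegral.integral_congr
    intro u _
    simp only
    congr 1
    push_cast
    ring
  rw [h1, norm_div, norm_mul, Complex.norm_I, mul_one, Complex.norm_real, Real.norm_eq_abs]
  apply div_le_div_of_nonneg_right _ (abs_nonneg s)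
  have e : ∀ x : ℝ, ‖Complex.exp ((s : ℂ) * Complex.I * x)‖ = 1 := by
    intro x
    have : (s : ℂ) * Complex.I * x = ((s * x : ℝ) : ℂ) * Complex.I := by push_cast; ring
    rw [this, Complex.norm_exp_ofReal_mul_I]
  calc _ ≤ ‖Complex.exp ((s : ℂ) * Complex.I * V)‖ + ‖Complex.exp ((s : ℂ) * Complex.I * U)‖ :=
        norm_sub_le _ _
    _ = 2 := by rw [e, e]; norm_num

/-- Mean value of a product of trigonometric polynomials. -/
theorem mean_prod {ι : Type*} [Fintype ι] [DecidableEq ι] (γ α : ι → ℝ) (E : ℕ) (δ L U S : ℝ)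
    (hδ : 0 < δ) (hL : 0 ≤ L) (hS : 0 ≤ S)
    (hγ : ∀ m : ι → ℤ, (∀ i, |m i| ≤ E) → m ≠ 0 → δ ≤ |∑ i, (m i : ℝ) * γ i|)
    (f : ι → ℝ → ℝ) (t : ι → ℝ) (hf : ∀ i, TP (f i) E S (t i)) :
    |(∫ u in U..(U + L), ∏ i, f i (u * γ i + α i)) - L * ∏ i, t i| ≤
      2 / δ * S ^ Fintype.card ι := by
  choose p hp hpS hp0 using hf
  set A : Finset (ι → ℤ) := Fintype.piFinset fun _ : ι => Icc (-(E : ℤ)) E with hA
  have h1 : ∀ u : ℝ, ((∏ i, f i (u * γ i + α i) : ℝ) : ℂ) =
      ∑ m ∈ A, (∏ i, (p i (m i) * Complex.exp (((m i : ℝ) * α i : ℝ) * Complex.I))) *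
        Complex.exp ((u * ∑ i, (m i : ℝ) * γ i : ℝ) * Complex.I) := by
    intro u
    push_cast
    simp_rw [hp]
    rw [Finset.prod_univ_sum]
    apply sum_congr rfl
    intro m _
    have e1 : Complex.exp ((u : ℂ) * (∑ i, (m i : ℂ) * (γ i : ℂ)) * Complex.I) =
        ∏ i, Complex.exp ((m i : ℂ) * (u * γ i) * Complex.I) := by
      rw [← Complex.exp_sum]
      congr 1
      rw [mul_sum, sum_mul]
      apply sum_congr rfl
      intro i _
      ring
    rw [e1, ← prod_mul_distrib]
    apply prod_congr rfl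
    intro i _
    rw [mul_assoc, ← Complex.exp_add]
    congr 2
    push_cast
    ring
  have h2 : (((∫ u in U..(U + L), ∏ i, f i (u * γ i + α i)) : ℝ) : ℂ) =
      ∑ m ∈ A, (∏ i, (p i (m i) * Complex.exp (((m i : ℝ) * α i : ℝ) * Complex.I))) *
        ∫ u in U..(U + L), Complex.exp ((u * ∑ i, (m i : ℝ) * γ i : ℝ) * Complex.I) := by
    rw [← intervalIntegral.integral_ofReal]
    simp_rw [h1]
    rw [intervalIntegral.integral_finsetSum]
    · apply sum_congr rfl
      intro m _
      rw [intervalIntegral.integral_const_mul]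
    · intro m _
      apply Continuous.intervalIntegrable
      fun_prop
  have h0 : (0 : ι → ℤ) ∈ A := by
    rw [hA, Fintype.mem_piFinset]
    intro i
    simp
  have h3 : (∏ i, (p i ((0 : ι → ℤ) i) *
      Complex.exp ((((0 : ι → ℤ) i : ℝ) * α i : ℝ) * Complex.I))) *
        ∫ u in U..(U + L), Complex.exp ((u * ∑ i, (((0 : ι → ℤ) i : ℤ) : ℝ) * γ i : ℝ) * Complex.I) =
      ((L * ∏ i, t i : ℝ) : ℂ) := by
    simp [hp0]
    ring
  have h4 : ((((∫ u in U..(U + L), ∏ i, f i (u * γ i + α i)) - L * ∏ i, t i) : ℝ) : ℂ) =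
      ∑ m ∈ A.erase 0, (∏ i, (p i (m i) * Complex.exp (((m i : ℝ) * α i : ℝ) * Complex.I))) *
        ∫ u in U..(U + L), Complex.exp ((u * ∑ i, (m i : ℝ) * γ i : ℝ) * Complex.I) := by
    rw [Complex.ofReal_sub, h2, ← add_sum_erase A _ h0, h3]
    ring
  rw [← Real.norm_eq_abs, ← Complex.norm_real, h4]
  calc _ ≤ ∑ m ∈ A.erase 0, ‖(∏ i, (p i (m i) * Complex.exp (((m i : ℝ) * α i : ℝ) * Complex.I))) *
        ∫ u in U..(U + L), Complex.exp ((u * ∑ i, (m i : ℝ) * γ i : ℝ) * Complex.I)‖ :=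
        norm_sum_le _ _
    _ ≤ ∑ m ∈ A.erase 0, (∏ i, ‖p i (m i)‖) * (2 / δ) := by
        apply sum_le_sum
        intro m hm
        rw [mem_erase] at hm
        have hmE : ∀ i, |m i| ≤ E := by
          intro i
          have := (Fintype.mem_piFinset.mp hm.2) i
          exact abs_le.mpr (mem_Icc.mp this)
        have hd := hγ m hmE hm.1
        rw [norm_mul, norm_prod]
        have e1 : ∏ i, ‖p i (m i) * Complex.exp (((m i : ℝ) * α i : ℝ) * Complex.I)‖ =
            ∏ i, ‖p i (m i)‖ := by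
          apply prod_congr rfl
          intro i _
          rw [norm_mul, Complex.norm_exp_ofReal_mul_I, mul_one]
        rw [e1]
        apply mul_le_mul_of_nonneg_left _ (prod_nonneg fun _ _ => norm_nonneg _)
        have hne : (∑ i, (m i : ℝ) * γ i) ≠ 0 := by
          intro h
          rw [h, abs_zero] at hd
          linarith
        calc _ ≤ 2 / |∑ i, (m i : ℝ) * γ i| := osc_int hne _ _
          _ ≤ 2 / δ := by gcongr
    _ ≤ ∑ m ∈ A, (∏ i, ‖p i (m i)‖) * (2 / δ) := by
        apply sum_le_sum_of_subset_of_nonneg (erase_subset _ _)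
        intro m _ _
        have : 0 ≤ ∏ i, ‖p i (m i)‖ := prod_nonneg fun _ _ => norm_nonneg _
        positivity
    _ = (∏ i, ∑ m ∈ Icc (-(E : ℤ)) E, ‖p i m‖) * (2 / δ) := by
        rw [Finset.prod_univ_sum, sum_mul]
    _ ≤ (∏ _i : ι, S) * (2 / δ) := by
        apply mul_le_mul_of_nonneg_right _ (by positivity)
        apply Finset.prod_le_prod
        · intro i _
          exact sum_nonneg fun _ _ => norm_nonneg _
        · intro i _
          exact hpS i
    _ = 2 / δ * S ^ Fintype.card ι := by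
        rw [prod_const, card_univ]
        ring

/-- C1. Kronecker's theorem with a bound. -/
theorem kron {ι : Type*} [Fintype ι] [DecidableEq ι] (γ : ι → ℝ) (c : ι → ℂ) (D : ℕ) (δ L U : ℝ)
    (hδ : 0 < δ) (hL : 0 < L)
    (hγ : ∀ m : ι → ℤ, (∀ i, |m i| ≤ D + 1) → m ≠ 0 → δ ≤ |∑ i, (m i : ℝ) * γ i|)
    (hLD : (4 * (D + 1)) ^ (Fintype.card ι + 2) * (D + 1) ≤ L * δ) :
    ∃ u : ℝ, U ≤ u ∧ u ≤ U + L ∧
      (1 - 2 / (D + 1 : ℝ)) * ∑ i, ‖c i‖ ≤ ∑ i, (c i * Complex.exp ((u * γ i : ℝ) * Complex.I)).re := by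
  have hD : (0 : ℝ) < (D : ℝ) + 1 := by positivity
  set C := ∑ i, ‖c i‖ with hC
  have hC0 : 0 ≤ C := sum_nonneg fun _ _ => norm_nonneg _
  rcases hC0.eq_or_lt with h0 | hCpos
  · refine ⟨U, le_rfl, by linarith, ?_⟩
    have hz : ∀ i, c i = 0 := by
      intro i
      have := (sum_eq_zero_iff_of_nonneg (fun i _ => norm_nonneg (c i))).mp h0.symm i (mem_univ i)
      exact norm_eq_zero.mp this
    rw [← h0]
    simp [hz]
  set c0 : ℝ := 1 - 2 / (D + 1 : ℝ) with hc0
  have hc0' : |c0| ≤ 1 := by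
    rw [abs_le, hc0]
    have h1 : 2 / (D + 1 : ℝ) ≤ 2 := by
      rw [div_le_iff₀ hD]
      have : (0 : ℝ) ≤ D := Nat.cast_nonneg D
      linarith
    have h2 : 0 ≤ 2 / (D + 1 : ℝ) := by positivity
    constructor <;> linarith
  set ph : ι → ℝ := fun i => (c i).arg with hph
  -- the kernel
  let h : ι → ι → ℝ → ℝ := fun i k => if k = i then qf D c0 else fej D
  have hTP : ∀ i k, TP (h i k) (D + 1) (2 * (D + 1)) (if k = i then (D : ℝ) / (D + 1) - c0 else 1) := by
    intro i k
    by_cases hk : k = i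
    · simp only [h, hk, if_true]
      exact qf_TP D c0 hc0'
    · simp only [h, hk, if_false]
      exact fej_TP D
  have hcont : ∀ i k, Continuous (h i k) := fun i k => (hTP i k).continuous
  have hmean : ∀ i, L / (D + 1) - 2 / δ * (2 * (D + 1)) ^ Fintype.card ι ≤
      ∫ u in U..(U + L), ∏ k, h i k (u * γ k + ph k) := by
    intro i
    have h1 := mean_prod γ ph (D + 1) δ L U (2 * (D + 1)) hδ hL.le (by positivity)
      (by simpa using hγ) (h i) _ (hTP i)
    have h2 : ∏ k, (if k = i then (D : ℝ) / (D + 1) - c0 else 1) = 1 / (D + 1) := by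
      rw [Finset.prod_ite_eq' univ i]
      rw [if_pos (mem_univ i), hc0]
      field_simp
      ring
    rw [h2] at h1
    have h3 := (abs_le.mp h1).1
    have h4 : L / (D + 1) = L * (1 / (D + 1)) := by ring
    rw [h4]
    linarith
  have hG : 0 < ∫ u in U..(U + L), ∑ i, ‖c i‖ * ∏ k, h i k (u * γ k + ph k) := by
    rw [intervalIntegral.integral_finsetSum]
    · have h1 : ∀ i, ∫ u in U..(U + L), ‖c i‖ * ∏ k, h i k (u * γ k + ph k) =
          ‖c i‖ * ∫ u in U..(U + L), ∏ k, h i k (u * γ k + ph k) := fun i =>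
        intervalIntegral.integral_const_mul _ _
      simp_rw [h1]
      have h2 : 0 < L / (D + 1) - 2 / δ * (2 * (D + 1)) ^ Fintype.card ι := by
        have h3 : 2 / δ * (2 * (D + 1)) ^ Fintype.card ι < L / (D + 1) := by
          rw [div_mul_eq_mul_div, div_lt_div_iff₀ hδ hD]
          have e1 : (2 * ((D : ℝ) + 1)) ^ Fintype.card ι ≤ (4 * ((D : ℝ) + 1)) ^ Fintype.card ι := by
            gcongr
            norm_num
          have e2 : (0 : ℝ) < (4 * ((D : ℝ) + 1)) ^ Fintype.card ι := by positivity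
          have e3 : (4 * ((D : ℝ) + 1)) ^ (Fintype.card ι + 2) * (D + 1) =
              (4 * ((D : ℝ) + 1)) ^ Fintype.card ι * (16 * ((D : ℝ) + 1) ^ 3) := by ring
          rw [e3] at hLD
          have e4 : (1 : ℝ) ≤ ((D : ℝ) + 1) ^ 2 := by
            have : (0 : ℝ) ≤ D := Nat.cast_nonneg D
            nlinarith
          calc 2 * (2 * ((D : ℝ) + 1)) ^ Fintype.card ι * (D + 1)
              ≤ 2 * (4 * ((D : ℝ) + 1)) ^ Fintype.card ι * (D + 1) := by gcongr
            _ < (4 * ((D : ℝ) + 1)) ^ Fintype.card ι * (16 * ((D : ℝ) + 1) ^ 3) := by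
                have e5 : 2 * ((D : ℝ) + 1) < 16 * ((D : ℝ) + 1) ^ 3 := by
                  have : ((D : ℝ) + 1) ^ 3 = ((D : ℝ) + 1) * ((D : ℝ) + 1) ^ 2 := by ring
                  rw [this]
                  nlinarith
                calc _ = (4 * ((D : ℝ) + 1)) ^ Fintype.card ι * (2 * ((D : ℝ) + 1)) := by ring
                  _ < _ := by
                      apply mul_lt_mul_of_pos_left e5 e2
            _ ≤ L * δ := hLD
        linarith
      calc 0 < C * (L / (D + 1) - 2 / δ * (2 * (D + 1)) ^ Fintype.card ι) := mul_pos hCpos h2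
        _ = ∑ i, ‖c i‖ * (L / (D + 1) - 2 / δ * (2 * (D + 1)) ^ Fintype.card ι) := by
            rw [hC, sum_mul]
        _ ≤ _ := sum_le_sum fun i _ => mul_le_mul_of_nonneg_left (hmean i) (norm_nonneg _)
    · intro i _
      apply Continuous.intervalIntegrable
      have := hcont i
      fun_prop
  -- a point where the integrand is positive
  obtain ⟨u, hu, hpos⟩ : ∃ u ∈ Set.Icc U (U + L), 0 < ∑ i, ‖c i‖ * ∏ k, h i k (u * γ k + ph k) := by
    by_contra hcon
    push Not at hcon
    have : ∫ u in U..(U + L), ∑ i, ‖c i‖ * ∏ k, h i k (u * γ k + ph k) ≤ 0 := by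
      rw [intervalIntegral.integral_of_le (by linarith)]
      apply setIntegral_nonpos measurableSet_Ioc
      intro u hu
      exact hcon u (Set.Ioc_subset_Icc_self hu)
    linarith
  refine ⟨u, hu.1, hu.2, ?_⟩
  set F := ∏ k, fej D (u * γ k + ph k) with hF
  have hF0 : 0 ≤ F := prod_nonneg fun _ _ => fej_nonneg D _
  have hprod : ∀ i, ∏ k, h i k (u * γ k + ph k) = F * (Real.cos (u * γ i + ph i) - c0) := by
    intro i
    have e1 : ∀ k, h i k (u * γ k + ph k) = fej D (u * γ k + ph k) *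
        (if k = i then Real.cos (u * γ i + ph i) - c0 else 1) := by
      intro k
      by_cases hk : k = i
      · subst hk
        simp [h, qf]
      · simp [h, hk]
    rw [prod_congr rfl fun k _ => e1 k, prod_mul_distrib, Finset.prod_ite_eq' univ i,
      if_pos (mem_univ i)]
  simp_rw [hprod] at hpos
  have e2 : ∑ i, ‖c i‖ * (F * (Real.cos (u * γ i + ph i) - c0)) =
      F * (∑ i, ‖c i‖ * Real.cos (u * γ i + ph i) - c0 * C) := by
    rw [hC, mul_sum univ _ c0, ← sum_sub_distrib, mul_sum]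
    apply sum_congr rfl
    intro i _
    ring
  rw [e2] at hpos
  have e3 : 0 < ∑ i, ‖c i‖ * Real.cos (u * γ i + ph i) - c0 * C := by
    by_contra hcon
    push Not at hcon
    have := mul_nonpos_of_nonneg_of_nonpos hF0 hcon
    linarith
  have e4 : ∀ i, (c i * Complex.exp ((u * γ i : ℝ) * Complex.I)).re =
      ‖c i‖ * Real.cos (u * γ i + ph i) := by
    intro i
    have h1 : c i = ‖c i‖ * Complex.exp ((c i).arg * Complex.I) := (Complex.norm_mul_exp_arg_mul_I _).symm
    have h2 : c i * Complex.exp ((u * γ i : ℝ) * Complex.I) =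
        (‖c i‖ : ℂ) * Complex.exp (((u * γ i + ph i : ℝ) : ℂ) * Complex.I) := by
      conv_lhs => rw [h1]
      rw [mul_assoc, ← Complex.exp_add, hph]
      congr 2
      push_cast
      ring
    rw [h2, Complex.re_ofReal_mul, Complex.exp_ofReal_mul_I_re]
  rw [sum_congr rfl fun i _ => e4 i]
  linarith

end Pool.Agent.Helper66.RMT
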