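import Pool.Agent.Helper66.RMT.Asm
import Pool.Agent.Helper66.RMT.Kron

/-!
# Random matrix model: deterministic assembly, second part

The limit of the partial sums and its distance from the partial sums.
-/

set_option autoImplicit false

namespace Pool.Agent.Helper66.RMT

open Filter Finset Topology

variable {κ : ℝ} {x : (n : ℕ) → Fin (sz n) → ℝ}

/-- The bound for the fluctuations. -/
noncomputable def tau (ε : ℝ) (k : ℕ) : ℝ := ((2 : ℝ) ^ (-(ε / 8))) ^ k / (1 - (2 : ℝ) ^ (-(ε / 8)))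

theorem r_pos (ε : ℝ) : 0 < (2 : ℝ) ^ (-(ε / 8)) := Real.rpow_pos_of_pos (by norm_num) _

theorem r_lt {ε : ℝ} (hε : 0 < ε) : (2 : ℝ) ^ (-(ε / 8)) < 1 :=
  Real.rpow_lt_one_of_one_lt_of_neg (by norm_num) (by linarith)

theorem tau_tendsto {ε : ℝ} (hε : 0 < ε) : Tendsto (tau ε) atTop (𝓝 0) := by
  have h := (tendsto_pow_atTop_nhds_zero_of_lt_one (r_pos ε).le (r_lt hε)).div_const
    (1 - (2 : ℝ) ^ (-(ε / 8)))
  rw [zero_div] at h
  exact h

theorem tau_nonneg {ε : ℝ} (hε : 0 < ε) (k : ℕ) : 0 ≤ tau ε k := by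
  unfold tau
  have h1 := r_pos ε
  have h2 := r_lt hε
  apply div_nonneg (by positivity)
  linarith

/-- The fluctuations of a whole tail. -/
theorem fluct_le (h : Good κ x) {ε : ℝ} (hε : 0 < ε) (hεm : ∃ m : ℕ, ε = 1 / ((m : ℝ) + 2)) : ∃ k₀ : ℕ, ∀ k ≥ k₀, ∀ K : ℕ,
    ∀ u : ℝ, (2 : ℝ) ^ (-(k : ℝ)) ≤ u → u ≤ Real.exp ((2 : ℝ) ^ ((k : ℝ) * (1 - ε))) →
      ‖∑ n ∈ Ico (2 ^ k) K, Complex.exp ((2 * Real.pi * n * u : ℝ) * Complex.I) / n *
        (ff (x n) u - mu u)‖ ≤ tau ε k := by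
  have hε1 : ε < 1 := by
    obtain ⟨m, rfl⟩ := hεm
    rw [div_lt_one (by positivity)]
    linarith [(Nat.cast_nonneg m : (0 : ℝ) ≤ m)]
  obtain ⟨k₀, hk₀⟩ := h.tail ε hεm
  refine ⟨k₀, fun k hk K u hu1 hu2 => ?_⟩
  set r := (2 : ℝ) ^ (-(ε / 8)) with hr
  have hr0 : 0 < r := r_pos ε
  have hr1 : r < 1 := r_lt hε
  set g : ℕ → ℂ := fun n => Complex.exp ((2 * Real.pi * n * u : ℝ) * Complex.I) / n *
        (ff (x n) u - mu u) with hg
  have hblock : ∀ i K, K ≤ 2 ^ (k + i + 1) → ‖∑ n ∈ Ico (2 ^ (k + i)) K, g n‖ ≤ r ^ (k + i) := by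
    intro i K hK
    have h1 : (2 : ℝ) ^ (-((k + i : ℕ) : ℝ)) ≤ u := by
      refine le_trans ?_ hu1
      apply Real.rpow_le_rpow_of_exponent_le (by norm_num)
      push_cast
      linarith [(Nat.cast_nonneg i : (0 : ℝ) ≤ i)]
    have h2 : u ≤ Real.exp ((2 : ℝ) ^ (((k + i : ℕ) : ℝ) * (1 - ε))) := by
      refine hu2.trans (Real.exp_le_exp.mpr ?_)
      apply Real.rpow_le_rpow_of_exponent_le (by norm_num)
      push_cast
      nlinarith [(Nat.cast_nonneg i : (0 : ℝ) ≤ i)]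
    have h3 := hk₀ (k + i) (by omega) K hK u h1 h2
    refine h3.trans (le_of_eq ?_)
    rw [hr, ← Real.rpow_natCast, ← Real.rpow_mul (by norm_num)]
    congr 1
    ring
  have key : ∀ i K, K ≤ 2 ^ (k + i) → ‖∑ n ∈ Ico (2 ^ k) K, g n‖ ≤ ∑ j ∈ range i, r ^ (k + j) := by
    intro i
    induction i with
    | zero =>
      intro K hK
      rw [Ico_eq_empty_of_le (by simpa using hK)]
      simp
    | succ i ih =>
      intro K hK
      rw [sum_range_succ]
      rcases Nat.le_total K (2 ^ (k + i)) with h1 | h1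
      · have := ih K h1
        have h2 : 0 ≤ r ^ (k + i) := by positivity
        linarith
      · have h2 : 2 ^ k ≤ 2 ^ (k + i) := Nat.pow_le_pow_right (by norm_num) (by omega)
        rw [← sum_Ico_consecutive _ h2 h1]
        refine (norm_add_le _ _).trans (add_le_add (ih _ le_rfl) ?_)
        exact hblock i K (by rw [add_assoc]; exact hK)
  have hK : K ≤ 2 ^ (k + K) := by
    calc K ≤ 2 ^ K := Nat.lt_two_pow_self.le
      _ ≤ 2 ^ (k + K) := Nat.pow_le_pow_right (by norm_num) (by omega)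
  refine (key K K hK).trans ?_
  unfold tau
  rw [← hr]
  have e : ∑ j ∈ range K, r ^ (k + j) = r ^ k * ∑ j ∈ range K, r ^ j := by
    rw [mul_sum]
    exact sum_congr rfl fun j _ => pow_add _ _ _
  rw [e, div_eq_mul_inv]
  apply mul_le_mul_of_nonneg_left _ (by positivity)
  have := (summable_geometric_of_lt_one hr0.le hr1).sum_le_tsum (range K) fun j _ => by positivity
  rwa [tsum_geometric_of_lt_one hr0.le hr1] at this

/-- The total error of the partial sum to `2^k`. -/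
noncomputable def eta (x : (n : ℕ) → Fin (sz n) → ℝ) (ε : ℝ) (k : ℕ) : ℝ :=
  tau ε k + 1 / (2 : ℝ) ^ k + rem x (2 ^ k)

theorem pow_tendsto : Tendsto (fun k : ℕ => (2 : ℕ) ^ k) atTop atTop :=
  tendsto_pow_atTop_atTop_of_one_lt (by norm_num)

theorem eta_tendsto (h : Good κ x) {ε : ℝ} (hε : 0 < ε) : Tendsto (eta x ε) atTop (𝓝 0) := by
  have h1 : Tendsto (fun k : ℕ => 1 / (2 : ℝ) ^ k) atTop (𝓝 0) := by
    have := tendsto_pow_atTop_nhds_zero_of_lt_one (r := (1 / 2 : ℝ)) (by norm_num) (by norm_num)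
    refine this.congr fun k => ?_
    rw [div_pow, one_pow]
  have h2 := ((tau_tendsto hε).add h1).add ((rem_tendsto h).comp pow_tendsto)
  rw [add_zero, add_zero] at h2
  exact h2

/-- The partial sums converge. -/
theorem part_cauchy (h : Good κ x) {u : ℝ} (hu : 0 < u) : CauchySeq fun K => part x K u := by
  obtain ⟨k₀, hk₀⟩ := fluct_le h (ε := 1 / 2) (by norm_num) ⟨0, by norm_num⟩
  rw [Metric.cauchySeq_iff']
  intro e he
  have h1 : Tendsto (fun k : ℕ => tau (1 / 2) k + 1 / (u * ((2 ^ k : ℕ) : ℝ)) + rem x (2 ^ k)) atTop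
      (𝓝 (0 + 0 + 0)) := by
    apply Tendsto.add
    · apply Tendsto.add (tau_tendsto (by norm_num))
      have h2 : Tendsto (fun k : ℕ => u * ((2 ^ k : ℕ) : ℝ)) atTop atTop :=
        (tendsto_natCast_atTop_atTop.comp pow_tendsto).const_mul_atTop hu
      exact h2.const_div_atTop 1
    · exact (rem_tendsto h).comp pow_tendsto
  have h2 : Tendsto (fun k : ℕ => (2 : ℝ) ^ (-(k : ℝ))) atTop (𝓝 0) := by
    have := tendsto_pow_atTop_nhds_zero_of_lt_one (r := (1 / 2 : ℝ)) (by norm_num) (by norm_num)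
    refine this.congr fun k => ?_
    rw [Real.rpow_neg (by norm_num), Real.rpow_natCast, div_pow, one_pow, one_div]
  have h3 : Tendsto (fun k : ℕ => Real.exp ((2 : ℝ) ^ ((k : ℝ) * (1 - 1 / 2)))) atTop atTop := by
    apply Real.tendsto_exp_atTop.comp
    apply (tendsto_rpow_atTop_of_base_gt_one 2 (by norm_num)).comp
    exact tendsto_natCast_atTop_atTop.atTop_mul_const (by norm_num)
  norm_num at h1
  obtain ⟨k, hk, hk1, hk2, hk3⟩ := ((eventually_ge_atTop k₀).and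
    ((h1.eventually_lt_const he).and ((h2.eventually_le_const hu).and (h3.eventually_ge_atTop u)))).exists
  refine ⟨2 ^ k, fun K hK => ?_⟩
  rw [dist_eq_norm]
  refine (part_diff h (Nat.one_le_two_pow) hK hu).trans_lt ?_
  refine lt_of_le_of_lt ?_ hk1
  have h4 := hk₀ k hk K u hk2 hk3
  have e : u * ((2 : ℝ) ^ k) = u * ((2 ^ k : ℕ) : ℝ) := by push_cast; ring
  rw [show (u * ((2 ^ k : ℕ) : ℝ)) = u * (2 : ℝ) ^ k by push_cast; ring]
  simp only [one_div, mul_inv_rev] at *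
  linarith

/-- Distance of the limit from a partial sum. -/
theorem lim_close (h : Good κ x) {ε : ℝ} (hε : 0 < ε) (hεm : ∃ m : ℕ, ε = 1 / ((m : ℝ) + 2)) : ∃ k₀ : ℕ, ∀ k ≥ k₀, ∀ u : ℝ,
    1 ≤ u → u ≤ Real.exp ((2 : ℝ) ^ ((k : ℝ) * (1 - ε))) → ∀ z : ℂ,
      Tendsto (fun K => part x K u) atTop (𝓝 z) → ‖z - part x (2 ^ k) u‖ ≤ eta x ε k := by
  obtain ⟨k₀, hk₀⟩ := fluct_le h hε hεm
  refine ⟨k₀, fun k hk u hu1 hu2 z hz => ?_⟩
  have h1 : Tendsto (fun K => ‖part x K u - part x (2 ^ k) u‖) atTop (𝓝 ‖z - part x (2 ^ k) u‖) :=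
    (hz.sub_const _).norm
  refine le_of_tendsto h1 ?_
  filter_upwards [eventually_ge_atTop (2 ^ k)] with K hK
  refine (part_diff h (Nat.one_le_two_pow) hK (by linarith)).trans ?_
  unfold eta
  have h2 : (2 : ℝ) ^ (-(k : ℝ)) ≤ u := by
    refine le_trans ?_ hu1
    apply Real.rpow_le_one_of_one_le_of_nonpos (by norm_num)
    linarith [(Nat.cast_nonneg k : (0 : ℝ) ≤ k)]
  have h3 := hk₀ k hk K u h2 hu2
  have h4 : 1 / (u * ((2 ^ k : ℕ) : ℝ)) ≤ 1 / (2 : ℝ) ^ k := by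
    push_cast
    apply one_div_le_one_div_of_le (by positivity)
    exact le_mul_of_one_le_left (by positivity) hu1
  linarith

end Pool.Agent.Helper66.RMT
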