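import Pool.Agent.Helper66.RMT.Asm3

/-!
# Random matrix model: deterministic assembly, fourth part

The lower half.
-/

set_option autoImplicit false

namespace Pool.Agent.Helper66.RMT

open Filter Finset Topology

variable {κ : ℝ} {x : (n : ℕ) → Fin (sz n) → ℝ}

/-- The partial sum over the index set of Kronecker's theorem. -/
theorem part_idx (k : ℕ) (u : ℝ) : part x (2 ^ k) u =
    ∑ p : Idx k, coef x p.1 p.2 * Complex.exp ((u * ord x p.1 p.2 : ℝ) * Complex.I) := by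
  unfold part
  rw [Fintype.sum_sigma, Finset.sum_range]

theorem C_idx (k : ℕ) : C x (2 ^ k) = ∑ p : Idx k, ‖coef x p.1 p.2‖ := by
  unfold C
  rw [Fintype.sum_sigma, Finset.sum_range]

/-- The size condition of Kronecker's theorem. -/
theorem size_cond {ε : ℝ} (hε : 0 < ε) (D : ℕ) : ∀ᶠ k : ℕ in atTop,
    (4 * ((D : ℝ) + 1)) ^ (Fintype.card (Idx k) + 2) * (D + 1) ≤
      Real.exp ((2 : ℝ) ^ ((k : ℝ) * (1 + 2 * ε))) * Real.exp (-(2 : ℝ) ^ ((k : ℝ) * (1 + ε))) := by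
  -- 2^{kε} dominates
  have hb : (1 : ℝ) < (2 : ℝ) ^ ε := Real.one_lt_rpow (by norm_num) hε
  have h1 : Tendsto (fun k : ℕ => (k : ℝ) / ((2 : ℝ) ^ ε) ^ k) atTop (𝓝 0) := by
    have := tendsto_pow_const_div_const_pow_of_one_lt 1 hb
    simpa using this
  set A : ℝ := 4 * ((D : ℝ) + 1) with hA
  have hD : (0 : ℝ) ≤ D := Nat.cast_nonneg D
  have hA1 : 1 ≤ A := by rw [hA]; linarith
  have h2 : Tendsto (fun k : ℕ => ((2 : ℝ) ^ ε) ^ k) atTop atTop := tendsto_pow_atTop_atTop_of_one_lt hb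
  filter_upwards [h1.eventually_le_const (show (0 : ℝ) < 1 / (4 * A) by positivity),
    h2.eventually_ge_atTop 2, eventually_ge_atTop 1] with k hk hk2 hk1
  have hk1' : (1 : ℝ) ≤ k := by exact_mod_cast hk1
  set w := ((2 : ℝ) ^ ε) ^ k with hw
  have hwpos : 0 < w := by positivity
  have e1 : (2 : ℝ) ^ ((k : ℝ) * (1 + ε)) = (2 : ℝ) ^ k * w := by
    rw [hw, ← Real.rpow_natCast 2 k, ← Real.rpow_natCast ((2 : ℝ) ^ ε) k, ← Real.rpow_mul (by norm_num),
      ← Real.rpow_add (by norm_num)]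
    congr 1
    ring
  have e2 : (2 : ℝ) ^ ((k : ℝ) * (1 + 2 * ε)) = (2 : ℝ) ^ k * w * w := by
    rw [← e1, hw, ← Real.rpow_natCast ((2 : ℝ) ^ ε) k, ← Real.rpow_mul (by norm_num),
      ← Real.rpow_add (by norm_num)]
    congr 1
    ring
  rw [← Real.exp_add, e1, e2]
  rw [div_le_iff₀ hwpos] at hk
  have h3 : A ≤ Real.exp A := by linarith [Real.add_one_le_exp A]
  have hcard : ((Fintype.card (Idx k) + 2 : ℕ) : ℝ) ≤ k * 2 ^ k + 2 := by
    have := card_idx k
    exact_mod_cast Nat.add_le_add_right this 2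
  have h2k : (1 : ℝ) ≤ (2 : ℝ) ^ k := one_le_pow₀ (by norm_num)
  calc A ^ (Fintype.card (Idx k) + 2) * (D + 1)
      ≤ (Real.exp A) ^ (Fintype.card (Idx k) + 2) * Real.exp A := by
        gcongr
        rw [hA] at h3 ⊢
        linarith
    _ = Real.exp (A * ((Fintype.card (Idx k) + 2 : ℕ) : ℝ) + A) := by
        rw [← Real.exp_nat_mul, ← Real.exp_add]
        congr 1
        ring
    _ ≤ Real.exp (A * (k * 2 ^ k + 2) + A) := by
        apply Real.exp_le_exp.mpr
        gcongr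
    _ ≤ Real.exp ((2 : ℝ) ^ k * w * w + -((2 : ℝ) ^ k * w)) := by
        apply Real.exp_le_exp.mpr
        have h5 : A * k * 4 ≤ w := by
          have h6 : 1 / (4 * A) * w * (4 * A) = w := by field_simp
          have h7 : (k : ℝ) * (4 * A) ≤ 1 / (4 * A) * w * (4 * A) := by gcongr
          rw [h6] at h7
          linarith
        have h6 : A ≤ A * k := le_mul_of_one_le_right (by linarith) hk1'
        have h7 : A * (k * 2 ^ k + 2) + A ≤ (2 : ℝ) ^ k * (4 * (A * k)) := by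
          have h8 : A * (k * 2 ^ k + 2) + A = A * k * 2 ^ k + 3 * A := by ring
          rw [h8]
          have h9 : 3 * A ≤ 3 * (A * k) * 2 ^ k := by
            calc 3 * A ≤ 3 * (A * k) := by linarith
              _ ≤ 3 * (A * k) * 2 ^ k := le_mul_of_one_le_right (by positivity) h2k
          linarith
        have h8 : (2 : ℝ) ^ k * (4 * (A * k)) ≤ (2 : ℝ) ^ k * w := by
          gcongr
          linarith
        have h9 : (2 : ℝ) ^ k * w * w + -((2 : ℝ) ^ k * w) = (2 : ℝ) ^ k * w * (w - 1) := by ring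
        rw [h9]
        have h10 : (2 : ℝ) ^ k * w * 1 ≤ (2 : ℝ) ^ k * w * (w - 1) := by
          gcongr
          linarith
        linarith

/-- The lower half, for one `ε` and one `D`. -/
theorem lower (h : Good κ x) (hκ : 0 ≤ κ) {ε : ℝ} (hε : 0 < ε) (hε1 : ε ≤ 1 / 10)
    (hεm : ∃ m : ℕ, ε = 1 / ((m : ℝ) + 2)) (D : ℕ) (b : ℝ)
    (hb0 : 0 ≤ b)
    (hb : b * (1 + 3 * ε) ^ (5 / 4 : ℝ) <
      4 / 5 * κ * ((1 - 2 / (D + 1 : ℝ)) - ((1 + 5 * ε) ^ (5 / 4 : ℝ) - 1)) / Real.pi)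
    (s : ℂ) (hs : ‖s‖ = 1) :
    ∃ᶠ u : ℝ in atTop, ∀ z : ℂ, Tendsto (fun K => part x K u) atTop (𝓝 z) →
      b * Real.log (Real.log u) ^ (5 / 4 : ℝ) ≤ 2 * (s * z).re := by
  have hl2 : 0 < Real.log 2 := Real.log_pos (by norm_num)
  have hpi := Real.pi_pos
  have hD : (0 : ℝ) < (D : ℝ) + 1 := by positivity
  set k' : ℕ → ℕ := fun k => ⌈(1 + 5 * ε) * k⌉₊ with hk'
  have hkt : Tendsto k' atTop atTop :=
    tendsto_nat_ceil_atTop.comp (tendsto_natCast_atTop_atTop.const_mul_atTop (by positivity))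
  have hk'v : Tendsto (fun k : ℕ => (k' k : ℝ) * Real.log 2 / ((k : ℝ) * Real.log 2)) atTop
      (𝓝 (1 + 5 * ε)) := by
    have h2 := (tendsto_nat_ceil_mul_div_atTop (R := ℝ) (a := 1 + 5 * ε) (by positivity)).comp
      tendsto_natCast_atTop_atTop
    refine h2.congr' ?_
    filter_upwards [eventually_ge_atTop 1] with k hk
    have : (0 : ℝ) < k := by exact_mod_cast hk
    simp only [Function.comp, hk']
    field_simp
  have hv : ∀ᶠ k : ℕ in atTop, 0 < (k : ℝ) * Real.log 2 := by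
    filter_upwards [eventually_ge_atTop 1] with k hk
    have : (0 : ℝ) < k := by exact_mod_cast hk
    positivity
  have hS' := S_resc h (by positivity : (0 : ℝ) < 1 + 5 * ε) k' (fun k : ℕ => (k : ℝ) * Real.log 2) hkt
    hv hk'v
  have hS := S_pow h
  set v : ℕ → ℝ := fun k => ((k : ℝ) * Real.log 2) ^ (5 / 4 : ℝ) with hvdef
  have hvtop : Tendsto v atTop atTop := by
    apply (tendsto_rpow_atTop (by norm_num)).comp
    exact tendsto_natCast_atTop_atTop.atTop_mul_const hl2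
  -- the lower bound
  set Q : ℕ → ℝ := fun k => ((1 - 2 / (D + 1 : ℝ)) * (S x (2 ^ k) - 2 * rem x 0) -
    (S x (2 ^ k' k) - S x (2 ^ k))) / Real.pi - 2 * eta x ε (k' k) with hQ
  have hQlim : Tendsto (fun k => Q k / v k) atTop
      (𝓝 (4 / 5 * κ * ((1 - 2 / (D + 1 : ℝ)) - ((1 + 5 * ε) ^ (5 / 4 : ℝ) - 1)) / Real.pi)) := by
    have h1 : Tendsto (fun k => (2 * rem x 0) / v k) atTop (𝓝 0) := hvtop.const_div_atTop _
    have h2 : Tendsto (fun k => 2 * eta x ε (k' k) / v k) atTop (𝓝 0) := by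
      have h3 := ((eta_tendsto h hε).comp hkt).const_mul 2
      rw [mul_zero] at h3
      exact h3.div_atTop hvtop
    have h3 := ((((hS.sub h1).const_mul (1 - 2 / (D + 1 : ℝ))).sub (hS'.sub hS)).div_const Real.pi).sub h2
    have e : ((1 - 2 / ((D : ℝ) + 1)) * (4 / 5 * κ - 0) -
        (4 / 5 * κ * (1 + 5 * ε) ^ (5 / 4 : ℝ) - 4 / 5 * κ)) / Real.pi - 0 =
        4 / 5 * κ * ((1 - 2 / (D + 1 : ℝ)) - ((1 + 5 * ε) ^ (5 / 4 : ℝ) - 1)) / Real.pi := by ring
    rw [e] at h3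
    refine h3.congr fun k => ?_
    simp only [hQ, hvdef]
    ring
  obtain ⟨k₀, hk₀⟩ := lim_close h hε hεm
  obtain ⟨k₁, hk₁⟩ := h.forms ε hε
  rw [frequently_atTop]
  intro U
  have hLtop : Tendsto (fun k : ℕ => Real.exp ((2 : ℝ) ^ ((k : ℝ) * (1 + 2 * ε)))) atTop atTop := by
    apply Real.tendsto_exp_atTop.comp
    apply (tendsto_rpow_atTop_of_base_gt_one 2 (by norm_num)).comp
    exact tendsto_natCast_atTop_atTop.atTop_mul_const (by linarith)
  have hkε : Tendsto (fun k : ℕ => (k : ℝ) * ε) atTop atTop :=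
    tendsto_natCast_atTop_atTop.atTop_mul_const hε
  obtain ⟨k, hk1, hk2, hk3, hk4, hk5, hk6, hk7, hk8⟩ := ((hQlim.eventually_const_lt hb).and
    ((hkt.eventually_ge_atTop k₀).and ((eventually_ge_atTop k₁).and ((hLtop.eventually_ge_atTop (max U 3)).and
    ((size_cond hε D).and ((hkε.eventually_ge_atTop 2).and ((eventually_ge_atTop (D + 1)).and
    (hvtop.eventually_gt_atTop 0)))))))).exists
  set L := Real.exp ((2 : ℝ) ^ ((k : ℝ) * (1 + 2 * ε))) with hL
  have hLpos : 0 < L := Real.exp_pos _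
  obtain ⟨u, hu1, hu2, hu3⟩ := kron (fun p : Idx k => ord x p.1 p.2)
    (fun p : Idx k => s * coef x p.1 p.2) D (Real.exp (-(2 : ℝ) ^ ((k : ℝ) * (1 + ε)))) L L
    (Real.exp_pos _) hLpos (fun m hm hm0 => hk₁ k hk3 m (fun p => (hm p).trans (by exact_mod_cast hk7)) hm0)
    hk5
  have hUL : max U 3 ≤ L := hk4
  have hu3L : 3 ≤ L := (le_max_right _ _).trans hUL
  refine ⟨u, (le_max_left U 3).trans (hUL.trans hu1), fun z hz => ?_⟩
  have hk1' : (1 : ℝ) ≤ k := by
    have : 1 ≤ k := by omega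
    exact_mod_cast this
  -- log u
  have hlogu : Real.log u ≤ (2 : ℝ) ^ ((k : ℝ) * (1 + 2 * ε) + 1) := by
    have h1 : Real.log u ≤ Real.log (2 * L) := Real.log_le_log (by linarith) (by linarith)
    rw [Real.log_mul (by norm_num) hLpos.ne', hL, Real.log_exp] at h1
    have h2 : (1 : ℝ) ≤ (2 : ℝ) ^ ((k : ℝ) * (1 + 2 * ε)) :=
      Real.one_le_rpow (by norm_num) (by positivity)
    have h3 : Real.log 2 ≤ 1 := by
      have := Real.log_two_lt_d9
      linarith
    rw [Real.rpow_add (by norm_num), Real.rpow_one]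
    linarith
  have hlogu1 : 1 < Real.log u := by
    rw [Real.lt_log_iff_exp_lt (by linarith)]
    have := Real.exp_one_lt_d9
    linarith
  have hloglog : Real.log (Real.log u) ≤ (1 + 3 * ε) * (k * Real.log 2) := by
    have h1 := Real.log_le_log (by linarith) hlogu
    rw [Real.log_rpow (by norm_num)] at h1
    refine h1.trans ?_
    have : ((k : ℝ) * (1 + 2 * ε) + 1) ≤ (1 + 3 * ε) * k := by nlinarith
    calc ((k : ℝ) * (1 + 2 * ε) + 1) * Real.log 2 ≤ ((1 + 3 * ε) * k) * Real.log 2 := by gcongr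
      _ = _ := by ring
  have hll0 : 0 ≤ Real.log (Real.log u) := Real.log_nonneg hlogu1.le
  have hpow : Real.log (Real.log u) ^ (5 / 4 : ℝ) ≤ (1 + 3 * ε) ^ (5 / 4 : ℝ) * v k := by
    rw [hvdef, ← Real.mul_rpow (by positivity) (by positivity)]
    exact Real.rpow_le_rpow hll0 hloglog (by norm_num)
  -- range of u
  have hk'k : (1 + 5 * ε) * k ≤ k' k := Nat.le_ceil _
  have hkk' : k ≤ k' k := by
    have : (k : ℝ) ≤ k' k := by nlinarith
    exact_mod_cast this
  have hu6 : u ≤ Real.exp ((2 : ℝ) ^ ((k' k : ℝ) * (1 - ε))) := by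
    rw [← Real.log_le_iff_le_exp (by linarith)]
    refine hlogu.trans (Real.rpow_le_rpow_of_exponent_le (by norm_num) ?_)
    have h1 : (1 + 5 * ε) * k * (1 - ε) ≤ (k' k : ℝ) * (1 - ε) := by
      apply mul_le_mul_of_nonneg_right hk'k
      linarith
    nlinarith [mul_nonneg (mul_nonneg hε.le (show (0 : ℝ) ≤ k by linarith))
      (show (0 : ℝ) ≤ 1 / 10 - ε by linarith)]
  have hclose := hk₀ (k' k) hk2 u (by linarith) hu6 z hz
  have hdiff : ‖part x (2 ^ k' k) u - part x (2 ^ k) u‖ ≤ (S x (2 ^ k' k) - S x (2 ^ k)) / (2 * Real.pi) :=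
    (norm_part_diff_le (Nat.pow_le_pow_right (by norm_num) hkk') u).trans
      (C_diff h (Nat.pow_le_pow_right (by norm_num) hkk'))
  -- the main part
  have hmain : (1 - 2 / (D + 1 : ℝ)) * C x (2 ^ k) ≤ (s * part x (2 ^ k) u).re := by
    have e0 : s * part x (2 ^ k) u =
        ∑ p : Idx k, s * coef x p.1 p.2 * Complex.exp ((u * ord x p.1 p.2 : ℝ) * Complex.I) := by
      rw [part_idx, mul_sum]
      exact sum_congr rfl fun p _ => (mul_assoc _ _ _).symm
    rw [e0, C_idx, Complex.re_sum]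
    refine le_trans (le_of_eq ?_) hu3
    congr 1
    apply sum_congr rfl
    intro p _
    rw [norm_mul, hs, one_mul]
  have hre : (s * part x (2 ^ k) u).re - ‖part x (2 ^ k' k) u - part x (2 ^ k) u‖ -
      ‖z - part x (2 ^ k' k) u‖ ≤ (s * z).re := by
    have e : s * z = s * part x (2 ^ k) u + s * (part x (2 ^ k' k) u - part x (2 ^ k) u) +
        s * (z - part x (2 ^ k' k) u) := by ring
    rw [e, Complex.add_re, Complex.add_re]
    have h1 := (abs_le.mp (Complex.abs_re_le_norm (s * (part x (2 ^ k' k) u - part x (2 ^ k) u)))).1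
    have h2 := (abs_le.mp (Complex.abs_re_le_norm (s * (z - part x (2 ^ k' k) u)))).1
    rw [norm_mul, hs, one_mul] at h1 h2
    linarith
  have hCge := C_ge h (2 ^ k)
  have hfin : Q k ≤ 2 * (s * z).re := by
    by_cases hc : 0 ≤ 1 - 2 / ((D : ℝ) + 1)
    · have h1 : (1 - 2 / (D + 1 : ℝ)) * ((S x (2 ^ k) - 2 * rem x 0) / (2 * Real.pi)) ≤
          (1 - 2 / (D + 1 : ℝ)) * C x (2 ^ k) := by gcongr
      have e : Q k = 2 * ((1 - 2 / (D + 1 : ℝ)) * ((S x (2 ^ k) - 2 * rem x 0) / (2 * Real.pi)) -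
          (S x (2 ^ k' k) - S x (2 ^ k)) / (2 * Real.pi) - eta x ε (k' k)) := by
        simp only [hQ]
        field_simp
      rw [e]
      linarith
    · -- then the hypothesis on `b` fails
      exfalso
      push Not at hc
      have h1 : (1 : ℝ) ≤ (1 + 5 * ε) ^ (5 / 4 : ℝ) := Real.one_le_rpow (by linarith) (by norm_num)
      have h2 : 4 / 5 * κ * ((1 - 2 / (D + 1 : ℝ)) - ((1 + 5 * ε) ^ (5 / 4 : ℝ) - 1)) / Real.pi ≤ 0 := by
        apply div_nonpos_of_nonpos_of_nonneg _ hpi.le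
        apply mul_nonpos_of_nonneg_of_nonpos (by positivity)
        linarith
      have h3 : 0 ≤ b * (1 + 3 * ε) ^ (5 / 4 : ℝ) := by positivity
      linarith
  rw [lt_div_iff₀ hk8] at hk1
  calc b * Real.log (Real.log u) ^ (5 / 4 : ℝ) ≤ b * ((1 + 3 * ε) ^ (5 / 4 : ℝ) * v k) := by gcongr
    _ = b * (1 + 3 * ε) ^ (5 / 4 : ℝ) * v k := by ring
    _ ≤ Q k := hk1.le
    _ ≤ 2 * (s * z).re := hfin

end Pool.Agent.Helper66.RMT
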