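import Pool.Agent.Helper66.RMT.Asm2

/-!
# Random matrix model: assembly with weights, first part
-/

set_option autoImplicit false

namespace Pool.Agent.Helper66.RMT

open MeasureTheory Filter Finset Topology

variable {b : ℝ → ℂ} {m σ : ℝ} {x : (n : ℕ) → Fin (sz n) → ℝ}

/-- One block of the explicit formula. -/
noncomputable def blkW (b : ℝ → ℂ) (x : (n : ℕ) → Fin (sz n) → ℝ) (n : ℕ) (u : ℝ) : ℂ :=
  ∑ j, b (ord x n j) * Complex.exp ((u * ord x n j : ℝ) * Complex.I) / dz (x n) j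

/-- The mean of one block. -/
noncomputable def meanW (b : ℝ → ℂ) (n : ℕ) (u : ℝ) : ℂ :=
  1 / (2 * Real.pi) * ∫ t in (2 * Real.pi * n)..(2 * Real.pi * (n + 1)),
    Complex.exp ((u * t : ℝ) * Complex.I) * b t

/-- What is known about almost every sample. -/
structure GoodW (σ : ℝ) (b : ℝ → ℂ) (x : (n : ℕ) → Fin (sz n) → ℝ) : Prop where
  lln : Tendsto (fun K : ℕ => CW b x K / Real.log K ^ (5 / 4 : ℝ)) atTop (𝓝 σ)
  tail : ∀ ε : ℝ, (∃ m : ℕ, ε = 1 / ((m : ℝ) + 2)) → ∃ k₀ : ℕ, ∀ k ≥ k₀, ∀ K : ℕ, K ≤ 2 ^ (k + 1) → ∀ u : ℝ,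
    (2 : ℝ) ^ (-(k : ℝ)) ≤ u → u ≤ Real.exp ((2 : ℝ) ^ ((k : ℝ) * (1 - ε))) →
      ‖∑ n ∈ Ico (2 ^ k) K, (blkW b x n u - meanW b n u)‖ ≤ (2 : ℝ) ^ (-(k : ℝ) * ε / 8)
  forms : ∀ ε : ℝ, 0 < ε → ∃ k₀ : ℕ, ∀ k ≥ k₀, ∀ m : Idx k → ℤ, (∀ p, |m p| ≤ k) → m ≠ 0 →
      Real.exp (-(2 : ℝ) ^ ((k : ℝ) * (1 + ε))) ≤
        |∑ p : Idx k, (m p : ℝ) * (2 * Real.pi * (p.1 : ℕ) + x p.1 p.2)|

theorem IsW.intble (hb : IsW b m) (u : ℝ) {p q : ℝ} (hp : 1 ≤ p) (hq : 1 ≤ q) :
    IntervalIntegrable (fun t : ℝ => Complex.exp ((u * t : ℝ) * Complex.I) * b t) volume p q := by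
  obtain ⟨A, hA⟩ := hb.bd
  have hmeas : Measurable fun t : ℝ => Complex.exp ((u * t : ℝ) * Complex.I) * b t := by
    refine Measurable.mul ?_ hb.meas
    have : Continuous fun t : ℝ => Complex.exp ((u * t : ℝ) * Complex.I) := by fun_prop
    exact this.measurable
  rw [intervalIntegrable_iff]
  refine Measure.integrableOn_of_bounded (M := |A| * (1 + Real.log (max p q))) ?_ hmeas.aestronglyMeasurable ?_
  · rw [Real.volume_uIoc]
    exact ENNReal.ofReal_ne_top
  · rw [ae_restrict_iff' measurableSet_uIoc]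
    refine Filter.Eventually.of_forall fun t ht => ?_
    rw [norm_mul, Complex.norm_exp_ofReal_mul_I, one_mul]
    have h1 : 1 ≤ t := by
      have := ht.1
      exact (le_min hp hq).trans this.le
    have h2 : t ≤ max p q := ht.2
    have h3 : 0 ≤ Real.log t := Real.log_nonneg h1
    have h4 : Real.log t ≤ Real.log (max p q) := Real.log_le_log (by linarith) h2
    refine (hA t h1).trans ?_
    calc A * (1 + Real.log t) / t ≤ |A| * (1 + Real.log t) / t := by
          gcongr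
          exact le_abs_self A
      _ ≤ |A| * (1 + Real.log t) := div_le_self (by positivity) h1
      _ ≤ |A| * (1 + Real.log (max p q)) := by gcongr

/-- The drift. -/
noncomputable def II (b : ℝ → ℂ) (u : ℝ) (K : ℕ) : ℝ :=
  (∫ t in (6 * Real.pi)..(2 * Real.pi * K), Complex.exp ((u * t : ℝ) * Complex.I) * b t).re

theorem meanW_sum (hb : IsW b m) (u : ℝ) {L K : ℕ} (hL : 3 ≤ L) (hLK : L ≤ K) :
    (∑ n ∈ Ico L K, meanW b n u).re = (II b u K - II b u L) / (2 * Real.pi) := by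
  have hpi := Real.pi_gt_three
  have hL' : (3 : ℝ) ≤ L := by exact_mod_cast hL
  have hK' : (3 : ℝ) ≤ K := by exact_mod_cast hL.trans hLK
  set f : ℝ → ℂ := fun t : ℝ => Complex.exp ((u * t : ℝ) * Complex.I) * b t with hf
  have h1 : ∑ n ∈ Ico L K, ∫ t in (2 * Real.pi * n)..(2 * Real.pi * (n + 1)), f t =
      ∫ t in (2 * Real.pi * L)..(2 * Real.pi * K), f t := by
    have h2 := intervalIntegral.sum_integral_adjacent_intervals_Ico (f := f) (μ := volume)
      (a := fun n : ℕ => 2 * Real.pi * n) hLK (fun n hn => by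
        have hn' : (3 : ℝ) ≤ n := by exact_mod_cast hL.trans (Set.mem_Ico.mp hn).1
        apply hb.intble u
        · nlinarith
        · push_cast
          nlinarith)
    rw [← h2]
    apply sum_congr rfl
    intro n _
    push_cast
    rfl
  have h3 : (∫ t in (6 * Real.pi)..(2 * Real.pi * L), f t) + ∫ t in (2 * Real.pi * L)..(2 * Real.pi * K), f t =
      ∫ t in (6 * Real.pi)..(2 * Real.pi * K), f t :=
    intervalIntegral.integral_add_adjacent_intervals (hb.intble u (by linarith) (by nlinarith))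
      (hb.intble u (by nlinarith) (by nlinarith))
  have h4 : ∑ n ∈ Ico L K, meanW b n u = ((1 / (2 * Real.pi) : ℝ) : ℂ) *
      ∫ t in (2 * Real.pi * L)..(2 * Real.pi * K), f t := by
    have h5 : ((1 / (2 * Real.pi) : ℝ) : ℂ) = 1 / (2 * Real.pi) := by push_cast; rfl
    rw [← h1, mul_sum, h5]
    apply sum_congr rfl
    intro n _
    rfl
  rw [h4, Complex.re_ofReal_mul]
  unfold II
  rw [← h3, Complex.add_re]
  ring

/-- The fluctuations of a whole tail. -/
theorem fluctW_le (h : GoodW σ b x) {ε : ℝ} (hε : 0 < ε) (hεm : ∃ m : ℕ, ε = 1 / ((m : ℝ) + 2)) :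
    ∃ k₀ : ℕ, ∀ k ≥ k₀, ∀ K : ℕ,
    ∀ u : ℝ, (2 : ℝ) ^ (-(k : ℝ)) ≤ u → u ≤ Real.exp ((2 : ℝ) ^ ((k : ℝ) * (1 - ε))) →
      ‖∑ n ∈ Ico (2 ^ k) K, (blkW b x n u - meanW b n u)‖ ≤ tau ε k := by
  have hε1 : ε < 1 := by
    obtain ⟨m, rfl⟩ := hεm
    rw [div_lt_one (by positivity)]
    linarith [(Nat.cast_nonneg m : (0 : ℝ) ≤ m)]
  obtain ⟨k₀, hk₀⟩ := h.tail ε hεm
  refine ⟨k₀, fun k hk K u hu1 hu2 => ?_⟩
  set r := (2 : ℝ) ^ (-(ε / 8)) with hr
  have hr0 : 0 < r := r_pos ε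
  have hr1 : r < 1 := r_lt hε
  set g : ℕ → ℂ := fun n => blkW b x n u - meanW b n u with hg
  have hblock : ∀ i K, K ≤ 2 ^ (k + i + 1) → ‖∑ n ∈ Ico (2 ^ (k + i)) K, g n‖ ≤ r ^ (k + i) := by
    intro i K hK
    have h1 : (2 : ℝ) ^ (-((k + i : ℕ) : ℝ)) ≤ u := by
      refine le_trans ?_ hu1
      apply Real.rpow_le_rpow_of_exponent_le (by norm_num)
      push_cast
      linarith [(Nat.cast_nonneg i : (0 : ℝ) ≤ i)]
    have h2 : u ≤ Real.exp ((2 : ℝ) ^ (((k + i : ℕ) : ℝ) * (1 - ε))) := by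
      refine hu2.trans (Real.exp_le_exp.mpr ?_)
      apply Real.rpow_le_rpow_of_exponent_le (by norm_num)
      push_cast
      nlinarith [(Nat.cast_nonneg i : (0 : ℝ) ≤ i)]
    have h3 := hk₀ (k + i) (by omega) K hK u h1 h2
    refine h3.trans (le_of_eq ?_)
    rw [hr, ← Real.rpow_natCast, ← Real.rpow_mul (by norm_num)]
    congr 1
    ring
  have key : ∀ i K, K ≤ 2 ^ (k + i) → ‖∑ n ∈ Ico (2 ^ k) K, g n‖ ≤ ∑ j ∈ range i, r ^ (k + j) := by
    intro i
    induction i with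
    | zero =>
      intro K hK
      rw [Ico_eq_empty_of_le (by simpa using hK)]
      simp
    | succ i ih =>
      intro K hK
      rw [sum_range_succ]
      rcases Nat.le_total K (2 ^ (k + i)) with h1 | h1
      · have := ih K h1
        have h2 : 0 ≤ r ^ (k + i) := by positivity
        linarith
      · have h2 : 2 ^ k ≤ 2 ^ (k + i) := Nat.pow_le_pow_right (by norm_num) (by omega)
        rw [← sum_Ico_consecutive _ h2 h1]
        refine (norm_add_le _ _).trans (add_le_add (ih _ le_rfl) ?_)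
        exact hblock i K (by rw [add_assoc]; exact hK)
  have hK : K ≤ 2 ^ (k + K) := by
    calc K ≤ 2 ^ K := Nat.lt_two_pow_self.le
      _ ≤ 2 ^ (k + K) := Nat.pow_le_pow_right (by norm_num) (by omega)
  refine (key K K hK).trans ?_
  unfold tau
  rw [← hr]
  have e : ∑ j ∈ range K, r ^ (k + j) = r ^ k * ∑ j ∈ range K, r ^ j := by
    rw [mul_sum]
    exact sum_congr rfl fun j _ => pow_add _ _ _
  rw [e, div_eq_mul_inv]
  apply mul_le_mul_of_nonneg_left _ (by positivity)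
  have := (summable_geometric_of_lt_one hr0.le hr1).sum_le_tsum (range K) fun j _ => by positivity
  rwa [tsum_geometric_of_lt_one hr0.le hr1] at this

/-- The real part of the partial sum without the drift. -/
noncomputable def qW (b : ℝ → ℂ) (x : (n : ℕ) → Fin (sz n) → ℝ) (u : ℝ) (K : ℕ) : ℝ :=
  (partW b x K u).re - II b u K / (2 * Real.pi)

theorem qW_diff (hb : IsW b m) {L K : ℕ} (hL : 3 ≤ L) (hLK : L ≤ K) (u : ℝ) :
    |qW b x u K - qW b x u L| ≤ ‖∑ n ∈ Ico L K, (blkW b x n u - meanW b n u)‖ := by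
  have e1 : partW b x K u - partW b x L u = ∑ n ∈ Ico L K, blkW b x n u := by
    unfold partW blkW
    rw [← sum_range_add_sum_Ico _ hLK]
    ring
  have e2 : qW b x u K - qW b x u L = (∑ n ∈ Ico L K, (blkW b x n u - meanW b n u)).re := by
    rw [sum_sub_distrib, Complex.sub_re, meanW_sum hb u hL hLK, ← e1, Complex.sub_re]
    unfold qW
    ring
  rw [e2]
  exact Complex.abs_re_le_norm _

/-- The real parts of the partial sums converge. -/
theorem partW_conv (hb : IsW b m) (h : GoodW σ b x) {u : ℝ} (hu : 0 < u) :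
    ∃ y : ℝ, Tendsto (fun K => (partW b x K u).re) atTop (𝓝 y) := by
  obtain ⟨k₀, hk₀⟩ := fluctW_le h (ε := 1 / 2) (by norm_num) ⟨0, by norm_num⟩
  have hc : CauchySeq fun K => qW b x u K := by
    rw [Metric.cauchySeq_iff']
    intro e he
    have h1 : Tendsto (tau (1 / 2)) atTop (𝓝 0) := tau_tendsto (by norm_num)
    have h2 : Tendsto (fun k : ℕ => (2 : ℝ) ^ (-(k : ℝ))) atTop (𝓝 0) := by
      have := tendsto_pow_atTop_nhds_zero_of_lt_one (r := (1 / 2 : ℝ)) (by norm_num) (by norm_num)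
      refine this.congr fun k => ?_
      rw [Real.rpow_neg (by norm_num), Real.rpow_natCast, div_pow, one_pow, one_div]
    have h3 : Tendsto (fun k : ℕ => Real.exp ((2 : ℝ) ^ ((k : ℝ) * (1 - 1 / 2)))) atTop atTop := by
      apply Real.tendsto_exp_atTop.comp
      apply (tendsto_rpow_atTop_of_base_gt_one 2 (by norm_num)).comp
      exact tendsto_natCast_atTop_atTop.atTop_mul_const (by norm_num)
    obtain ⟨k, ⟨hk, hk'⟩, hk1, hk2, hk3⟩ := (((eventually_ge_atTop k₀).and (eventually_ge_atTop 2)).and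
      ((h1.eventually_lt_const he).and ((h2.eventually_le_const hu).and (h3.eventually_ge_atTop u)))).exists
    refine ⟨2 ^ k, fun K hK => ?_⟩
    rw [Real.dist_eq]
    have h4 : 3 ≤ 2 ^ k := by
      calc 3 ≤ 2 ^ 2 := by norm_num
        _ ≤ 2 ^ k := Nat.pow_le_pow_right (by norm_num) hk'
    exact (qW_diff hb h4 hK u).trans_lt ((hk₀ k hk K u hk2 hk3).trans_lt hk1)
  obtain ⟨y, hy⟩ := cauchySeq_tendsto_of_complete hc
  obtain ⟨z, hz⟩ := hb.conv u hu
  refine ⟨y + z / (2 * Real.pi), ?_⟩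
  refine (hy.add (hz.div_const (2 * Real.pi))).congr fun K => ?_
  unfold qW II
  ring

/-- Distance of the limit from a partial sum. -/
theorem limW_close (hb : IsW b m) (h : GoodW σ b x) {ε : ℝ} (hε : 0 < ε)
    (hεm : ∃ m : ℕ, ε = 1 / ((m : ℝ) + 2)) : ∃ C : ℝ, ∃ k₀ : ℕ, ∀ k ≥ k₀, ∀ u : ℝ,
    1 ≤ u → u ≤ Real.exp ((2 : ℝ) ^ ((k : ℝ) * (1 - ε))) → ∀ y : ℝ,
      Tendsto (fun K => (partW b x K u).re) atTop (𝓝 y) → |y - (partW b x (2 ^ k) u).re| ≤ tau ε k + C := by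
  obtain ⟨k₀, hk₀⟩ := fluctW_le h hε hεm
  obtain ⟨C, hC⟩ := hb.drift
  have hpi := Real.pi_gt_three
  refine ⟨C, max k₀ 2, fun k hk u hu1 hu2 y hy => ?_⟩
  have h4 : 3 ≤ 2 ^ k := by
    calc 3 ≤ 2 ^ 2 := by norm_num
      _ ≤ 2 ^ k := Nat.pow_le_pow_right (by norm_num) ((le_max_right _ _).trans hk)
  have h1 : Tendsto (fun K => |(partW b x K u).re - (partW b x (2 ^ k) u).re|) atTop
      (𝓝 |y - (partW b x (2 ^ k) u).re|) := (hy.sub_const _).abs
  refine le_of_tendsto h1 ?_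
  filter_upwards [eventually_ge_atTop (2 ^ k)] with K hK
  have h2 : (2 : ℝ) ^ (-(k : ℝ)) ≤ u := by
    refine le_trans ?_ hu1
    apply Real.rpow_le_one_of_one_le_of_nonpos (by norm_num)
    linarith [(Nat.cast_nonneg k : (0 : ℝ) ≤ k)]
  have h3 := (qW_diff (x := x) hb h4 hK u).trans (hk₀ k ((le_max_left _ _).trans hk) K u h2 hu2)
  have h5 := hC u hu1 K (h4.trans hK)
  have h6 := hC u hu1 (2 ^ k) h4
  have e : (partW b x K u).re - (partW b x (2 ^ k) u).re = (qW b x u K - qW b x u (2 ^ k)) +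
      (II b u K - II b u (2 ^ k)) / (2 * Real.pi) := by
    unfold qW
    ring
  rw [e]
  refine (abs_add_le _ _).trans (add_le_add h3 ?_)
  rw [abs_div, abs_of_pos (by positivity : 0 < 2 * Real.pi), div_le_iff₀ (by positivity)]
  have h7 : |II b u K - II b u (2 ^ k)| ≤ C + C := (abs_sub _ _).trans (add_le_add h5 h6)
  have hC0 : 0 ≤ C := (abs_nonneg _).trans h5
  nlinarith

end Pool.Agent.Helper66.RMT
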