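import Pool.Agent.Helper66.RMT.Fin

/-!
# Random matrix model: the limits in the extended reals
-/

set_option autoImplicit false

namespace Pool.Agent.Helper66.RMT

open MeasureTheory ProbabilityTheory Filter Finset Topology

/-- From one-sided bounds to lower and upper limits. -/
theorem limits_of (R : ℝ → ℝ) (B : ℝ) (hB : 0 < B)
    (hU : ∀ b : ℝ, B < b → ∀ᶠ x : ℝ in atTop, |R x| ≤ b)
    (hL : ∀ b : ℝ, 0 ≤ b → b < B → (∃ᶠ x : ℝ in atTop, b ≤ R x) ∧ ∃ᶠ x : ℝ in atTop, R x ≤ -b) :
    liminf (fun x : ℝ => ((R x : ℝ) : EReal)) atTop = ((-B : ℝ) : EReal) ∧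
      limsup (fun x : ℝ => ((R x : ℝ) : EReal)) atTop = (B : EReal) := by
  have hL' : ∀ b : ℝ, b < B → (∃ᶠ x : ℝ in atTop, b ≤ R x) ∧ ∃ᶠ x : ℝ in atTop, R x ≤ -b := by
    intro b hb
    rcases le_total 0 b with h | h
    · exact hL b h hb
    · obtain ⟨h1, h2⟩ := hL 0 le_rfl hB
      exact ⟨h1.mono fun x hx => h.trans hx, h2.mono fun x hx => by linarith⟩
  constructor
  · apply le_antisymm
    · rw [← EReal.le_of_forall_lt_iff_le]
      intro z hz
      have hz' : -z < B := by
        have : -B < z := by exact_mod_cast hz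
        linarith
      refine liminf_le_of_frequently_le (((hL' (-z) hz').2).mono fun x hx => ?_) (by isBoundedDefault)
      rw [neg_neg] at hx
      exact_mod_cast hx
    · rw [← EReal.ge_of_forall_gt_iff_ge]
      intro z hz
      have hz' : B < -z := by
        have : z < -B := by exact_mod_cast hz
        linarith
      apply le_liminf_of_le
      · isBoundedDefault
      filter_upwards [hU (-z) hz'] with x hx
      have := (abs_le.mp hx).1
      rw [neg_neg] at this
      exact_mod_cast this
  · apply le_antisymm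
    · rw [← EReal.le_of_forall_lt_iff_le]
      intro z hz
      have hz' : B < z := by exact_mod_cast hz
      apply limsup_le_of_le
      · isBoundedDefault
      filter_upwards [hU z hz'] with x hx
      exact_mod_cast (abs_le.mp hx).2
    · rw [← EReal.ge_of_forall_gt_iff_ge]
      intro z hz
      have hz' : z < B := by exact_mod_cast hz
      refine le_limsup_of_frequently_le (((hL' z hz').1).mono fun x hx => ?_) (by isBoundedDefault)
      exact_mod_cast hx

/-- The limits for a good sample. -/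
theorem good_limits {κ : ℝ} {x : (n : ℕ) → Fin (sz n) → ℝ} (h : Good κ x) (hκ : 0 < κ) :
    ∃ z : ℝ → ℂ, (∀ u : ℝ, 0 < u → Tendsto (fun K => part x K u) atTop (𝓝 (z u))) ∧
      liminf (fun y : ℝ => ((2 * (z (Real.log y)).re / Real.log (Real.log (Real.log y)) ^ (5 / 4 : ℝ) : ℝ) :
        EReal)) atTop = ((-(4 / (5 * Real.pi) * κ) : ℝ) : EReal) ∧
      limsup (fun y : ℝ => ((2 * (z (Real.log y)).re / Real.log (Real.log (Real.log y)) ^ (5 / 4 : ℝ) : ℝ) :
        EReal)) atTop = ((4 / (5 * Real.pi) * κ : ℝ) : EReal) := by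
  classical
  have hex : ∀ u : ℝ, 0 < u → ∃ z : ℂ, Tendsto (fun K => part x K u) atTop (𝓝 z) := fun u hu =>
    cauchySeq_tendsto_of_complete (part_cauchy h hu)
  set z : ℝ → ℂ := fun u => if hu : 0 < u then (hex u hu).choose else 0 with hz
  have hzt : ∀ u : ℝ, 0 < u → Tendsto (fun K => part x K u) atTop (𝓝 (z u)) := by
    intro u hu
    simp only [hz]
    rw [dif_pos hu]
    exact (hex u hu).choose_spec
  refine ⟨z, hzt, ?_⟩
  have hpi := Real.pi_pos
  have hlll : ∀ᶠ u : ℝ in atTop, 0 < Real.log (Real.log u) :=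
    (Real.tendsto_log_atTop.comp Real.tendsto_log_atTop).eventually_gt_atTop 0
  apply limits_of (fun y : ℝ => 2 * (z (Real.log y)).re / Real.log (Real.log (Real.log y)) ^ (5 / 4 : ℝ))
    (4 / (5 * Real.pi) * κ) (by positivity)
  · intro b hb
    have h1 := upper_all h b hb
    have h2 : ∀ᶠ u : ℝ in atTop, |2 * (z u).re / Real.log (Real.log u) ^ (5 / 4 : ℝ)| ≤ b := by
      filter_upwards [h1, hlll, eventually_gt_atTop 0] with u hu1 hu2 hu3
      have hp : 0 < Real.log (Real.log u) ^ (5 / 4 : ℝ) := Real.rpow_pos_of_pos hu2 _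
      rw [abs_div, abs_of_pos hp, div_le_iff₀ hp]
      refine le_trans ?_ (hu1 (z u) (hzt u hu3))
      rw [abs_mul, abs_two]
      have := Complex.abs_re_le_norm (z u)
      linarith
    exact Real.tendsto_log_atTop.eventually h2
  · intro b hb0 hb
    have key : ∀ s : ℂ, ‖s‖ = 1 → ∃ᶠ y : ℝ in atTop,
        b ≤ 2 * (s * z (Real.log y)).re / Real.log (Real.log (Real.log y)) ^ (5 / 4 : ℝ) := by
      intro s hs
      have h1 := lower_all h hκ.le b hb0 hb s hs
      have h2 : ∃ᶠ u : ℝ in atTop, b ≤ 2 * (s * z u).re / Real.log (Real.log u) ^ (5 / 4 : ℝ) := by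
        refine (h1.and_eventually (hlll.and (eventually_gt_atTop 0))).mono ?_
        rintro u ⟨hu1, hu2, hu3⟩
        have hp : 0 < Real.log (Real.log u) ^ (5 / 4 : ℝ) := Real.rpow_pos_of_pos hu2 _
        rw [le_div_iff₀ hp]
        exact hu1 (z u) (hzt u hu3)
      refine Real.tendsto_exp_atTop.frequently ?_
      refine h2.mono fun u hu => ?_
      rw [Real.log_exp]
      exact hu
    constructor
    · refine (key 1 (by simp)).mono fun y hy => ?_
      rwa [one_mul] at hy
    · refine (key (-1) (by simp)).mono fun y hy => ?_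
      rw [neg_one_mul, Complex.neg_re, mul_neg, neg_div] at hy
      linarith

end Pool.Agent.Helper66.RMT
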