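import Pool.Agent.Helper66.RMT.AsmW
import Pool.Agent.Helper66.RMT.Lims

/-!
# Random matrix model: assembly with weights, second part
-/

set_option autoImplicit false

namespace Pool.Agent.Helper66.RMT

open MeasureTheory Filter Finset Topology

variable {b : ℝ → ℂ} {m σ : ℝ} {x : (n : ℕ) → Fin (sz n) → ℝ}

theorem norm_partW_le (K : ℕ) (u : ℝ) : ‖partW b x K u‖ ≤ CW b x K := by
  unfold partW CW
  refine (norm_sum_le _ _).trans (sum_le_sum fun n _ => (norm_sum_le _ _).trans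
    (sum_le_sum fun j _ => ?_))
  rw [norm_div, norm_mul, Complex.norm_exp_ofReal_mul_I, mul_one]

theorem norm_partW_diff_le {L K : ℕ} (hLK : L ≤ K) (u : ℝ) :
    ‖partW b x K u - partW b x L u‖ ≤ CW b x K - CW b x L := by
  unfold partW CW
  rw [← sum_range_add_sum_Ico _ hLK, ← sum_range_add_sum_Ico
    (fun n => ∑ j, ‖b (ord x n j)‖ / ‖dz (x n) j‖) hLK, add_sub_cancel_left, add_sub_cancel_left]
  refine (norm_sum_le _ _).trans (sum_le_sum fun n _ => (norm_sum_le _ _).trans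
    (sum_le_sum fun j _ => ?_))
  rw [norm_div, norm_mul, Complex.norm_exp_ofReal_mul_I, mul_one]

/-- Along powers of two. -/
theorem CW_pow (h : GoodW σ b x) : Tendsto (fun k : ℕ => CW b x (2 ^ k) / ((k : ℝ) * Real.log 2) ^ (5 / 4 : ℝ))
    atTop (𝓝 σ) := by
  have h1 := h.lln.comp pow_tendsto
  refine h1.congr fun k => ?_
  simp only [Function.comp]
  congr 2
  push_cast
  rw [Real.log_pow]

/-- A rescaled version. -/
theorem CW_resc (h : GoodW σ b x) {l : ℝ} (hl : 0 < l) {α : Type*} {F : Filter α} (k : α → ℕ) (v : α → ℝ)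
    (hk : Tendsto k F atTop) (hv : ∀ᶠ a in F, 0 < v a)
    (hkv : Tendsto (fun a => (k a : ℝ) * Real.log 2 / v a) F (𝓝 l)) :
    Tendsto (fun a => CW b x (2 ^ k a) / v a ^ (5 / 4 : ℝ)) F (𝓝 (σ * l ^ (5 / 4 : ℝ))) := by
  have h1 := ((CW_pow h).comp hk).mul (hkv.rpow_const (p := 5 / 4) (Or.inl hl.ne'))
  refine h1.congr' ?_
  filter_upwards [hv, hk.eventually_ge_atTop 1] with a ha hka
  have hk0 : (0 : ℝ) < k a := by exact_mod_cast hka
  have hl2 : 0 < Real.log 2 := Real.log_pos (by norm_num)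
  have h2 : 0 < (k a : ℝ) * Real.log 2 := by positivity
  simp only [Function.comp]
  rw [Real.div_rpow h2.le ha.le]
  have h3 : 0 < ((k a : ℝ) * Real.log 2) ^ (5 / 4 : ℝ) := Real.rpow_pos_of_pos h2 _
  have h4 : 0 < v a ^ (5 / 4 : ℝ) := Real.rpow_pos_of_pos ha _
  field_simp

/-- The upper half, for one `ε`. -/
theorem upperW (hb : IsW b m) (h : GoodW σ b x) {ε : ℝ} (hε : 0 < ε) (hε1 : ε < 1)
    (hεm : ∃ m : ℕ, ε = 1 / ((m : ℝ) + 2)) (β : ℝ)
    (hβ : 2 * (σ * (1 / (1 - ε)) ^ (5 / 4 : ℝ)) < β) :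
    ∀ᶠ u : ℝ in atTop, ∀ y : ℝ, Tendsto (fun K => (partW b x K u).re) atTop (𝓝 y) →
      2 * |y| ≤ β * Real.log (Real.log u) ^ (5 / 4 : ℝ) := by
  have hl2 : 0 < Real.log 2 := Real.log_pos (by norm_num)
  have hloglog : Tendsto (fun u : ℝ => Real.log (Real.log u)) atTop atTop :=
    Real.tendsto_log_atTop.comp Real.tendsto_log_atTop
  have h1e : 0 < 1 - ε := by linarith
  set k : ℝ → ℕ := fun u => ⌈(1 / (1 - ε)) * (Real.log (Real.log u) / Real.log 2)⌉₊ with hk
  have hvt : Tendsto (fun u : ℝ => Real.log (Real.log u) / Real.log 2) atTop atTop :=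
    hloglog.atTop_div_const hl2
  have hkt : Tendsto k atTop atTop :=
    tendsto_nat_ceil_atTop.comp (hvt.const_mul_atTop (by positivity))
  have hkv : Tendsto (fun u => (k u : ℝ) * Real.log 2 / Real.log (Real.log u)) atTop
      (𝓝 (1 / (1 - ε))) := by
    have h2 := (tendsto_nat_ceil_mul_div_atTop (R := ℝ) (a := 1 / (1 - ε)) (by positivity)).comp hvt
    refine h2.congr' ?_
    filter_upwards [hloglog.eventually_gt_atTop 0] with u hu
    simp only [Function.comp, hk]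
    field_simp
  have hS := CW_resc h (by positivity : (0 : ℝ) < 1 / (1 - ε)) k (fun u => Real.log (Real.log u)) hkt
    (hloglog.eventually_gt_atTop 0) hkv
  have hpw : Tendsto (fun u : ℝ => Real.log (Real.log u) ^ (5 / 4 : ℝ)) atTop atTop :=
    (tendsto_rpow_atTop (by norm_num)).comp hloglog
  obtain ⟨C, k₀, hk₀⟩ := limW_close hb h hε hεm
  have heta : Tendsto (fun u : ℝ => 2 * (tau ε (k u) + C) / Real.log (Real.log u) ^ (5 / 4 : ℝ)) atTop
      (𝓝 0) := by
    have h3 := (((tau_tendsto hε).comp hkt).add_const C).const_mul 2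
    exact h3.div_atTop hpw
  have htot := (hS.const_mul 2).add heta
  rw [add_zero] at htot
  filter_upwards [htot.eventually_lt_const hβ, hkt.eventually_ge_atTop k₀, eventually_ge_atTop 1,
    Real.tendsto_log_atTop.eventually_gt_atTop 0, hpw.eventually_gt_atTop 0]
    with u hu1 hu2 hu3 hu5 hu4 y hy
  have hu6 : u ≤ Real.exp ((2 : ℝ) ^ ((k u : ℝ) * (1 - ε))) := by
    rw [← Real.log_le_iff_le_exp (by linarith)]
    have h4 : Real.log (Real.log u) / Real.log 2 ≤ (k u : ℝ) * (1 - ε) := by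
      have h5 := Nat.le_ceil ((1 / (1 - ε)) * (Real.log (Real.log u) / Real.log 2))
      have h6 : (1 / (1 - ε)) * (Real.log (Real.log u) / Real.log 2) * (1 - ε) ≤ (k u : ℝ) * (1 - ε) := by
        gcongr
      calc _ = (1 / (1 - ε)) * (Real.log (Real.log u) / Real.log 2) * (1 - ε) := by field_simp
        _ ≤ _ := h6
    calc Real.log u = (2 : ℝ) ^ (Real.log (Real.log u) / Real.log 2) := by
          rw [Real.rpow_def_of_pos (by norm_num), mul_div_cancel₀ _ hl2.ne', Real.exp_log hu5]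
      _ ≤ _ := Real.rpow_le_rpow_of_exponent_le (by norm_num) h4
  have h7 := hk₀ (k u) hu2 u hu3 hu6 y hy
  have h8 : |y| ≤ CW b x (2 ^ k u) + (tau ε (k u) + C) := by
    calc |y| = |(partW b x (2 ^ k u) u).re + (y - (partW b x (2 ^ k u) u).re)| := by congr 1; ring
      _ ≤ |(partW b x (2 ^ k u) u).re| + |y - (partW b x (2 ^ k u) u).re| := abs_add_le _ _
      _ ≤ CW b x (2 ^ k u) + (tau ε (k u) + C) :=
          add_le_add ((Complex.abs_re_le_norm _).trans (norm_partW_le _ _)) h7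
  have h9 : 2 * |y| ≤ (2 * (CW b x (2 ^ k u) / Real.log (Real.log u) ^ (5 / 4 : ℝ)) +
      2 * (tau ε (k u) + C) / Real.log (Real.log u) ^ (5 / 4 : ℝ)) * Real.log (Real.log u) ^ (5 / 4 : ℝ) := by
    have e : (2 * (CW b x (2 ^ k u) / Real.log (Real.log u) ^ (5 / 4 : ℝ)) +
      2 * (tau ε (k u) + C) / Real.log (Real.log u) ^ (5 / 4 : ℝ)) * Real.log (Real.log u) ^ (5 / 4 : ℝ) =
      2 * (CW b x (2 ^ k u) + (tau ε (k u) + C)) := by
      field_simp
    rw [e]
    linarith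
  refine h9.trans ?_
  gcongr

/-- The partial sum over the index set of Kronecker's theorem. -/
theorem partW_idx (k : ℕ) (u : ℝ) : partW b x (2 ^ k) u =
    ∑ p : Idx k, b (ord x p.1 p.2) / dz (x p.1) p.2 * Complex.exp ((u * ord x p.1 p.2 : ℝ) * Complex.I) := by
  unfold partW
  rw [Fintype.sum_sigma, Finset.sum_range]
  exact sum_congr rfl fun n _ => sum_congr rfl fun j _ => by ring

theorem CW_idx (k : ℕ) : CW b x (2 ^ k) = ∑ p : Idx k, ‖b (ord x p.1 p.2) / dz (x p.1) p.2‖ := by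
  unfold CW
  rw [Fintype.sum_sigma, Finset.sum_range]
  exact sum_congr rfl fun n _ => sum_congr rfl fun j _ => by rw [norm_div]

/-- The lower half, for one `ε` and one `D`. -/
theorem lowerW (hb : IsW b m) (h : GoodW σ b x) (hσ : 0 ≤ σ) {ε : ℝ} (hε : 0 < ε) (hε1 : ε ≤ 1 / 10)
    (hεm : ∃ m : ℕ, ε = 1 / ((m : ℝ) + 2)) (D : ℕ) (β : ℝ)
    (hβ0 : 0 ≤ β)
    (hβ : β * (1 + 3 * ε) ^ (5 / 4 : ℝ) <
      2 * (σ * ((1 - 2 / (D + 1 : ℝ)) - ((1 + 5 * ε) ^ (5 / 4 : ℝ) - 1))))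
    (s : ℝ) (hs : |s| = 1) :
    ∃ᶠ u : ℝ in atTop, ∀ y : ℝ, Tendsto (fun K => (partW b x K u).re) atTop (𝓝 y) →
      β * Real.log (Real.log u) ^ (5 / 4 : ℝ) ≤ 2 * (s * y) := by
  have hl2 : 0 < Real.log 2 := Real.log_pos (by norm_num)
  have hD : (0 : ℝ) < (D : ℝ) + 1 := by positivity
  set k' : ℕ → ℕ := fun k => ⌈(1 + 5 * ε) * k⌉₊ with hk'
  have hkt : Tendsto k' atTop atTop :=
    tendsto_nat_ceil_atTop.comp (tendsto_natCast_atTop_atTop.const_mul_atTop (by positivity))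
  have hk'v : Tendsto (fun k : ℕ => (k' k : ℝ) * Real.log 2 / ((k : ℝ) * Real.log 2)) atTop
      (𝓝 (1 + 5 * ε)) := by
    have h2 := (tendsto_nat_ceil_mul_div_atTop (R := ℝ) (a := 1 + 5 * ε) (by positivity)).comp
      tendsto_natCast_atTop_atTop
    refine h2.congr' ?_
    filter_upwards [eventually_ge_atTop 1] with k hk
    have : (0 : ℝ) < k := by exact_mod_cast hk
    simp only [Function.comp, hk']
    field_simp
  have hv : ∀ᶠ k : ℕ in atTop, 0 < (k : ℝ) * Real.log 2 := by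
    filter_upwards [eventually_ge_atTop 1] with k hk
    have : (0 : ℝ) < k := by exact_mod_cast hk
    positivity
  have hS' := CW_resc h (by positivity : (0 : ℝ) < 1 + 5 * ε) k' (fun k : ℕ => (k : ℝ) * Real.log 2) hkt
    hv hk'v
  have hS := CW_pow h
  set v : ℕ → ℝ := fun k => ((k : ℝ) * Real.log 2) ^ (5 / 4 : ℝ) with hvdef
  have hvtop : Tendsto v atTop atTop := by
    apply (tendsto_rpow_atTop (by norm_num)).comp
    exact tendsto_natCast_atTop_atTop.atTop_mul_const hl2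
  obtain ⟨C, k₀, hk₀⟩ := limW_close hb h hε hεm
  -- the lower bound
  set Q : ℕ → ℝ := fun k => 2 * ((1 - 2 / (D + 1 : ℝ)) * CW b x (2 ^ k) -
    (CW b x (2 ^ k' k) - CW b x (2 ^ k))) - 2 * (tau ε (k' k) + C) with hQ
  have hQlim : Tendsto (fun k => Q k / v k) atTop
      (𝓝 (2 * (σ * ((1 - 2 / (D + 1 : ℝ)) - ((1 + 5 * ε) ^ (5 / 4 : ℝ) - 1))))) := by
    have h2 : Tendsto (fun k => 2 * (tau ε (k' k) + C) / v k) atTop (𝓝 0) := by
      have h3 := (((tau_tendsto hε).comp hkt).add_const C).const_mul 2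
      exact h3.div_atTop hvtop
    have h3 := (((hS.const_mul (1 - 2 / (D + 1 : ℝ))).sub (hS'.sub hS)).const_mul 2).sub h2
    have e : 2 * ((1 - 2 / ((D : ℝ) + 1)) * σ -
        (σ * (1 + 5 * ε) ^ (5 / 4 : ℝ) - σ)) - 0 =
        2 * (σ * ((1 - 2 / (D + 1 : ℝ)) - ((1 + 5 * ε) ^ (5 / 4 : ℝ) - 1))) := by ring
    rw [e] at h3
    refine h3.congr fun k => ?_
    simp only [hQ, hvdef]
    ring
  obtain ⟨k₁, hk₁⟩ := h.forms ε hε
  rw [frequently_atTop]
  intro U
  have hLtop : Tendsto (fun k : ℕ => Real.exp ((2 : ℝ) ^ ((k : ℝ) * (1 + 2 * ε)))) atTop atTop := by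
    apply Real.tendsto_exp_atTop.comp
    apply (tendsto_rpow_atTop_of_base_gt_one 2 (by norm_num)).comp
    exact tendsto_natCast_atTop_atTop.atTop_mul_const (by linarith)
  have hkε : Tendsto (fun k : ℕ => (k : ℝ) * ε) atTop atTop :=
    tendsto_natCast_atTop_atTop.atTop_mul_const hε
  obtain ⟨k, hk1, hk2, hk3, hk4, hk5, hk6, hk7, hk8⟩ := ((hQlim.eventually_const_lt hβ).and
    ((hkt.eventually_ge_atTop k₀).and ((eventually_ge_atTop k₁).and ((hLtop.eventually_ge_atTop (max U 3)).and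
    ((size_cond hε D).and ((hkε.eventually_ge_atTop 2).and ((eventually_ge_atTop (D + 1)).and
    (hvtop.eventually_gt_atTop 0)))))))).exists
  set L := Real.exp ((2 : ℝ) ^ ((k : ℝ) * (1 + 2 * ε))) with hL
  have hLpos : 0 < L := Real.exp_pos _
  obtain ⟨u, hu1, hu2, hu3⟩ := kron (fun p : Idx k => ord x p.1 p.2)
    (fun p : Idx k => (s : ℂ) * (b (ord x p.1 p.2) / dz (x p.1) p.2)) D
    (Real.exp (-(2 : ℝ) ^ ((k : ℝ) * (1 + ε)))) L L
    (Real.exp_pos _) hLpos (fun m hm hm0 => hk₁ k hk3 m (fun p => (hm p).trans (by exact_mod_cast hk7)) hm0)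
    hk5
  have hUL : max U 3 ≤ L := hk4
  have hu3L : 3 ≤ L := (le_max_right _ _).trans hUL
  refine ⟨u, (le_max_left U 3).trans (hUL.trans hu1), fun y hy => ?_⟩
  have hk1' : (1 : ℝ) ≤ k := by
    have : 1 ≤ k := by omega
    exact_mod_cast this
  -- log u
  have hlogu : Real.log u ≤ (2 : ℝ) ^ ((k : ℝ) * (1 + 2 * ε) + 1) := by
    have h1 : Real.log u ≤ Real.log (2 * L) := Real.log_le_log (by linarith) (by linarith)
    rw [Real.log_mul (by norm_num) hLpos.ne', hL, Real.log_exp] at h1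
    have h2 : (1 : ℝ) ≤ (2 : ℝ) ^ ((k : ℝ) * (1 + 2 * ε)) :=
      Real.one_le_rpow (by norm_num) (by positivity)
    have h3 : Real.log 2 ≤ 1 := by
      have := Real.log_two_lt_d9
      linarith
    rw [Real.rpow_add (by norm_num), Real.rpow_one]
    linarith
  have hlogu1 : 1 < Real.log u := by
    rw [Real.lt_log_iff_exp_lt (by linarith)]
    have := Real.exp_one_lt_d9
    linarith
  have hloglog : Real.log (Real.log u) ≤ (1 + 3 * ε) * (k * Real.log 2) := by
    have h1 := Real.log_le_log (by linarith) hlogu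
    rw [Real.log_rpow (by norm_num)] at h1
    refine h1.trans ?_
    have : ((k : ℝ) * (1 + 2 * ε) + 1) ≤ (1 + 3 * ε) * k := by nlinarith
    calc ((k : ℝ) * (1 + 2 * ε) + 1) * Real.log 2 ≤ ((1 + 3 * ε) * k) * Real.log 2 := by gcongr
      _ = _ := by ring
  have hll0 : 0 ≤ Real.log (Real.log u) := Real.log_nonneg hlogu1.le
  have hpow : Real.log (Real.log u) ^ (5 / 4 : ℝ) ≤ (1 + 3 * ε) ^ (5 / 4 : ℝ) * v k := by
    rw [hvdef, ← Real.mul_rpow (by positivity) (by positivity)]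
    exact Real.rpow_le_rpow hll0 hloglog (by norm_num)
  -- range of u
  have hk'k : (1 + 5 * ε) * k ≤ k' k := Nat.le_ceil _
  have hkk' : k ≤ k' k := by
    have : (k : ℝ) ≤ k' k := by nlinarith
    exact_mod_cast this
  have hu6 : u ≤ Real.exp ((2 : ℝ) ^ ((k' k : ℝ) * (1 - ε))) := by
    rw [← Real.log_le_iff_le_exp (by linarith)]
    refine hlogu.trans (Real.rpow_le_rpow_of_exponent_le (by norm_num) ?_)
    have h1 : (1 + 5 * ε) * k * (1 - ε) ≤ (k' k : ℝ) * (1 - ε) := by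
      apply mul_le_mul_of_nonneg_right hk'k
      linarith
    nlinarith [mul_nonneg (mul_nonneg hε.le (show (0 : ℝ) ≤ k by linarith))
      (show (0 : ℝ) ≤ 1 / 10 - ε by linarith)]
  have hclose := hk₀ (k' k) hk2 u (by linarith) hu6 y hy
  have hdiff : |(partW b x (2 ^ k' k) u).re - (partW b x (2 ^ k) u).re| ≤
      CW b x (2 ^ k' k) - CW b x (2 ^ k) := by
    rw [← Complex.sub_re]
    exact (Complex.abs_re_le_norm _).trans
      (norm_partW_diff_le (Nat.pow_le_pow_right (by norm_num) hkk') u)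
  have hCW0 : 0 ≤ CW b x (2 ^ k) := (norm_nonneg _).trans (norm_partW_le _ 0)
  -- the main part
  have hmain : (1 - 2 / (D + 1 : ℝ)) * CW b x (2 ^ k) ≤ s * (partW b x (2 ^ k) u).re := by
    have e0 : s * (partW b x (2 ^ k) u).re =
        (∑ p : Idx k, (s : ℂ) * (b (ord x p.1 p.2) / dz (x p.1) p.2) *
          Complex.exp ((u * ord x p.1 p.2 : ℝ) * Complex.I)).re := by
      rw [← Complex.re_ofReal_mul, partW_idx, mul_sum]
      congr 1
      exact sum_congr rfl fun p _ => (mul_assoc _ _ _).symm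
    rw [e0, CW_idx, Complex.re_sum]
    refine le_trans (le_of_eq ?_) hu3
    congr 1
    apply sum_congr rfl
    intro p _
    rw [norm_mul, Complex.norm_real, Real.norm_eq_abs, hs, one_mul]
  have hre : s * (partW b x (2 ^ k) u).re - |(partW b x (2 ^ k' k) u).re - (partW b x (2 ^ k) u).re| -
      |y - (partW b x (2 ^ k' k) u).re| ≤ s * y := by
    have e : s * y = s * (partW b x (2 ^ k) u).re +
        s * ((partW b x (2 ^ k' k) u).re - (partW b x (2 ^ k) u).re) +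
        s * (y - (partW b x (2 ^ k' k) u).re) := by ring
    rw [e]
    have h1 := neg_abs_le (s * ((partW b x (2 ^ k' k) u).re - (partW b x (2 ^ k) u).re))
    have h2 := neg_abs_le (s * (y - (partW b x (2 ^ k' k) u).re))
    rw [abs_mul, hs, one_mul] at h1 h2
    linarith
  have hfin : Q k ≤ 2 * (s * y) := by
    simp only [hQ]
    linarith
  rw [lt_div_iff₀ hk8] at hk1
  calc β * Real.log (Real.log u) ^ (5 / 4 : ℝ) ≤ β * ((1 + 3 * ε) ^ (5 / 4 : ℝ) * v k) := by gcongr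
    _ = β * (1 + 3 * ε) ^ (5 / 4 : ℝ) * v k := by ring
    _ ≤ Q k := hk1.le
    _ ≤ 2 * (s * y) := hfin

end Pool.Agent.Helper66.RMT
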