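import Pool.Agent.Helper66.RMT.AsmW2

/-!
# Random matrix model: assembly with weights, the limits
-/

set_option autoImplicit false

namespace Pool.Agent.Helper66.RMT

open MeasureTheory Filter Finset Topology

variable {b : ℝ → ℂ} {m σ : ℝ} {x : (n : ℕ) → Fin (sz n) → ℝ}

theorem upperW_all (hb : IsW b m) (h : GoodW σ b x) (β : ℝ) (hβ : 2 * σ < β) :
    ∀ᶠ u : ℝ in atTop, ∀ y : ℝ, Tendsto (fun K => (partW b x K u).re) atTop (𝓝 y) →
      2 * |y| ≤ β * Real.log (Real.log u) ^ (5 / 4 : ℝ) := by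
  have h1 : Tendsto (fun m => 2 * (σ * (1 / (1 - ee m)) ^ (5 / 4 : ℝ))) atTop
      (𝓝 (2 * (σ * (1 / (1 - 0)) ^ (5 / 4 : ℝ)))) := by
    apply Tendsto.const_mul
    apply Tendsto.const_mul
    apply Tendsto.rpow_const
    · exact tendsto_const_nhds.div (tendsto_const_nhds.sub ee_tendsto) (by norm_num)
    · left
      norm_num
  have e : 2 * (σ * (1 / (1 - 0 : ℝ)) ^ (5 / 4 : ℝ)) = 2 * σ := by norm_num
  rw [e] at h1
  obtain ⟨m, hm⟩ := (h1.eventually_lt_const hβ).exists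
  exact upperW hb h (ee_pos m) (ee_lt m) ⟨m, rfl⟩ β hm

theorem lowerW_all (hb : IsW b m) (h : GoodW σ b x) (hσ : 0 ≤ σ) (β : ℝ) (hβ0 : 0 ≤ β) (hβ : β < 2 * σ)
    (s : ℝ) (hs : |s| = 1) :
    ∃ᶠ u : ℝ in atTop, ∀ y : ℝ, Tendsto (fun K => (partW b x K u).re) atTop (𝓝 y) →
      β * Real.log (Real.log u) ^ (5 / 4 : ℝ) ≤ 2 * (s * y) := by
  have hD : Tendsto (fun m : ℕ => 2 / ((m : ℝ) + 1)) atTop (𝓝 0) :=
    (tendsto_natCast_atTop_atTop.atTop_add tendsto_const_nhds).const_div_atTop 2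
  have h1 : Tendsto (fun m : ℕ => 2 * (σ * ((1 - 2 / ((m : ℝ) + 1)) -
      ((1 + 5 * ee m) ^ (5 / 4 : ℝ) - 1)))) atTop
      (𝓝 (2 * (σ * ((1 - 0) - ((1 + 5 * 0) ^ (5 / 4 : ℝ) - 1))))) := by
    apply Tendsto.const_mul
    apply Tendsto.const_mul
    apply Tendsto.sub (tendsto_const_nhds.sub hD)
    apply Tendsto.sub _ tendsto_const_nhds
    apply Tendsto.rpow_const
    · exact tendsto_const_nhds.add (ee_tendsto.const_mul 5)
    · left
      norm_num
  have h2 : Tendsto (fun m => β * (1 + 3 * ee m) ^ (5 / 4 : ℝ)) atTop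
      (𝓝 (β * (1 + 3 * 0) ^ (5 / 4 : ℝ))) := by
    apply Tendsto.const_mul
    apply Tendsto.rpow_const
    · exact tendsto_const_nhds.add (ee_tendsto.const_mul 3)
    · left
      norm_num
  have e1 : 2 * (σ * ((1 - 0) - ((1 + 5 * 0 : ℝ) ^ (5 / 4 : ℝ) - 1))) = 2 * σ := by norm_num
  have e2 : β * (1 + 3 * 0 : ℝ) ^ (5 / 4 : ℝ) = β := by norm_num
  rw [e1] at h1
  rw [e2] at h2
  obtain ⟨m, hm1, hm2⟩ := ((h2.eventually_lt h1 hβ).and
    (ee_tendsto.eventually_le_const (show (0 : ℝ) < 1 / 10 by norm_num))).exists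
  exact lowerW hb h hσ (ee_pos m) hm2 ⟨m, rfl⟩ m β hβ0 hm1 s hs

/-- The limits for a good sample. -/
theorem goodW_limits (hb : IsW b m) (h : GoodW σ b x) (hσ : 0 < σ) :
    ∃ y : ℝ → ℝ, (∀ u : ℝ, 0 < u → Tendsto (fun K => (partW b x K u).re) atTop (𝓝 (y u))) ∧
      ∀ c : ℝ,
      liminf (fun t : ℝ => ((2 * y (Real.log t) / Real.log (Real.log (Real.log t)) ^ (5 / 4 : ℝ) +
        c / Real.log (Real.log (Real.log t)) ^ (5 / 4 : ℝ) : ℝ) :
        EReal)) atTop = ((-(2 * σ) : ℝ) : EReal) ∧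
      limsup (fun t : ℝ => ((2 * y (Real.log t) / Real.log (Real.log (Real.log t)) ^ (5 / 4 : ℝ) +
        c / Real.log (Real.log (Real.log t)) ^ (5 / 4 : ℝ) : ℝ) :
        EReal)) atTop = ((2 * σ : ℝ) : EReal) := by
  classical
  have hex : ∀ u : ℝ, 0 < u → ∃ y : ℝ, Tendsto (fun K => (partW b x K u).re) atTop (𝓝 y) := fun u hu =>
    partW_conv hb h hu
  set y : ℝ → ℝ := fun u => if hu : 0 < u then (hex u hu).choose else 0 with hy
  have hyt : ∀ u : ℝ, 0 < u → Tendsto (fun K => (partW b x K u).re) atTop (𝓝 (y u)) := by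
    intro u hu
    simp only [hy]
    rw [dif_pos hu]
    exact (hex u hu).choose_spec
  refine ⟨y, hyt, fun c => ?_⟩
  have hlll : ∀ᶠ u : ℝ in atTop, 0 < Real.log (Real.log u) :=
    (Real.tendsto_log_atTop.comp Real.tendsto_log_atTop).eventually_gt_atTop 0
  have hpw : Tendsto (fun u : ℝ => Real.log (Real.log u) ^ (5 / 4 : ℝ)) atTop atTop :=
    (tendsto_rpow_atTop (by norm_num)).comp (Real.tendsto_log_atTop.comp Real.tendsto_log_atTop)
  have hc : Tendsto (fun u : ℝ => c / Real.log (Real.log u) ^ (5 / 4 : ℝ)) atTop (𝓝 0) :=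
    hpw.const_div_atTop c
  have h0 : Tendsto (fun t : ℝ => Real.log t) atTop atTop := Real.tendsto_log_atTop
  apply limits_of (fun t : ℝ => 2 * y (Real.log t) / Real.log (Real.log (Real.log t)) ^ (5 / 4 : ℝ) +
    c / Real.log (Real.log (Real.log t)) ^ (5 / 4 : ℝ)) (2 * σ) (by positivity)
  · intro β hβ
    have h1 := upperW_all hb h ((β + 2 * σ) / 2) (by linarith)
    have hc' : ∀ᶠ u : ℝ in atTop, |c / Real.log (Real.log u) ^ (5 / 4 : ℝ)| < (β - 2 * σ) / 2 := by
      have := hc.abs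
      rw [abs_zero] at this
      exact this.eventually_lt_const (by linarith)
    have h2 : ∀ᶠ u : ℝ in atTop, |2 * y u / Real.log (Real.log u) ^ (5 / 4 : ℝ) +
        c / Real.log (Real.log u) ^ (5 / 4 : ℝ)| ≤ β := by
      filter_upwards [h1, hlll, eventually_gt_atTop 0, hc'] with u hu1 hu2 hu3 hu4
      have hp : 0 < Real.log (Real.log u) ^ (5 / 4 : ℝ) := Real.rpow_pos_of_pos hu2 _
      have h3 : |2 * y u / Real.log (Real.log u) ^ (5 / 4 : ℝ)| ≤ (β + 2 * σ) / 2 := by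
        rw [abs_div, abs_of_pos hp, div_le_iff₀ hp, abs_mul, abs_two]
        exact hu1 (y u) (hyt u hu3)
      have h4 := abs_add_le (2 * y u / Real.log (Real.log u) ^ (5 / 4 : ℝ))
        (c / Real.log (Real.log u) ^ (5 / 4 : ℝ))
      linarith
    exact h0.eventually h2
  · intro β hβ0 hβ
    have key : ∀ s : ℝ, |s| = 1 → ∃ᶠ t : ℝ in atTop,
        β ≤ s * (2 * y (Real.log t) / Real.log (Real.log (Real.log t)) ^ (5 / 4 : ℝ) +
          c / Real.log (Real.log (Real.log t)) ^ (5 / 4 : ℝ)) := by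
      intro s hs
      have h1 := lowerW_all hb h hσ.le ((β + 2 * σ) / 2) (by linarith) (by linarith) s hs
      have hc' : ∀ᶠ u : ℝ in atTop, |c / Real.log (Real.log u) ^ (5 / 4 : ℝ)| < (2 * σ - β) / 2 := by
        have := hc.abs
        rw [abs_zero] at this
        exact this.eventually_lt_const (by linarith)
      have h2 : ∃ᶠ u : ℝ in atTop, β ≤ s * (2 * y u / Real.log (Real.log u) ^ (5 / 4 : ℝ) +
          c / Real.log (Real.log u) ^ (5 / 4 : ℝ)) := by
        refine (h1.and_eventually (hlll.and ((eventually_gt_atTop 0).and hc'))).mono ?_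
        rintro u ⟨hu1, hu2, hu3, hu4⟩
        have hp : 0 < Real.log (Real.log u) ^ (5 / 4 : ℝ) := Real.rpow_pos_of_pos hu2 _
        have h3 := hu1 (y u) (hyt u hu3)
        rw [← le_div_iff₀ hp] at h3
        have h4 : |s * (c / Real.log (Real.log u) ^ (5 / 4 : ℝ))| < (2 * σ - β) / 2 := by
          rw [abs_mul, hs, one_mul]
          exact hu4
        have h5 := neg_abs_le (s * (c / Real.log (Real.log u) ^ (5 / 4 : ℝ)))
        have e : s * (2 * y u / Real.log (Real.log u) ^ (5 / 4 : ℝ) +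
          c / Real.log (Real.log u) ^ (5 / 4 : ℝ)) = 2 * (s * y u) / Real.log (Real.log u) ^ (5 / 4 : ℝ) +
          s * (c / Real.log (Real.log u) ^ (5 / 4 : ℝ)) := by ring
        rw [e]
        linarith
      refine Real.tendsto_exp_atTop.frequently ?_
      refine h2.mono fun u hu => ?_
      rw [Real.log_exp]
      exact hu
    constructor
    · refine (key 1 (by simp)).mono fun t ht => ?_
      rwa [one_mul] at ht
    · refine (key (-1) (by simp)).mono fun t ht => ?_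
      linarith

end Pool.Agent.Helper66.RMT
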