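import Pool.Agent.Helper66.RMT.AsmW3

/-!
# Random matrix model: linear combinations of two weights
-/

set_option autoImplicit false

namespace Pool.Agent.Helper66.RMT

open MeasureTheory Filter Finset Topology

/-- The linear combination of two weights. -/
noncomputable def lin (b₁ b₂ : ℝ → ℂ) (α β : ℝ) (t : ℝ) : ℂ := α * b₁ t + β * b₂ t

variable {b₁ b₂ : ℝ → ℂ} {m₁ m₂ : ℝ} {x : (n : ℕ) → Fin (sz n) → ℝ}

theorem II_lin (h₁ : IsW b₁ m₁) (h₂ : IsW b₂ m₂) (α β u : ℝ) {K : ℕ} (hK : 1 ≤ K) :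
    II (lin b₁ b₂ α β) u K = α * II b₁ u K + β * II b₂ u K := by
  have hpi := Real.pi_gt_three
  have hK' : (1 : ℝ) ≤ K := by exact_mod_cast hK
  have i1 := h₁.intble u (p := 6 * Real.pi) (q := 2 * Real.pi * K) (by linarith) (by nlinarith)
  have i2 := h₂.intble u (p := 6 * Real.pi) (q := 2 * Real.pi * K) (by linarith) (by nlinarith)
  have e : (∫ t in (6 * Real.pi)..(2 * Real.pi * K), Complex.exp ((u * t : ℝ) * Complex.I) *
      lin b₁ b₂ α β t) = (α : ℂ) * (∫ t in (6 * Real.pi)..(2 * Real.pi * K),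
        Complex.exp ((u * t : ℝ) * Complex.I) * b₁ t) + (β : ℂ) *
        ∫ t in (6 * Real.pi)..(2 * Real.pi * K), Complex.exp ((u * t : ℝ) * Complex.I) * b₂ t := by
    rw [← intervalIntegral.integral_const_mul, ← intervalIntegral.integral_const_mul,
      ← intervalIntegral.integral_add (i1.const_mul _) (i2.const_mul _)]
    apply intervalIntegral.integral_congr
    intro t _
    simp only [lin]
    ring
  unfold II
  rw [e, Complex.add_re, Complex.re_ofReal_mul, Complex.re_ofReal_mul]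

theorem isW_lin (h₁ : IsW b₁ m₁) (h₂ : IsW b₂ m₂) (α β : ℝ) {m : ℝ}
    (hm : Tendsto (fun T : ℝ => (∫ t in (1 : ℝ)..T, t * ‖lin b₁ b₂ α β t‖) / T) atTop (𝓝 m)) :
    IsW (lin b₁ b₂ α β) m := by
  refine ⟨?_, ?_, hm, ?_, ?_⟩
  · exact (h₁.meas.const_mul _).add (h₂.meas.const_mul _)
  · obtain ⟨A₁, hA₁⟩ := h₁.bd
    obtain ⟨A₂, hA₂⟩ := h₂.bd
    refine ⟨|α| * A₁ + |β| * A₂, fun t ht => ?_⟩
    unfold lin
    refine (norm_add_le _ _).trans ?_
    rw [norm_mul, norm_mul, Complex.norm_real, Complex.norm_real, Real.norm_eq_abs, Real.norm_eq_abs]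
    have e1 : |α| * ‖b₁ t‖ ≤ |α| * (A₁ * (1 + Real.log t) / t) := by
      gcongr
      exact hA₁ t ht
    have e2 : |β| * ‖b₂ t‖ ≤ |β| * (A₂ * (1 + Real.log t) / t) := by
      gcongr
      exact hA₂ t ht
    calc _ ≤ |α| * (A₁ * (1 + Real.log t) / t) + |β| * (A₂ * (1 + Real.log t) / t) := add_le_add e1 e2
      _ = _ := by ring
  · intro u hu
    obtain ⟨z₁, hz₁⟩ := h₁.conv u hu
    obtain ⟨z₂, hz₂⟩ := h₂.conv u hu
    refine ⟨α * z₁ + β * z₂, ?_⟩
    refine ((hz₁.const_mul α).add (hz₂.const_mul β)).congr' ?_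
    filter_upwards [eventually_ge_atTop 1] with K hK
    exact (II_lin h₁ h₂ α β u hK).symm
  · obtain ⟨C₁, hC₁⟩ := h₁.drift
    obtain ⟨C₂, hC₂⟩ := h₂.drift
    refine ⟨|α| * C₁ + |β| * C₂, fun u hu K hK => ?_⟩
    have e := II_lin h₁ h₂ α β u (K := K) (by omega)
    have g1 := hC₁ u hu K hK
    have g2 := hC₂ u hu K hK
    change |II (lin b₁ b₂ α β) u K| ≤ _
    rw [e]
    refine (abs_add_le _ _).trans ?_
    rw [abs_mul, abs_mul]
    exact add_le_add (mul_le_mul_of_nonneg_left g1 (abs_nonneg _))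
      (mul_le_mul_of_nonneg_left g2 (abs_nonneg _))

theorem partW_lin (α β : ℝ) (K : ℕ) (u : ℝ) :
    partW (lin b₁ b₂ α β) x K u = α * partW b₁ x K u + β * partW b₂ x K u := by
  unfold partW lin
  rw [mul_sum, mul_sum, ← sum_add_distrib]
  apply sum_congr rfl
  intro n _
  rw [mul_sum, mul_sum, ← sum_add_distrib]
  apply sum_congr rfl
  intro j _
  ring

theorem partW_lin_re (α β : ℝ) (K : ℕ) (u : ℝ) :
    (partW (lin b₁ b₂ α β) x K u).re = α * (partW b₁ x K u).re + β * (partW b₂ x K u).re := by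
  rw [partW_lin, Complex.add_re, Complex.re_ofReal_mul, Complex.re_ofReal_mul]

theorem IsW.intble_norm {b : ℝ → ℂ} {m : ℝ} (hb : IsW b m) {T : ℝ} (hT : 1 ≤ T) :
    IntervalIntegrable (fun t : ℝ => t * ‖b t‖) volume 1 T := by
  have h := (hb.intble 0 le_rfl hT).norm
  have h2 : IntervalIntegrable (fun t : ℝ => t * ‖Complex.exp ((0 * t : ℝ) * Complex.I) * b t‖) volume 1 T :=
    h.continuousOn_mul (by fun_prop)
  refine h2.congr ?_
  intro t _
  simp

/-- The mean is Lipschitz. -/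
theorem mean_lip (h₁ : IsW b₁ m₁) (h₂ : IsW b₂ m₂) {M : ℝ → ℝ → ℝ}
    (hM : ∀ α β : ℝ, Tendsto (fun T : ℝ => (∫ t in (1 : ℝ)..T, t * ‖lin b₁ b₂ α β t‖) / T) atTop
      (𝓝 (M α β))) (α β p q : ℝ) : |M α β - M p q| ≤ |α - p| * m₁ + |β - q| * m₂ := by
  have key : ∀ α β p q : ℝ, M α β - M p q ≤ |α - p| * m₁ + |β - q| * m₂ := by
    intro α β p q
    have w1 := isW_lin h₁ h₂ α β (hM α β)
    have w2 := isW_lin h₁ h₂ p q (hM p q)
    have hlim := (hM p q).add ((h₁.mean.const_mul |α - p|).add (h₂.mean.const_mul |β - q|))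
    have h3 : M α β ≤ M p q + (|α - p| * m₁ + |β - q| * m₂) := by
      refine le_of_tendsto_of_tendsto (hM α β) hlim ?_
      filter_upwards [eventually_ge_atTop 1] with T hT
      have hT0 : 0 < T := by linarith
      rw [← mul_div_assoc, ← mul_div_assoc, ← add_div, ← add_div]
      gcongr
      rw [← intervalIntegral.integral_const_mul, ← intervalIntegral.integral_const_mul,
        ← intervalIntegral.integral_add ((h₁.intble_norm hT).const_mul _)
          ((h₂.intble_norm hT).const_mul _),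
        ← intervalIntegral.integral_add (w2.intble_norm hT) (((h₁.intble_norm hT).const_mul _).add
          ((h₂.intble_norm hT).const_mul _))]
      apply intervalIntegral.integral_mono_on hT (w1.intble_norm hT) ((w2.intble_norm hT).add
        (((h₁.intble_norm hT).const_mul _).add ((h₂.intble_norm hT).const_mul _)))
      intro t ht
      have ht0 : 0 ≤ t := by linarith [ht.1]
      have e : lin b₁ b₂ α β t = lin b₁ b₂ p q t + (((α - p : ℝ) : ℂ) * b₁ t + ((β - q : ℝ) : ℂ) * b₂ t) := by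
        simp only [lin]
        push_cast
        ring
      have h4 : ‖lin b₁ b₂ α β t‖ ≤ ‖lin b₁ b₂ p q t‖ + (|α - p| * ‖b₁ t‖ + |β - q| * ‖b₂ t‖) := by
        rw [e]
        refine (norm_add_le _ _).trans (add_le_add le_rfl ((norm_add_le _ _).trans (le_of_eq ?_)))
        rw [norm_mul, norm_mul, Complex.norm_real, Complex.norm_real, Real.norm_eq_abs, Real.norm_eq_abs]
      calc t * ‖lin b₁ b₂ α β t‖ ≤ t * (‖lin b₁ b₂ p q t‖ + (|α - p| * ‖b₁ t‖ + |β - q| * ‖b₂ t‖)) := by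
            gcongr
        _ = _ := by ring
    linarith
  rw [abs_le]
  constructor
  · have := key p q α β
    rw [abs_sub_comm p α, abs_sub_comm q β] at this
    linarith
  · exact key α β p q

/-- From rational to real coefficients. -/
theorem ext_real (R₁ R₂ : ℝ → ℝ) (h : ℝ → ℝ → ℝ) (C : ℝ) (hC : 0 ≤ C)
    (hh : ∀ α β p q : ℝ, |h α β - h p q| ≤ C * |α - p| + C * |β - q|)
    (hU : ∀ p q : ℚ, ∀ b : ℝ, h p q < b → ∀ᶠ t : ℝ in atTop, |p * R₁ t + q * R₂ t| ≤ b)
    (hL : ∀ p q : ℚ, ∀ b : ℝ, 0 ≤ b → b < h p q → (∃ᶠ t : ℝ in atTop, b ≤ p * R₁ t + q * R₂ t) ∧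
      ∃ᶠ t : ℝ in atTop, p * R₁ t + q * R₂ t ≤ -b) (α β : ℝ) :
    (∀ b : ℝ, h α β < b → ∀ᶠ t : ℝ in atTop, |α * R₁ t + β * R₂ t| ≤ b) ∧
    ∀ b : ℝ, 0 ≤ b → b < h α β → (∃ᶠ t : ℝ in atTop, b ≤ α * R₁ t + β * R₂ t) ∧
      ∃ᶠ t : ℝ in atTop, α * R₁ t + β * R₂ t ≤ -b := by
  obtain ⟨A, hA0, hA⟩ : ∃ A : ℝ, 0 ≤ A ∧ ∀ᶠ t : ℝ in atTop, |R₁ t| ≤ A ∧ |R₂ t| ≤ A := by
    have h1 := hU 1 0 (|h ((1 : ℚ) : ℝ) ((0 : ℚ) : ℝ)| + 1) (by linarith [le_abs_self (h ((1 : ℚ) : ℝ) ((0 : ℚ) : ℝ))])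
    have h2 := hU 0 1 (|h ((0 : ℚ) : ℝ) ((1 : ℚ) : ℝ)| + 1) (by linarith [le_abs_self (h ((0 : ℚ) : ℝ) ((1 : ℚ) : ℝ))])
    refine ⟨(|h ((1 : ℚ) : ℝ) ((0 : ℚ) : ℝ)| + 1) + (|h ((0 : ℚ) : ℝ) ((1 : ℚ) : ℝ)| + 1), by positivity, ?_⟩
    filter_upwards [h1, h2] with t ht1 ht2
    simp only [Rat.cast_one, Rat.cast_zero, one_mul, zero_mul, add_zero, zero_add] at ht1 ht2 ⊢
    constructor
    · linarith [abs_nonneg (h 0 1)]
    · linarith [abs_nonneg (h 1 0)]
  have hdiff : ∀ p q δ : ℝ, |α - p| < δ → |β - q| < δ → ∀ᶠ t : ℝ in atTop,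
      |(α * R₁ t + β * R₂ t) - (p * R₁ t + q * R₂ t)| ≤ 2 * A * δ := by
    intro p q δ hp hq
    filter_upwards [hA] with t ht
    have e : (α * R₁ t + β * R₂ t) - (p * R₁ t + q * R₂ t) = (α - p) * R₁ t + (β - q) * R₂ t := by ring
    rw [e]
    refine (abs_add_le _ _).trans ?_
    rw [abs_mul, abs_mul]
    have g1 : |α - p| * |R₁ t| ≤ δ * A := mul_le_mul hp.le ht.1 (abs_nonneg _) ((abs_nonneg _).trans hp.le)
    have g2 : |β - q| * |R₂ t| ≤ δ * A := mul_le_mul hq.le ht.2 (abs_nonneg _) ((abs_nonneg _).trans hq.le)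
    linarith
  constructor
  · intro b hb
    set δ := (b - h α β) / (4 * (C + A + 1)) with hδ
    have hδ0 : 0 < δ := by
      apply div_pos <;> linarith
    have hδe : 4 * (C + A + 1) * δ = b - h α β := by
      rw [hδ]
      field_simp
    obtain ⟨p, hp⟩ := exists_rat_near α hδ0
    obtain ⟨q, hq⟩ := exists_rat_near β hδ0
    have h1 := abs_le.mp (hh α β p q)
    have h2 : C * |α - p| ≤ C * δ := mul_le_mul_of_nonneg_left hp.le hC
    have h3 : C * |β - q| ≤ C * δ := mul_le_mul_of_nonneg_left hq.le hC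
    filter_upwards [hU p q (h α β + 2 * C * δ + δ) (by linarith [h1.1]), hdiff p q δ hp hq] with t ht1 ht2
    have h4 : |α * R₁ t + β * R₂ t| ≤ |p * R₁ t + q * R₂ t| +
        |(α * R₁ t + β * R₂ t) - (p * R₁ t + q * R₂ t)| := by
      have := abs_add_le (p * R₁ t + q * R₂ t) ((α * R₁ t + β * R₂ t) - (p * R₁ t + q * R₂ t))
      rwa [add_sub_cancel] at this
    nlinarith [mul_nonneg hC hδ0.le, mul_nonneg hA0 hδ0.le]
  · intro b hb0 hb
    set δ := (h α β - b) / (4 * (C + A + 1)) with hδ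
    have hδ0 : 0 < δ := by
      apply div_pos <;> linarith
    have hδe : 4 * (C + A + 1) * δ = h α β - b := by
      rw [hδ]
      field_simp
    obtain ⟨p, hp⟩ := exists_rat_near α hδ0
    obtain ⟨q, hq⟩ := exists_rat_near β hδ0
    have h1 := abs_le.mp (hh α β p q)
    have h2 : C * |α - p| ≤ C * δ := mul_le_mul_of_nonneg_left hp.le hC
    have h3 : C * |β - q| ≤ C * δ := mul_le_mul_of_nonneg_left hq.le hC
    have h5 := mul_nonneg hC hδ0.le
    have h6 := mul_nonneg hA0 hδ0.le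
    obtain ⟨g1, g2⟩ := hL p q (h α β - 2 * C * δ - δ) (by nlinarith) (by linarith [h1.2])
    constructor
    · refine (g1.and_eventually (hdiff p q δ hp hq)).mono ?_
      rintro t ⟨ht1, ht2⟩
      have := (abs_le.mp ht2).1
      nlinarith
    · refine (g2.and_eventually (hdiff p q δ hp hq)).mono ?_
      rintro t ⟨ht1, ht2⟩
      have := (abs_le.mp ht2).2
      nlinarith

/-- From one-sided bounds to lower and upper limits. -/
theorem limits_of' (R : ℝ → ℝ) (B : ℝ) (hB : 0 ≤ B)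
    (hU : ∀ b : ℝ, B < b → ∀ᶠ x : ℝ in atTop, |R x| ≤ b)
    (hL : ∀ b : ℝ, 0 ≤ b → b < B → (∃ᶠ x : ℝ in atTop, b ≤ R x) ∧ ∃ᶠ x : ℝ in atTop, R x ≤ -b) :
    liminf (fun x : ℝ => ((R x : ℝ) : EReal)) atTop = ((-B : ℝ) : EReal) ∧
      limsup (fun x : ℝ => ((R x : ℝ) : EReal)) atTop = (B : EReal) := by
  rcases hB.lt_or_eq with hB | hB
  · exact limits_of R B hB hU hL
  · subst hB
    have h1 : Tendsto R atTop (𝓝 0) := by
      rw [Metric.tendsto_nhds]
      intro e he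
      filter_upwards [hU (e / 2) (by linarith)] with t ht
      rw [Real.dist_eq, sub_zero]
      linarith
    have h2 : Tendsto (fun x : ℝ => ((R x : ℝ) : EReal)) atTop (𝓝 ((0 : ℝ) : EReal)) :=
      (continuous_coe_real_ereal.tendsto 0).comp h1
    rw [neg_zero]
    exact ⟨h2.liminf_eq, h2.limsup_eq⟩

/-- The limits for a good sample, for all real linear combinations. -/
theorem lin_limits {M : ℝ → ℝ → ℝ} (h₁ : IsW b₁ m₁) (h₂ : IsW b₂ m₂)
    (hM : ∀ α β : ℝ, Tendsto (fun T : ℝ => (∫ t in (1 : ℝ)..T, t * ‖lin b₁ b₂ α β t‖) / T) atTop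
      (𝓝 (M α β))) {c : ℝ} (hc : 0 ≤ c)
    (hg : ∀ p q : ℚ, GoodW (c * M p q) (lin b₁ b₂ p q) x) :
    ∃ y₁ y₂ : ℝ → ℝ, (∀ u : ℝ, 0 < u → Tendsto (fun K => (partW b₁ x K u).re) atTop (𝓝 (y₁ u))) ∧
      (∀ u : ℝ, 0 < u → Tendsto (fun K => (partW b₂ x K u).re) atTop (𝓝 (y₂ u))) ∧
      ∀ a α β : ℝ,
      liminf (fun t : ℝ => (((α * (2 * y₁ (Real.log t)) + β * (a + 2 * y₂ (Real.log t))) /
        Real.log (Real.log (Real.log t)) ^ (5 / 4 : ℝ) : ℝ) : EReal)) atTop =
          ((-(2 * c * M α β) : ℝ) : EReal) ∧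
      limsup (fun t : ℝ => (((α * (2 * y₁ (Real.log t)) + β * (a + 2 * y₂ (Real.log t))) /
        Real.log (Real.log (Real.log t)) ^ (5 / 4 : ℝ) : ℝ) : EReal)) atTop =
          ((2 * c * M α β : ℝ) : EReal) := by
  classical
  have hM0 : ∀ α β : ℝ, 0 ≤ M α β := by
    intro α β
    refine ge_of_tendsto (hM α β) ?_
    filter_upwards [eventually_ge_atTop 1] with T hT
    apply div_nonneg _ (by linarith)
    apply intervalIntegral.integral_nonneg hT
    intro t ht
    have : 0 ≤ t := by linarith [ht.1]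
    positivity
  have hm₁ : 0 ≤ m₁ := by
    refine ge_of_tendsto h₁.mean ?_
    filter_upwards [eventually_ge_atTop 1] with T hT
    apply div_nonneg _ (by linarith)
    apply intervalIntegral.integral_nonneg hT
    intro t ht
    have : 0 ≤ t := by linarith [ht.1]
    positivity
  have hm₂ : 0 ≤ m₂ := by
    refine ge_of_tendsto h₂.mean ?_
    filter_upwards [eventually_ge_atTop 1] with T hT
    apply div_nonneg _ (by linarith)
    apply intervalIntegral.integral_nonneg hT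
    intro t ht
    have : 0 ≤ t := by linarith [ht.1]
    positivity
  have hw : ∀ α β : ℝ, IsW (lin b₁ b₂ α β) (M α β) := fun α β => isW_lin h₁ h₂ α β (hM α β)
  have e10 : lin b₁ b₂ ((1 : ℚ) : ℝ) ((0 : ℚ) : ℝ) = b₁ := by
    funext t
    simp [lin]
  have e01 : lin b₁ b₂ ((0 : ℚ) : ℝ) ((1 : ℚ) : ℝ) = b₂ := by
    funext t
    simp [lin]
  have hex₁ : ∀ u : ℝ, 0 < u → ∃ y : ℝ, Tendsto (fun K => (partW b₁ x K u).re) atTop (𝓝 y) := fun u hu => by
    have := partW_conv (hw ((1 : ℚ) : ℝ) ((0 : ℚ) : ℝ)) (hg 1 0) hu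
    rwa [e10] at this
  have hex₂ : ∀ u : ℝ, 0 < u → ∃ y : ℝ, Tendsto (fun K => (partW b₂ x K u).re) atTop (𝓝 y) := fun u hu => by
    have := partW_conv (hw ((0 : ℚ) : ℝ) ((1 : ℚ) : ℝ)) (hg 0 1) hu
    rwa [e01] at this
  set y₁ : ℝ → ℝ := fun u => if hu : 0 < u then (hex₁ u hu).choose else 0 with hy₁
  set y₂ : ℝ → ℝ := fun u => if hu : 0 < u then (hex₂ u hu).choose else 0 with hy₂
  have ht₁ : ∀ u : ℝ, 0 < u → Tendsto (fun K => (partW b₁ x K u).re) atTop (𝓝 (y₁ u)) := by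
    intro u hu
    simp only [hy₁]
    rw [dif_pos hu]
    exact (hex₁ u hu).choose_spec
  have ht₂ : ∀ u : ℝ, 0 < u → Tendsto (fun K => (partW b₂ x K u).re) atTop (𝓝 (y₂ u)) := by
    intro u hu
    simp only [hy₂]
    rw [dif_pos hu]
    exact (hex₂ u hu).choose_spec
  refine ⟨y₁, y₂, ht₁, ht₂, fun a α β => ?_⟩
  have ht : ∀ (α β u : ℝ), 0 < u → Tendsto (fun K => (partW (lin b₁ b₂ α β) x K u).re) atTop
      (𝓝 (α * y₁ u + β * y₂ u)) := by
    intro α β u hu
    refine (((ht₁ u hu).const_mul α).add ((ht₂ u hu).const_mul β)).congr fun K => ?_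
    rw [partW_lin_re]
  have hlll : ∀ᶠ u : ℝ in atTop, 0 < Real.log (Real.log u) :=
    (Real.tendsto_log_atTop.comp Real.tendsto_log_atTop).eventually_gt_atTop 0
  have hpw : Tendsto (fun u : ℝ => Real.log (Real.log u) ^ (5 / 4 : ℝ)) atTop atTop :=
    (tendsto_rpow_atTop (by norm_num)).comp (Real.tendsto_log_atTop.comp Real.tendsto_log_atTop)
  have h0 : Tendsto (fun t : ℝ => Real.log t) atTop atTop := Real.tendsto_log_atTop
  -- the functions
  set R₁ : ℝ → ℝ := fun t => 2 * y₁ (Real.log t) / Real.log (Real.log (Real.log t)) ^ (5 / 4 : ℝ) with hR₁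
  set R₂ : ℝ → ℝ := fun t => (a + 2 * y₂ (Real.log t)) / Real.log (Real.log (Real.log t)) ^ (5 / 4 : ℝ)
    with hR₂
  have hmain := ext_real R₁ R₂ (fun α β => 2 * c * M α β) (2 * c * (m₁ + m₂)) (by positivity) (by
      intro α β p q
      have h1 := mean_lip h₁ h₂ hM α β p q
      have e : 2 * c * M α β - 2 * c * M p q = 2 * c * (M α β - M p q) := by ring
      rw [e, abs_mul, abs_of_nonneg (by positivity : 0 ≤ 2 * c)]
      have h2 : |α - p| * m₁ + |β - q| * m₂ ≤ (m₁ + m₂) * |α - p| + (m₁ + m₂) * |β - q| := by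
        nlinarith [abs_nonneg (α - p), abs_nonneg (β - q), mul_nonneg hm₂ (abs_nonneg (α - p)),
          mul_nonneg hm₁ (abs_nonneg (β - q))]
      calc 2 * c * |M α β - M p q| ≤ 2 * c * ((m₁ + m₂) * |α - p| + (m₁ + m₂) * |β - q|) := by
            gcongr
            exact h1.trans h2
        _ = _ := by ring)
    (by
      intro p q β' hβ'
      have hβ : 2 * (c * M p q) < β' := by linarith
      have h1 := upperW_all (hw p q) (hg p q) ((β' + 2 * (c * M p q)) / 2) (by linarith)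
      have hc' : ∀ᶠ u : ℝ in atTop, |q * a / Real.log (Real.log u) ^ (5 / 4 : ℝ)| <
          (β' - 2 * (c * M p q)) / 2 := by
        have := (hpw.const_div_atTop (q * a)).abs
        rw [abs_zero] at this
        exact this.eventually_lt_const (by linarith)
      have h2 : ∀ᶠ u : ℝ in atTop, |p * (2 * y₁ u / Real.log (Real.log u) ^ (5 / 4 : ℝ)) +
          q * ((a + 2 * y₂ u) / Real.log (Real.log u) ^ (5 / 4 : ℝ))| ≤ β' := by
        filter_upwards [h1, hlll, eventually_gt_atTop 0, hc'] with u hu1 hu2 hu3 hu4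
        have hp : 0 < Real.log (Real.log u) ^ (5 / 4 : ℝ) := Real.rpow_pos_of_pos hu2 _
        have h3 : |2 * (p * y₁ u + q * y₂ u) / Real.log (Real.log u) ^ (5 / 4 : ℝ)| ≤
            (β' + 2 * (c * M p q)) / 2 := by
          rw [abs_div, abs_of_pos hp, div_le_iff₀ hp, abs_mul, abs_two]
          exact hu1 _ (ht p q u hu3)
        have h4 := abs_add_le (2 * (p * y₁ u + q * y₂ u) / Real.log (Real.log u) ^ (5 / 4 : ℝ))
          (q * a / Real.log (Real.log u) ^ (5 / 4 : ℝ))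
        have e : p * (2 * y₁ u / Real.log (Real.log u) ^ (5 / 4 : ℝ)) +
          q * ((a + 2 * y₂ u) / Real.log (Real.log u) ^ (5 / 4 : ℝ)) =
          2 * (p * y₁ u + q * y₂ u) / Real.log (Real.log u) ^ (5 / 4 : ℝ) +
          q * a / Real.log (Real.log u) ^ (5 / 4 : ℝ) := by ring
        rw [e]
        linarith
      exact h0.eventually h2)
    (by
      intro p q β' hβ0 hβ'
      have hβ : β' < 2 * (c * M p q) := by linarith
      have key : ∀ s : ℝ, |s| = 1 → ∃ᶠ t : ℝ in atTop, β' ≤ s * (p * R₁ t + q * R₂ t) := by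
        intro s hs
        have h1 := lowerW_all (hw p q) (hg p q) (mul_nonneg hc (hM0 _ _))
          ((β' + 2 * (c * M p q)) / 2) (by linarith) (by linarith) s hs
        have hc' : ∀ᶠ u : ℝ in atTop, |q * a / Real.log (Real.log u) ^ (5 / 4 : ℝ)| <
            (2 * (c * M p q) - β') / 2 := by
          have := (hpw.const_div_atTop (q * a)).abs
          rw [abs_zero] at this
          exact this.eventually_lt_const (by linarith)
        have h2 : ∃ᶠ u : ℝ in atTop, β' ≤ s * (p * (2 * y₁ u / Real.log (Real.log u) ^ (5 / 4 : ℝ)) +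
            q * ((a + 2 * y₂ u) / Real.log (Real.log u) ^ (5 / 4 : ℝ))) := by
          refine (h1.and_eventually (hlll.and ((eventually_gt_atTop 0).and hc'))).mono ?_
          rintro u ⟨hu1, hu2, hu3, hu4⟩
          have hp : 0 < Real.log (Real.log u) ^ (5 / 4 : ℝ) := Real.rpow_pos_of_pos hu2 _
          have h3 := hu1 _ (ht p q u hu3)
          rw [← le_div_iff₀ hp] at h3
          have h4 : |s * (q * a / Real.log (Real.log u) ^ (5 / 4 : ℝ))| < (2 * (c * M p q) - β') / 2 := by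
            rw [abs_mul, hs, one_mul]
            exact hu4
          have h5 := neg_abs_le (s * (q * a / Real.log (Real.log u) ^ (5 / 4 : ℝ)))
          have e : s * (p * (2 * y₁ u / Real.log (Real.log u) ^ (5 / 4 : ℝ)) +
            q * ((a + 2 * y₂ u) / Real.log (Real.log u) ^ (5 / 4 : ℝ))) =
            2 * (s * (p * y₁ u + q * y₂ u)) / Real.log (Real.log u) ^ (5 / 4 : ℝ) +
            s * (q * a / Real.log (Real.log u) ^ (5 / 4 : ℝ)) := by ring
          rw [e]
          linarith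
        refine Real.tendsto_exp_atTop.frequently ?_
        refine h2.mono fun u hu => ?_
        simp only [hR₁, hR₂, Real.log_exp]
        exact hu
      constructor
      · refine (key 1 (by simp)).mono fun t ht => ?_
        rwa [one_mul] at ht
      · refine (key (-1) (by simp)).mono fun t ht => ?_
        linarith) α β
  have hfin := limits_of' (fun t => α * R₁ t + β * R₂ t) (2 * c * M α β)
    (mul_nonneg (by positivity) (hM0 _ _)) hmain.1 hmain.2
  have e : (fun t : ℝ => (((α * (2 * y₁ (Real.log t)) + β * (a + 2 * y₂ (Real.log t))) /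
        Real.log (Real.log (Real.log t)) ^ (5 / 4 : ℝ) : ℝ) : EReal)) =
      fun t : ℝ => ((α * R₁ t + β * R₂ t : ℝ) : EReal) := by
    funext t
    simp only [hR₁, hR₂]
    congr 1
    ring
  rw [e]
  exact hfin

end Pool.Agent.Helper66.RMT
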