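import Pool.Agent.Helper95.RMT.Lim
import Pool.Agent.Helper96.RMT.Tail2
import Pool.Agent.Helper99.RMT.A5
import Pool.Agent.Helper11.RMT.A4

/-!
# Random matrix model: the blocks about one matrix, collected
-/

set_option autoImplicit false

namespace Pool.Agent.Helper66.RMT

open MeasureTheory ProbabilityTheory Filter Finset Topology

theorem measurable_amp (N : ℕ) : Measurable (amp : (Fin N → ℝ) → ℝ) := meas_ampM N

/-- A5. Small values of linear forms. -/
theorem lin_small {N : ℕ} (m : Fin N → ℤ) (hm : m ≠ 0) (c δ : ℝ) (hδ : 0 < δ) :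
    cue N {θ | |∑ j, (m j : ℝ) * θ j + c| < δ} ≤ ENNReal.ofReal (4 ^ N * δ) :=
  lin_small_of cue_prob m hm c δ hδ

/-- A4. The exponential moment of one block. -/
theorem mgf : MGF := fun N hN u hu α l =>
  block_mgf_of (cue_prob N) (ae_distinct N) (fun θ h => lagr hN θ h) u hu α l

end Pool.Agent.Helper66.RMT
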