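import Mathlib

/-!
# Random matrix model (MP_a499ba_nt): definitions

`cue N` is the law of the eigenangles in `[0, 2π)^N` of a Haar distributed unitary matrix of size `N` (Weyl's density),
`dz θ j = Z'(θ_j)` the derivative of the characteristic polynomial at an eigenangle (without the factor `i`).
-/

set_option autoImplicit false

namespace Pool.Agent.Helper66.RMT

open MeasureTheory ProbabilityTheory Filter Finset

/-- The box `[0, 2π)^N`. -/
def box (N : ℕ) : Set (Fin N → ℝ) := Set.pi Set.univ fun _ => Set.Ico 0 (2 * Real.pi)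

/-- The weight `∏_{j < k} |e^{iθ_j} - e^{iθ_k}|²`. -/
noncomputable def vdm {N : ℕ} (θ : Fin N → ℝ) : ℝ :=
  ∏ j, ∏ k ∈ Ioi j, ‖Complex.exp (θ j * Complex.I) - Complex.exp (θ k * Complex.I)‖ ^ 2

/-- The law of the eigenangles of a Haar unitary matrix of size `N`. -/
noncomputable def cue (N : ℕ) : Measure (Fin N → ℝ) :=
  (volume.restrict (box N)).withDensity
    fun θ => ENNReal.ofReal (vdm θ / (N.factorial * (2 * Real.pi) ^ N))

/-- `Z'(θ_j) = ∏_{k ≠ j} (1 - e^{i(θ_k - θ_j)})`. -/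
noncomputable def dz {N : ℕ} (θ : Fin N → ℝ) (j : Fin N) : ℂ :=
  ∏ k ∈ univ.erase j, (1 - Complex.exp ((θ k - θ j : ℝ) * Complex.I))

/-- `∑_j 1 / |Z'(θ_j)|`. -/
noncomputable def amp {N : ℕ} (θ : Fin N → ℝ) : ℝ := ∑ j, 1 / ‖dz θ j‖

/-- `a_j = Γ(j) Γ(j+1) / Γ(j+1/2)²`. -/
noncomputable def aa (j : ℕ) : ℝ :=
  Real.Gamma j * Real.Gamma (j + 1) / Real.Gamma (j + 1 / 2) ^ 2

/-- `∑_j e^{iuθ_j} / Z'(θ_j)`. -/
noncomputable def ff {N : ℕ} (θ : Fin N → ℝ) (u : ℝ) : ℂ :=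
  ∑ j, Complex.exp ((u * θ j : ℝ) * Complex.I) / dz θ j

/-- `(e^{2πiu} - 1) / (2πiu)`, the mean of `ff` over rotations. -/
noncomputable def mu (u : ℝ) : ℂ :=
  (Complex.exp ((2 * Real.pi * u : ℝ) * Complex.I) - 1) / ((2 * Real.pi * u : ℝ) * Complex.I)

/-- The size of the matrix for the heights `[2πn, 2π(n+1))`. -/
noncomputable def sz (n : ℕ) : ℕ := ⌊Real.log n⌋₊

end Pool.Agent.Helper66.RMT
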