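import Pool.Agent.Helper66.RMT.Lln

/-!
# Random matrix model: block B1, second part
-/

set_option autoImplicit false

namespace Pool.Agent.Helper66.RMT

open MeasureTheory ProbabilityTheory Filter Finset Topology

/-- The mean of `amp (θ n)`. -/
noncomputable def bb (n : ℕ) : ℝ := if sz n = 0 then 0 else ∏ j ∈ Icc 1 (sz n - 1), aa j

theorem sz_tendsto : Tendsto sz atTop atTop := by
  unfold sz
  exact tendsto_nat_floor_atTop.comp (Real.tendsto_log_atTop.comp tendsto_natCast_atTop_atTop)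

theorem bb_lim {κ : ℝ}
    (hκ : Tendsto (fun N : ℕ => (∏ j ∈ Icc 1 N, aa j) / (N : ℝ) ^ (1 / 4 : ℝ)) atTop (𝓝 κ)) :
    Tendsto (fun n : ℕ => bb n / Real.log n ^ (1 / 4 : ℝ)) atTop (𝓝 κ) := by
  have h1 : Tendsto (fun n : ℕ => sz n - 1) atTop atTop :=
    (tendsto_sub_atTop_nat 1).comp sz_tendsto
  have h2 := hκ.comp h1
  have hlog : Tendsto (fun n : ℕ => Real.log n) atTop atTop :=
    Real.tendsto_log_atTop.comp tendsto_natCast_atTop_atTop
  -- the ratio of `sz n - 1` and `log n`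
  have h3 : Tendsto (fun n : ℕ => ((sz n - 1 : ℕ) : ℝ) / Real.log n) atTop (𝓝 1) := by
    have h4 : Tendsto (fun n : ℕ => 1 - 2 / Real.log n) atTop (𝓝 (1 - 0)) :=
      tendsto_const_nhds.sub (hlog.const_div_atTop 2)
    rw [sub_zero] at h4
    refine tendsto_of_tendsto_of_tendsto_of_le_of_le' h4 tendsto_const_nhds ?_ ?_
    · filter_upwards [hlog.eventually_ge_atTop 3] with n hn
      have hs : Real.log n < sz n + 1 := Nat.lt_floor_add_one _
      have hs1 : 1 ≤ sz n := by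
        have : (1 : ℝ) < sz n := by linarith
        exact_mod_cast this.le
      rw [Nat.cast_sub hs1, le_div_iff₀ (by linarith), sub_mul, div_mul_cancel₀ _ (by linarith)]
      push_cast
      linarith
    · filter_upwards [hlog.eventually_ge_atTop 3] with n hn
      rw [div_le_one (by linarith)]
      calc ((sz n - 1 : ℕ) : ℝ) ≤ sz n := by exact_mod_cast Nat.sub_le _ _
        _ ≤ Real.log n := sz_le_log n
  have h5 := h2.mul (h3.rpow_const (p := 1 / 4) (Or.inl one_ne_zero))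
  rw [Real.one_rpow, mul_one] at h5
  refine h5.congr' ?_
  filter_upwards [hlog.eventually_ge_atTop 3] with n hn
  have hs : Real.log n < sz n + 1 := Nat.lt_floor_add_one _
  have hs2 : 2 < (sz n : ℝ) := by linarith
  have hs1 : 2 < sz n := by exact_mod_cast hs2
  have hpos : (0 : ℝ) < ((sz n - 1 : ℕ) : ℝ) := by
    have : 0 < sz n - 1 := by omega
    exact_mod_cast this
  have hb : bb n = ∏ j ∈ Icc 1 (sz n - 1), aa j := by
    unfold bb
    rw [if_neg (by omega)]
  simp only [Function.comp]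
  rw [hb, Real.div_rpow hpos.le (by linarith)]
  have h6 : 0 < (((sz n - 1 : ℕ) : ℝ)) ^ (1 / 4 : ℝ) := Real.rpow_pos_of_pos hpos _
  have h7 : 0 < Real.log n ^ (1 / 4 : ℝ) := Real.rpow_pos_of_pos (by linarith) _
  field_simp

section

variable {Ω : Type*} [MeasurableSpace Ω] (P : Measure Ω) [IsProbabilityMeasure P]
  (θ : (n : ℕ) → Ω → (Fin (sz n) → ℝ)) (hm : ∀ n, Measurable (θ n)) (hi : iIndepFun θ P)
  (hl : ∀ n, P.map (θ n) = cue (sz n))

include hm hl

theorem amp_int (n : ℕ) : Integrable (fun ω => amp (θ n ω)) P ∧ ∫ ω, amp (θ n ω) ∂P = bb n := by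
  have hg := measurable_amp (sz n)
  rcases Nat.eq_zero_or_pos (sz n) with h0 | h0
  · have hz : ∀ ω, amp (θ n ω) = 0 := by
      intro ω
      unfold amp
      have : IsEmpty (Fin (sz n)) := by rw [h0]; infer_instance
      exact Finset.sum_of_isEmpty _
    constructor
    · simp_rw [hz]
      exact integrable_zero _ _ _
    · simp_rw [hz]
      unfold bb
      rw [if_pos h0]
      simp
  · have h1 := amp_mean (sz n) h0
    refine ⟨integrable_law P θ hm hl n hg h1.1, ?_⟩
    rw [integral_law P θ hm hl n hg, h1.2]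
    unfold bb
    rw [if_neg (by omega)]

include hi

theorem lln' (κ : ℝ)
    (hκ : Tendsto (fun N : ℕ => (∏ j ∈ Icc 1 N, aa j) / (N : ℝ) ^ (1 / 4 : ℝ)) atTop (𝓝 κ)) :
    ∀ᵐ ω ∂P, Tendsto (fun K : ℕ => (∑ n ∈ range K, amp (θ n ω) / n) / Real.log K ^ (5 / 4 : ℝ)) atTop
      (𝓝 (4 / 5 * κ)) := by
  -- the variables
  set Y : ℕ → Ω → ℝ := fun n ω => amp (θ n ω) / n with hY
  have hYm : ∀ n, Measurable (Y n) := fun n => ((measurable_amp _).comp (hm n)).div_const _
  have hYsq : ∀ n, Integrable (fun ω => Y n ω ^ 2) P := by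
    intro n
    have h1 := (amp_sq_int P θ hm hl n).1.div_const ((n : ℝ) ^ 2)
    refine h1.congr (ae_of_all _ fun ω => ?_)
    simp only [hY, div_pow]
  have hYL : ∀ n, MemLp (Y n) 2 P := fun n =>
    (memLp_two_iff_integrable_sq (hYm n).aestronglyMeasurable).mpr (hYsq n)
  have hYmean : ∀ n, ∫ ω, Y n ω ∂P = bb n / n := by
    intro n
    simp only [hY]
    rw [integral_div, (amp_int P θ hm hl n).2]
  have hYi : ∀ m n, m ≠ n → IndepFun (Y m) (Y n) P := by
    intro m n hmn
    have h1 := hi.indepFun hmn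
    exact h1.comp ((measurable_amp (sz m)).div_const _) ((measurable_amp (sz n)).div_const _)
  -- variances
  have hs : Summable fun n : ℕ => (sz n : ℝ) / (n : ℝ) ^ 2 := by
    have h1 : Summable fun n : ℕ => 2 * (1 / (n : ℝ) ^ (3 / 2 : ℝ)) :=
      ((Real.summable_one_div_nat_rpow).mpr (by norm_num)).mul_left _
    refine Summable.of_nonneg_of_le (fun n => by positivity) (fun n => ?_) h1
    rcases Nat.eq_zero_or_pos n with rfl | hn
    · have h2 : (0 : ℝ) ^ (3 / 2 : ℝ) = 0 := Real.zero_rpow (by norm_num)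
      simp [h2]
    have hn' : (0 : ℝ) < n := by exact_mod_cast hn
    have h2 : (sz n : ℝ) ≤ (n : ℝ) ^ (1 / 2 : ℝ) / (1 / 2) :=
      (sz_le_log n).trans (Real.log_le_rpow_div hn'.le (by norm_num))
    have h3 : (n : ℝ) ^ 2 = (n : ℝ) ^ (3 / 2 : ℝ) * (n : ℝ) ^ (1 / 2 : ℝ) := by
      rw [← Real.rpow_add hn']
      norm_num
    have h4 : (0 : ℝ) < (n : ℝ) ^ (1 / 2 : ℝ) := Real.rpow_pos_of_pos hn' _
    have h5 : (0 : ℝ) < (n : ℝ) ^ (3 / 2 : ℝ) := Real.rpow_pos_of_pos hn' _
    calc (sz n : ℝ) / (n : ℝ) ^ 2 ≤ ((n : ℝ) ^ (1 / 2 : ℝ) / (1 / 2)) / (n : ℝ) ^ 2 := by gcongr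
      _ = 2 * (1 / (n : ℝ) ^ (3 / 2 : ℝ)) := by
          rw [h3]
          field_simp
  set V := ∑' n : ℕ, (sz n : ℝ) / (n : ℝ) ^ 2 with hV
  have hvar : ∀ K : ℕ, Var[∑ n ∈ range K, Y n; P] ≤ V := by
    intro K
    rw [IndepFun.variance_sum (fun n _ => hYL n) (fun m _ n _ hmn => hYi m n hmn)]
    calc ∑ n ∈ range K, Var[Y n; P] ≤ ∑ n ∈ range K, (sz n : ℝ) / (n : ℝ) ^ 2 := by
          apply sum_le_sum
          intro n _
          refine (variance_le_expectation_sq (hYm n).aestronglyMeasurable).trans ?_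
          have h1 : ∫ ω, (Y n ^ 2) ω ∂P = (∫ ω, amp (θ n ω) ^ 2 ∂P) / (n : ℝ) ^ 2 := by
            rw [← integral_div]
            apply integral_congr_ae
            exact ae_of_all _ fun ω => by simp only [hY, Pi.pow_apply, div_pow]
          rw [h1]
          gcongr
          exact (amp_sq_int P θ hm hl n).2
      _ ≤ V := hs.sum_le_tsum _ fun n _ => by positivity
  -- partial sums
  set S : ℕ → Ω → ℝ := fun K ω => ∑ n ∈ range K, Y n ω with hS
  set M : ℕ → ℝ := fun K => ∑ n ∈ range K, bb n / n with hM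
  have hSM : ∀ K, ∫ ω, (∑ n ∈ range K, Y n) ω ∂P = M K := by
    intro K
    simp only [Finset.sum_apply]
    rw [integral_finsetSum _ fun n _ => (hYL n).integrable (by norm_num)]
    exact sum_congr rfl fun n _ => hYmean n
  have hprob : ∀ j : ℕ, 1 ≤ j → P {ω | (j : ℝ) ≤ |S (2 ^ j) ω - M (2 ^ j)|} ≤
      ENNReal.ofReal (V / (j : ℝ) ^ 2) := by
    intro j hj
    have hj' : (0 : ℝ) < j := by exact_mod_cast hj
    have hL : MemLp (∑ n ∈ range (2 ^ j), Y n) 2 P := memLp_finsetSum' _ fun n _ => hYL n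
    have h1 := meas_ge_le_variance_div_sq hL hj'
    rw [hSM] at h1
    refine le_trans (le_of_eq ?_) (h1.trans ?_)
    · congr 1
      ext ω
      simp [hS]
    · apply ENNReal.ofReal_le_ofReal
      gcongr
      exact hvar _
  have hBC : ∀ᵐ ω ∂P, ∀ᶠ j : ℕ in atTop, ω ∉ {ω | (j : ℝ) ≤ |S (2 ^ j) ω - M (2 ^ j)|} := by
    apply ae_eventually_notMem
    have h1 : ∑' j : ℕ, P {ω | (j : ℝ) ≤ |S (2 ^ j) ω - M (2 ^ j)|} ≤
        ∑' j : ℕ, (if j = 0 then 1 else ENNReal.ofReal (V / (j : ℝ) ^ 2)) := by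
      refine ENNReal.tsum_le_tsum fun j => ?_
      rcases Nat.eq_zero_or_pos j with h | h
      · rw [if_pos h]
        exact prob_le_one
      · rw [if_neg (by omega)]
        exact hprob j h
    have hVn : 0 ≤ V := tsum_nonneg fun n => by positivity
    have h2 : Summable fun j : ℕ => V / (j : ℝ) ^ 2 := by
      have := ((Real.summable_one_div_nat_pow (p := 2)).mpr (by norm_num)).mul_left V
      refine this.congr fun j => ?_
      ring
    have h3 : ∑' j : ℕ, (if j = 0 then 1 else ENNReal.ofReal (V / (j : ℝ) ^ 2)) ≤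
        1 + ∑' j : ℕ, ENNReal.ofReal (V / (j : ℝ) ^ 2) := by
      calc _ ≤ ∑' j : ℕ, ((if j = 0 then 1 else 0) + ENNReal.ofReal (V / (j : ℝ) ^ 2)) := by
            refine ENNReal.tsum_le_tsum fun j => ?_
            split_ifs
            · exact le_self_add
            · exact le_add_self
        _ = _ := by
            rw [ENNReal.tsum_add, tsum_ite_eq]
    refine ne_top_of_le_ne_top ?_ (h1.trans h3)
    rw [← ENNReal.ofReal_tsum_of_nonneg (fun j => by positivity) h2]
    exact ENNReal.add_ne_top.mpr ⟨ENNReal.one_ne_top, ENNReal.ofReal_ne_top⟩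
  have hMlim := sum_asymp (bb_lim hκ)
  filter_upwards [hBC] with ω hω
  have hmono : Monotone fun K => S K ω := by
    intro a b hab
    apply sum_le_sum_of_subset_of_nonneg (range_mono hab)
    intro n _ _
    have := amp_nonneg (θ n ω)
    positivity
  -- along powers of two
  have hpow : Tendsto (fun j : ℕ => (2 : ℕ) ^ j) atTop atTop :=
    tendsto_pow_atTop_atTop_of_one_lt (by norm_num)
  have hlogpow : ∀ j : ℕ, Real.log ((2 ^ j : ℕ) : ℝ) = j * Real.log 2 := by
    intro j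
    push_cast
    rw [Real.log_pow]
  have hl2 : 0 < Real.log 2 := Real.log_pos (by norm_num)
  have herr : Tendsto (fun j : ℕ => (S (2 ^ j) ω - M (2 ^ j)) / Real.log ((2 ^ j : ℕ) : ℝ) ^ (5 / 4 : ℝ))
      atTop (𝓝 0) := by
    have h1 : Tendsto (fun j : ℕ => (Real.log 2 ^ (5 / 4 : ℝ))⁻¹ * ((j : ℝ) ^ (1 / 4 : ℝ))⁻¹) atTop
        (𝓝 ((Real.log 2 ^ (5 / 4 : ℝ))⁻¹ * 0)) := by
      apply Tendsto.const_mul
      exact ((tendsto_rpow_atTop (by norm_num)).comp tendsto_natCast_atTop_atTop).inv_tendsto_atTop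
    rw [mul_zero] at h1
    refine squeeze_zero_norm' ?_ h1
    filter_upwards [hω, eventually_ge_atTop 1] with j hj hj1
    simp only [not_le] at hj
    have hj' : (0 : ℝ) < j := by exact_mod_cast hj1
    rw [hlogpow, norm_div, Real.norm_eq_abs, Real.norm_eq_abs, Real.mul_rpow hj'.le hl2.le,
      abs_of_pos (a := (j : ℝ) ^ (5 / 4 : ℝ) * Real.log 2 ^ (5 / 4 : ℝ)) (by positivity),
      div_le_iff₀ (by positivity)]
    refine hj.le.trans (le_of_eq ?_)
    have h2 : (j : ℝ) ^ (5 / 4 : ℝ) = j * (j : ℝ) ^ (1 / 4 : ℝ) := by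
      rw [← Real.rpow_one_add' hj'.le (by norm_num)]
      norm_num
    rw [h2]
    have h3 : 0 < (j : ℝ) ^ (1 / 4 : ℝ) := Real.rpow_pos_of_pos hj' _
    have h4 : 0 < Real.log 2 ^ (5 / 4 : ℝ) := Real.rpow_pos_of_pos hl2 _
    field_simp
  have hsub : Tendsto (fun j : ℕ => S (2 ^ j) ω / Real.log ((2 ^ j : ℕ) : ℝ) ^ (5 / 4 : ℝ)) atTop
      (𝓝 (4 / 5 * κ)) := by
    have h1 := (hMlim.comp hpow).add herr
    rw [add_zero] at h1
    refine h1.congr fun j => ?_
    simp only [Function.comp, hM]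
    ring
  -- interpolation
  have hll : Tendsto (fun K : ℕ => Nat.log 2 K) atTop atTop := by
    rw [tendsto_atTop]
    intro b
    filter_upwards [eventually_ge_atTop (2 ^ b)] with K hK
    exact Nat.le_log_of_pow_le (by norm_num) hK
  have hq : Tendsto (fun j : ℕ => ((j : ℝ) / (j + 1)) ^ (5 / 4 : ℝ)) atTop (𝓝 1) := by
    have := (tendsto_natCast_div_add_atTop (1 : ℝ)).rpow_const (p := 5 / 4) (Or.inl one_ne_zero)
    rwa [Real.one_rpow] at this
  have hlow := ((hsub.mul hq).comp hll)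
  have hqi : Tendsto (fun j : ℕ => (((j : ℝ) + 1) / j) ^ (5 / 4 : ℝ)) atTop (𝓝 1) := by
    have h1 : Tendsto (fun j : ℕ => ((j : ℝ) / (j + 1))⁻¹) atTop (𝓝 1⁻¹) :=
      (tendsto_natCast_div_add_atTop (1 : ℝ)).inv₀ one_ne_zero
    rw [inv_one] at h1
    have h2 := h1.rpow_const (p := 5 / 4) (Or.inl one_ne_zero)
    rw [Real.one_rpow] at h2
    refine h2.congr fun j => ?_
    rw [inv_div]
  have hsub1 := hsub.comp (tendsto_add_atTop_nat 1)
  have hup := ((hsub1.mul hqi).comp hll)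
  rw [mul_one] at hlow hup
  refine tendsto_of_tendsto_of_tendsto_of_le_of_le' hlow hup ?_ ?_
  · filter_upwards [eventually_ge_atTop 2] with K hK
    have hj1 : 1 ≤ Nat.log 2 K := Nat.le_log_of_pow_le (by norm_num) (by simpa using hK)
    set j := Nat.log 2 K with hj
    have h1 : 2 ^ j ≤ K := Nat.pow_log_le_self 2 (by omega)
    have h2 : K < 2 ^ (j + 1) := Nat.lt_pow_succ_log_self (by norm_num) K
    have hj' : (0 : ℝ) < j := by exact_mod_cast hj1
    have hK0 : (0 : ℝ) < K := by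
      have : 0 < K := by omega
      exact_mod_cast this
    have h3 : Real.log K ≤ (j + 1) * Real.log 2 := by
      have h4 := Real.log_le_log hK0 (show (K : ℝ) ≤ ((2 ^ (j + 1) : ℕ) : ℝ) by exact_mod_cast h2.le)
      rw [hlogpow] at h4
      push_cast at h4
      exact h4
    have h5 : 0 < Real.log K := Real.log_pos (by exact_mod_cast (by omega : 1 < K))
    have hSnn : 0 ≤ S (2 ^ j) ω := sum_nonneg fun n _ => by
      have := amp_nonneg (θ n ω)
      positivity
    simp only [Function.comp]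
    rw [← hj, hlogpow]
    calc S (2 ^ j) ω / (j * Real.log 2) ^ (5 / 4 : ℝ) * ((j : ℝ) / (j + 1)) ^ (5 / 4 : ℝ)
        = S (2 ^ j) ω / (((j : ℝ) + 1) * Real.log 2) ^ (5 / 4 : ℝ) := by
          rw [Real.div_rpow hj'.le (by positivity), Real.mul_rpow hj'.le hl2.le,
            Real.mul_rpow (by positivity) hl2.le]
          have e1 : 0 < (j : ℝ) ^ (5 / 4 : ℝ) := Real.rpow_pos_of_pos hj' _
          have e2 : 0 < Real.log 2 ^ (5 / 4 : ℝ) := Real.rpow_pos_of_pos hl2 _
          have e3 : 0 < ((j : ℝ) + 1) ^ (5 / 4 : ℝ) := Real.rpow_pos_of_pos (by linarith) _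
          field_simp
      _ ≤ S (2 ^ j) ω / Real.log K ^ (5 / 4 : ℝ) := by
          gcongr
      _ ≤ S K ω / Real.log K ^ (5 / 4 : ℝ) := by
          gcongr
          exact hmono h1
  · filter_upwards [eventually_ge_atTop 2] with K hK
    have hj1 : 1 ≤ Nat.log 2 K := Nat.le_log_of_pow_le (by norm_num) (by simpa using hK)
    set j := Nat.log 2 K with hj
    have h1 : 2 ^ j ≤ K := Nat.pow_log_le_self 2 (by omega)
    have h2 : K < 2 ^ (j + 1) := Nat.lt_pow_succ_log_self (by norm_num) K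
    have hj' : (0 : ℝ) < j := by exact_mod_cast hj1
    have h3 : j * Real.log 2 ≤ Real.log K := by
      have h4 := Real.log_le_log (by positivity) (show ((2 ^ j : ℕ) : ℝ) ≤ K by exact_mod_cast h1)
      rw [hlogpow] at h4
      exact h4
    have hSnn : 0 ≤ S (2 ^ (j + 1)) ω := sum_nonneg fun n _ => by
      have := amp_nonneg (θ n ω)
      positivity
    simp only [Function.comp]
    rw [← hj, hlogpow]
    calc S K ω / Real.log K ^ (5 / 4 : ℝ)
        ≤ S (2 ^ (j + 1)) ω / Real.log K ^ (5 / 4 : ℝ) := by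
          gcongr
          exact hmono h2.le
      _ ≤ S (2 ^ (j + 1)) ω / ((j : ℝ) * Real.log 2) ^ (5 / 4 : ℝ) := by
          gcongr
      _ = S (2 ^ (j + 1)) ω / (((j + 1 : ℕ) : ℝ) * Real.log 2) ^ (5 / 4 : ℝ) *
          (((j : ℝ) + 1) / j) ^ (5 / 4 : ℝ) := by
          push_cast
          rw [Real.div_rpow (by positivity) hj'.le, Real.mul_rpow hj'.le hl2.le,
            Real.mul_rpow (by positivity) hl2.le]
          have e1 : 0 < (j : ℝ) ^ (5 / 4 : ℝ) := Real.rpow_pos_of_pos hj' _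
          have e2 : 0 < Real.log 2 ^ (5 / 4 : ℝ) := Real.rpow_pos_of_pos hl2 _
          have e3 : 0 < ((j : ℝ) + 1) ^ (5 / 4 : ℝ) := Real.rpow_pos_of_pos (by linarith) _
          field_simp

end

end Pool.Agent.Helper66.RMT
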