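import Pool.Agent.Helper66.RMT.Asm4
import Pool.Agent.Helper66.RMT.Lln2

/-!
# Random matrix model: the limits
-/

set_option autoImplicit false

namespace Pool.Agent.Helper66.RMT

open MeasureTheory ProbabilityTheory Filter Finset Topology

/-- The small parameters. -/
noncomputable def ee (m : ℕ) : ℝ := 1 / ((m : ℝ) + 2)

theorem ee_pos (m : ℕ) : 0 < ee m := by
  unfold ee
  positivity

theorem ee_lt (m : ℕ) : ee m < 1 := by
  unfold ee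
  rw [div_lt_one (by positivity)]
  linarith [(Nat.cast_nonneg m : (0 : ℝ) ≤ m)]

theorem ee_tendsto : Tendsto ee atTop (𝓝 0) := by
  unfold ee
  exact (tendsto_natCast_atTop_atTop.atTop_add tendsto_const_nhds).const_div_atTop 1

section

variable {κ : ℝ} {x : (n : ℕ) → Fin (sz n) → ℝ}

theorem upper_all (h : Good κ x) (b : ℝ) (hb : 4 / (5 * Real.pi) * κ < b) :
    ∀ᶠ u : ℝ in atTop, ∀ z : ℂ, Tendsto (fun K => part x K u) atTop (𝓝 z) →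
      2 * ‖z‖ ≤ b * Real.log (Real.log u) ^ (5 / 4 : ℝ) := by
  have hpi := Real.pi_pos
  have h1 : Tendsto (fun m => 4 / 5 * κ * (1 / (1 - ee m)) ^ (5 / 4 : ℝ) / Real.pi) atTop
      (𝓝 (4 / 5 * κ * (1 / (1 - 0)) ^ (5 / 4 : ℝ) / Real.pi)) := by
    apply Tendsto.div_const
    apply Tendsto.const_mul
    apply Tendsto.rpow_const
    · exact tendsto_const_nhds.div (tendsto_const_nhds.sub ee_tendsto) (by norm_num)
    · left
      norm_num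
  have e : 4 / 5 * κ * (1 / (1 - 0 : ℝ)) ^ (5 / 4 : ℝ) / Real.pi = 4 / (5 * Real.pi) * κ := by
    norm_num
    field_simp
  rw [e] at h1
  obtain ⟨m, hm⟩ := (h1.eventually_lt_const hb).exists
  exact upper h (ee_pos m) (ee_lt m) ⟨m, rfl⟩ b hm

theorem lower_all (h : Good κ x) (hκ : 0 ≤ κ) (b : ℝ) (hb0 : 0 ≤ b) (hb : b < 4 / (5 * Real.pi) * κ)
    (s : ℂ) (hs : ‖s‖ = 1) :
    ∃ᶠ u : ℝ in atTop, ∀ z : ℂ, Tendsto (fun K => part x K u) atTop (𝓝 z) →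
      b * Real.log (Real.log u) ^ (5 / 4 : ℝ) ≤ 2 * (s * z).re := by
  have hpi := Real.pi_pos
  have hD : Tendsto (fun m : ℕ => 2 / ((m : ℝ) + 1)) atTop (𝓝 0) :=
    (tendsto_natCast_atTop_atTop.atTop_add tendsto_const_nhds).const_div_atTop 2
  have h1 : Tendsto (fun m : ℕ => 4 / 5 * κ * ((1 - 2 / ((m : ℝ) + 1)) -
      ((1 + 5 * ee m) ^ (5 / 4 : ℝ) - 1)) / Real.pi) atTop
      (𝓝 (4 / 5 * κ * ((1 - 0) - ((1 + 5 * 0) ^ (5 / 4 : ℝ) - 1)) / Real.pi)) := by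
    apply Tendsto.div_const
    apply Tendsto.const_mul
    apply Tendsto.sub (tendsto_const_nhds.sub hD)
    apply Tendsto.sub _ tendsto_const_nhds
    apply Tendsto.rpow_const
    · exact tendsto_const_nhds.add (ee_tendsto.const_mul 5)
    · left
      norm_num
  have h2 : Tendsto (fun m => b * (1 + 3 * ee m) ^ (5 / 4 : ℝ)) atTop
      (𝓝 (b * (1 + 3 * 0) ^ (5 / 4 : ℝ))) := by
    apply Tendsto.const_mul
    apply Tendsto.rpow_const
    · exact tendsto_const_nhds.add (ee_tendsto.const_mul 3)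
    · left
      norm_num
  have e1 : 4 / 5 * κ * ((1 - 0) - ((1 + 5 * 0 : ℝ) ^ (5 / 4 : ℝ) - 1)) / Real.pi =
      4 / (5 * Real.pi) * κ := by
    norm_num
    field_simp
  have e2 : b * (1 + 3 * 0 : ℝ) ^ (5 / 4 : ℝ) = b := by norm_num
  rw [e1] at h1
  rw [e2] at h2
  obtain ⟨m, hm1, hm2⟩ := ((h2.eventually_lt h1 hb).and
    (ee_tendsto.eventually_le_const (show (0 : ℝ) < 1 / 10 by norm_num))).exists
  exact lower h hκ (ee_pos m) hm2 ⟨m, rfl⟩ m b hb0 hm1 s hs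

end

section

variable {Ω : Type*} [MeasurableSpace Ω] (P : Measure Ω) [IsProbabilityMeasure P]
  (θ : (n : ℕ) → Ω → (Fin (sz n) → ℝ)) (hm : ∀ n, Measurable (θ n)) (hi : iIndepFun θ P)
  (hl : ∀ n, P.map (θ n) = cue (sz n))

include hm hi hl

theorem good_ae (κ : ℝ)
    (hκ : Tendsto (fun N : ℕ => (∏ j ∈ Icc 1 N, aa j) / (N : ℝ) ^ (1 / 4 : ℝ)) atTop (𝓝 κ)) :
    ∀ᵐ ω ∂P, Good κ (fun n => θ n ω) := by
  have h1 : ∀ᵐ ω ∂P, ∀ n j, dz (θ n ω) j ≠ 0 := by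
    rw [ae_all_iff]
    intro n
    have h2 := ae_distinct (sz n)
    rw [← hl n] at h2
    exact ae_of_ae_map (hm n).aemeasurable h2
  have h2 := ae_box P θ hm hi hl
  have h3 := lln' P θ hm hi hl κ hκ
  have h4 := sq_summable' P θ hm hl (1 / 2) (by norm_num)
  have h5 : ∀ᵐ ω ∂P, ∀ m : ℕ, ∃ k₀ : ℕ, ∀ k ≥ k₀, ∀ K : ℕ, K ≤ 2 ^ (k + 1) → ∀ u : ℝ,
      (2 : ℝ) ^ (-(k : ℝ)) ≤ u → u ≤ Real.exp ((2 : ℝ) ^ ((k : ℝ) * (1 - ee m))) →
      ‖∑ n ∈ Ico (2 ^ k) K, Complex.exp ((2 * Real.pi * n * u : ℝ) * Complex.I) / n *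
        (ff (θ n ω) u - mu u)‖ ≤ (2 : ℝ) ^ (-(k : ℝ) * ee m / 8) := by
    rw [ae_all_iff]
    intro m
    exact tail_of P θ hm hi hl mgf (fun ε hε => sq_summable' P θ hm hl ε hε) (ee m) (ee_pos m) (ee_lt m)
  have h6 : ∀ᵐ ω ∂P, ∀ m : ℕ, ∃ k₀ : ℕ, ∀ k ≥ k₀, ∀ m' : Idx k → ℤ, (∀ p, |m' p| ≤ k) → m' ≠ 0 →
      Real.exp (-(2 : ℝ) ^ ((k : ℝ) * (1 + ee m))) ≤
        |∑ p : Idx k, (m' p : ℝ) * (2 * Real.pi * (p.1 : ℕ) + θ p.1 ω p.2)| := by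
    rw [ae_all_iff]
    intro m
    exact forms' P θ hm hi hl (ee m) (ee_pos m)
  filter_upwards [h1, h2, h3, h4, h5, h6] with ω g1 g2 g3 g4 g5 g6
  refine ⟨g1, fun n j => (g2 n j).1, fun n j => (g2 n j).2, g3, ?_, ?_, ?_⟩
  · -- `amp / n^2 ≤ amp^2 / n^{3/2} + 1 / n^{5/2}`
    have hs : Summable fun n : ℕ => 1 / (n : ℝ) ^ (5 / 2 : ℝ) :=
      (Real.summable_one_div_nat_rpow).mpr (by norm_num)
    refine Summable.of_nonneg_of_le (fun n => by have := amp_nonneg (θ n ω); positivity)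
      (fun n => ?_) (g4.add hs)
    rcases Nat.eq_zero_or_pos n with rfl | hn
    · have e : (0 : ℝ) ^ (1 + 1 / 2 : ℝ) = 0 := Real.zero_rpow (by norm_num)
      have e' : (0 : ℝ) ^ (5 / 2 : ℝ) = 0 := Real.zero_rpow (by norm_num)
      rw [Nat.cast_zero, e, e']
      norm_num
    have hn' : (0 : ℝ) < n := by exact_mod_cast hn
    set a := amp (θ n ω) with ha
    have ha0 : 0 ≤ a := amp_nonneg _
    set r := (n : ℝ) ^ (1 / 4 : ℝ) with hr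
    have hr0 : 0 < r := Real.rpow_pos_of_pos hn' _
    have p1 : (n : ℝ) ^ (1 + 1 / 2 : ℝ) = r ^ 6 := by
      rw [hr, ← Real.rpow_natCast, ← Real.rpow_mul hn'.le]
      norm_num
    have p2 : (n : ℝ) ^ (5 / 2 : ℝ) = r ^ 10 := by
      rw [hr, ← Real.rpow_natCast, ← Real.rpow_mul hn'.le]
      norm_num
    have p3 : (n : ℝ) ^ 2 = r ^ 8 := by
      rw [hr, ← Real.rpow_natCast, ← Real.rpow_natCast, ← Real.rpow_mul hn'.le]
      norm_num
    rw [p1, p2, p3]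
    have e : a ^ 2 / r ^ 6 + 1 / r ^ 10 - a / r ^ 8 =
        ((a / r ^ 3 - 1 / r ^ 5) ^ 2 + (a / r ^ 3) ^ 2 + (1 / r ^ 5) ^ 2) / 2 := by
      field_simp
      ring
    have : 0 ≤ a ^ 2 / r ^ 6 + 1 / r ^ 10 - a / r ^ 8 := by
      rw [e]
      positivity
    linarith
  · rintro ε ⟨m, rfl⟩
    exact g5 m
  · intro ε hε
    obtain ⟨m, hmε⟩ := (ee_tendsto.eventually_le_const hε).exists
    obtain ⟨k₀, hk₀⟩ := g6 m
    refine ⟨k₀, fun k hk m' hm'1 hm'2 => le_trans ?_ (hk₀ k hk m' hm'1 hm'2)⟩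
    apply Real.exp_le_exp.mpr
    apply neg_le_neg
    apply Real.rpow_le_rpow_of_exponent_le (by norm_num)
    gcongr

end

end Pool.Agent.Helper66.RMT
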