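import Pool.Agent.Helper66.RMT.AsmW4
import Pool.Agent.Helper96.RMT.TailW2
import Pool.Agent.Helper99.RMT.LlnW

/-!
# Random matrix model: almost every sample is good, with weights
-/

set_option autoImplicit false

namespace Pool.Agent.Helper66.RMT

open MeasureTheory ProbabilityTheory Filter Finset Topology

section

variable {Ω : Type*} [MeasurableSpace Ω] (P : Measure Ω) [IsProbabilityMeasure P]
  (θ : (n : ℕ) → Ω → (Fin (sz n) → ℝ)) (hm : ∀ n, Measurable (θ n)) (hi : iIndepFun θ P)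
  (hl : ∀ n, P.map (θ n) = cue (sz n))

include hm hi hl

theorem goodW_ae {b : ℝ → ℂ} {m : ℝ} (hb : IsW b m) {κ : ℝ}
    (hκ : Tendsto (fun N : ℕ => (∏ j ∈ Icc 1 N, aa j) / (N : ℝ) ^ (1 / 4 : ℝ)) atTop (𝓝 κ)) :
    ∀ᵐ ω ∂P, GoodW (4 / 5 * κ / (2 * Real.pi) * m) b (fun n => θ n ω) := by
  have h3 := lln_w P θ hm hi hl hb hκ
  have h5 : ∀ᵐ ω ∂P, ∀ m : ℕ, ∃ k₀ : ℕ, ∀ k ≥ k₀, ∀ K : ℕ, K ≤ 2 ^ (k + 1) → ∀ u : ℝ,
      (2 : ℝ) ^ (-(k : ℝ)) ≤ u → u ≤ Real.exp ((2 : ℝ) ^ ((k : ℝ) * (1 - ee m))) →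
      ‖∑ n ∈ Ico (2 ^ k) K, (∑ j, b (ord (fun n => θ n ω) n j) *
          Complex.exp ((u * ord (fun n => θ n ω) n j : ℝ) * Complex.I) / dz (θ n ω) j -
        (1 / (2 * Real.pi) : ℝ) * ∫ t in (2 * Real.pi * n)..(2 * Real.pi * (n + 1)),
          Complex.exp ((u * t : ℝ) * Complex.I) * b t)‖ ≤ (2 : ℝ) ^ (-(k : ℝ) * ee m / 8) := by
    rw [ae_all_iff]
    intro m
    exact tailW_of P θ hm hi hl hb (fun ε hε => sq_summable' P θ hm hl ε hε) (ee m) (ee_pos m) (ee_lt m)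
  have h6 : ∀ᵐ ω ∂P, ∀ m : ℕ, ∃ k₀ : ℕ, ∀ k ≥ k₀, ∀ m' : Idx k → ℤ, (∀ p, |m' p| ≤ k) → m' ≠ 0 →
      Real.exp (-(2 : ℝ) ^ ((k : ℝ) * (1 + ee m))) ≤
        |∑ p : Idx k, (m' p : ℝ) * (2 * Real.pi * (p.1 : ℕ) + θ p.1 ω p.2)| := by
    rw [ae_all_iff]
    intro m
    exact forms' P θ hm hi hl (ee m) (ee_pos m)
  filter_upwards [h3, h5, h6] with ω g3 g5 g6
  refine ⟨?_, ?_, ?_⟩
  · have e : 4 / 5 * κ / (2 * Real.pi) * m = 4 / 5 * κ * m / (2 * Real.pi) := by ring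
    rw [e]
    exact g3
  · rintro ε ⟨m, rfl⟩
    obtain ⟨k₀, hk₀⟩ := g5 m
    refine ⟨k₀, fun k hk K hK u hu1 hu2 => ?_⟩
    refine le_trans (le_of_eq ?_) (hk₀ k hk K hK u hu1 hu2)
    congr 1
    apply sum_congr rfl
    intro n _
    unfold blkW meanW
    have e : ((1 / (2 * Real.pi) : ℝ) : ℂ) = 1 / (2 * Real.pi) := by push_cast; rfl
    rw [e]
  · intro ε hε
    obtain ⟨m, hmε⟩ := (ee_tendsto.eventually_le_const hε).exists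
    obtain ⟨k₀, hk₀⟩ := g6 m
    refine ⟨k₀, fun k hk m' hm'1 hm'2 => le_trans ?_ (hk₀ k hk m' hm'1 hm'2)⟩
    apply Real.exp_le_exp.mpr
    apply neg_le_neg
    apply Real.rpow_le_rpow_of_exponent_le (by norm_num)
    gcongr

/-- The joint law for two weights. -/
theorem joint_ae {b₁ b₂ : ℝ → ℂ} {m₁ m₂ : ℝ} {M : ℝ → ℝ → ℝ} (h₁ : IsW b₁ m₁) (h₂ : IsW b₂ m₂)
    (hM : ∀ α β : ℝ, Tendsto (fun T : ℝ => (∫ t in (1 : ℝ)..T, t * ‖lin b₁ b₂ α β t‖) / T) atTop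
      (𝓝 (M α β))) {κ : ℝ} (hκ0 : 0 ≤ κ)
    (hκ : Tendsto (fun N : ℕ => (∏ j ∈ Icc 1 N, aa j) / (N : ℝ) ^ (1 / 4 : ℝ)) atTop (𝓝 κ)) :
    ∀ᵐ ω ∂P, ∃ y₁ y₂ : ℝ → ℝ,
      (∀ u : ℝ, 0 < u → Tendsto (fun K => (partW b₁ (fun n => θ n ω) K u).re) atTop (𝓝 (y₁ u))) ∧
      (∀ u : ℝ, 0 < u → Tendsto (fun K => (partW b₂ (fun n => θ n ω) K u).re) atTop (𝓝 (y₂ u))) ∧
      ∀ a α β : ℝ,
      liminf (fun t : ℝ => (((α * (2 * y₁ (Real.log t)) + β * (a + 2 * y₂ (Real.log t))) /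
        Real.log (Real.log (Real.log t)) ^ (5 / 4 : ℝ) : ℝ) : EReal)) atTop =
          ((-(4 * κ / (5 * Real.pi) * M α β) : ℝ) : EReal) ∧
      limsup (fun t : ℝ => (((α * (2 * y₁ (Real.log t)) + β * (a + 2 * y₂ (Real.log t))) /
        Real.log (Real.log (Real.log t)) ^ (5 / 4 : ℝ) : ℝ) : EReal)) atTop =
          ((4 * κ / (5 * Real.pi) * M α β : ℝ) : EReal) := by
  have hpi := Real.pi_pos
  have h : ∀ᵐ ω ∂P, ∀ p q : ℚ, GoodW (4 / 5 * κ / (2 * Real.pi) * M p q) (lin b₁ b₂ p q)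
      (fun n => θ n ω) := by
    rw [ae_all_iff]
    intro p
    rw [ae_all_iff]
    intro q
    exact goodW_ae P θ hm hi hl (isW_lin h₁ h₂ p q (hM p q)) hκ
  filter_upwards [h] with ω hω
  obtain ⟨y₁, y₂, g1, g2, g3⟩ := lin_limits h₁ h₂ hM (c := 4 / 5 * κ / (2 * Real.pi)) (by positivity) hω
  refine ⟨y₁, y₂, g1, g2, fun a α β => ?_⟩
  have e : 2 * (4 / 5 * κ / (2 * Real.pi)) * M α β = 4 * κ / (5 * Real.pi) * M α β := by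
    field_simp
  have g4 := g3 a α β
  rw [e] at g4
  exact g4

end

end Pool.Agent.Helper66.RMT
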