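import Pool.Agent.Helper66.RMT.Supp
import Pool.Agent.Helper96.RMT.Phases

/-!
# Random matrix model: every point of the convex body is a limit point
-/

set_option autoImplicit false

namespace Pool.Agent.Helper66.RMT

open MeasureTheory Filter Finset Topology

/-- Phases close in the mean. -/
theorem kron_phases {ι : Type*} [Fintype ι] (A : ι → ℝ) (hA : ∀ i, 0 ≤ A i) (z e : ι → ℂ)
    (hz : ∀ i, ‖z i‖ = 1) (he : ∀ i, ‖e i‖ = 1) {κ θ : ℝ} (hθ : 0 < θ) (hκ : κ ≤ 2 * θ ^ 2)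
    (h : (1 - κ) * ∑ i, A i ≤ ∑ i, ((A i : ℂ) * (starRingEnd ℂ) (z i) * e i).re) :
    ∑ i, A i * ‖e i - z i‖ ≤ 2 * θ * ∑ i, A i := by
  have h1 : ∀ i, ‖e i - z i‖ ^ 2 = 2 - 2 * ((starRingEnd ℂ) (z i) * e i).re := by
    intro i
    have a1 : ‖e i - z i‖ ^ 2 = Complex.normSq (e i - z i) := by rw [Complex.normSq_eq_norm_sq]
    have a2 : Complex.normSq (e i) = 1 := by rw [Complex.normSq_eq_norm_sq, he i, one_pow]
    have a3 : Complex.normSq (z i) = 1 := by rw [Complex.normSq_eq_norm_sq, hz i, one_pow]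
    rw [a1, Complex.normSq_sub, a2, a3, mul_comm (e i)]
    ring
  have h2 : ∑ i, A i * ‖e i - z i‖ ^ 2 ≤ 2 * κ * ∑ i, A i := by
    have e1 : ∑ i, A i * ‖e i - z i‖ ^ 2 =
        2 * ∑ i, A i - 2 * ∑ i, ((A i : ℂ) * (starRingEnd ℂ) (z i) * e i).re := by
      rw [mul_sum, mul_sum, ← sum_sub_distrib]
      apply sum_congr rfl
      intro i _
      rw [h1 i, mul_assoc, Complex.re_ofReal_mul]
      ring
    rw [e1]
    linarith
  have hS : 0 ≤ ∑ i, A i := sum_nonneg fun i _ => hA i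
  have h3 : ∑ i, A i * ‖e i - z i‖ ≤ θ * ∑ i, A i + 1 / (4 * θ) * ∑ i, A i * ‖e i - z i‖ ^ 2 := by
    rw [mul_sum, mul_sum, ← sum_add_distrib]
    apply sum_le_sum
    intro i _
    have h4 : ‖e i - z i‖ ≤ θ + 1 / (4 * θ) * ‖e i - z i‖ ^ 2 := by
      have e2 : θ + 1 / (4 * θ) * ‖e i - z i‖ ^ 2 - ‖e i - z i‖ = (‖e i - z i‖ - 2 * θ) ^ 2 / (4 * θ) := by
        field_simp
        ring
      have : 0 ≤ (‖e i - z i‖ - 2 * θ) ^ 2 / (4 * θ) := by positivity
      linarith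
    calc A i * ‖e i - z i‖ ≤ A i * (θ + 1 / (4 * θ) * ‖e i - z i‖ ^ 2) := mul_le_mul_of_nonneg_left h4 (hA i)
      _ = _ := by ring
  have h5 : 1 / (4 * θ) * ∑ i, A i * ‖e i - z i‖ ^ 2 ≤ θ * ∑ i, A i := by
    calc 1 / (4 * θ) * ∑ i, A i * ‖e i - z i‖ ^ 2 ≤ 1 / (4 * θ) * (2 * κ * ∑ i, A i) := by gcongr
      _ ≤ 1 / (4 * θ) * (2 * (2 * θ ^ 2) * ∑ i, A i) := by gcongr
      _ = θ * ∑ i, A i := by
          field_simp
          ring
  linarith

/-- The final estimate. -/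
theorem fin_est {a p' p zc v F Yv Y η r q τ CC : ℝ} (hη : 0 < η) (hv : 0 < v) (hvF : v ≤ F)
    (hFv : F ≤ r * v) (hr : r - 1 ≤ η / (8 * (Y + 1))) (hYv : |Yv| ≤ Y) (hY0 : 0 ≤ Y)
    (h1 : |p - zc| ≤ η / 16 * v) (h2 : |p' - p| ≤ CC)
    (h3 : |zc - Yv * v / 2| ≤ 2 * (η / 32 * v) + 2 * q) (h4 : |a - p'| ≤ τ)
    (h5 : (4 * q + 2 * τ) / v + 2 * CC / v < η / 4) : |2 * a / F - Yv| ≤ η := by
  have hF0 : 0 < F := lt_of_lt_of_le hv hvF
  have t3 : |2 * a - Yv * v| ≤ η / 2 * v := by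
    have e1 : 2 * a - Yv * v = 2 * ((a - p') + (p' - p) + (p - zc) + (zc - Yv * v / 2)) := by ring
    rw [e1, abs_mul, abs_two]
    have t4 := abs_add_le ((a - p') + (p' - p) + (p - zc)) (zc - Yv * v / 2)
    have t5 := abs_add_le ((a - p') + (p' - p)) (p - zc)
    have t6 := abs_add_le (a - p') (p' - p)
    rw [← add_div, div_lt_iff₀ hv] at h5
    linarith only [t4, t5, t6, h1, h2, h3, h4, h5]
  have e3 : 2 * a / F - Yv = (2 * a - Yv * v) / F + Yv * (v / F - 1) := by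
    field_simp
    ring
  rw [e3]
  refine (abs_add_le _ _).trans ?_
  have t7 : |(2 * a - Yv * v) / F| ≤ η / 2 := by
    rw [abs_div, abs_of_pos hF0, div_le_iff₀ hF0]
    exact t3.trans (by gcongr)
  have t8 : |Yv * (v / F - 1)| ≤ η / 8 := by
    rw [abs_mul]
    have q1 : v / F ≤ 1 := (div_le_one hF0).mpr hvF
    have q3 : F / v ≤ r := by
      rw [div_le_iff₀ hv]
      exact hFv
    have q4 : 1 ≤ F / v := (one_le_div hv).mpr hvF
    have q5 : v / F = 1 / (F / v) := by field_simp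
    have q6 : 2 - F / v ≤ 1 / (F / v) := by
      rw [le_div_iff₀ (by linarith only [q4])]
      nlinarith only [sq_nonneg (F / v - 1)]
    have q7 : v / F - 1 ≤ 0 := by linarith only [q1]
    have q8 : -(v / F - 1) ≤ η / (8 * (Y + 1)) := by
      rw [q5]
      linarith only [q6, q3, hr]
    rw [abs_of_nonpos q7]
    calc |Yv| * -(v / F - 1) ≤ (Y + 1) * (η / (8 * (Y + 1))) := by
          apply mul_le_mul _ q8 (by linarith only [q7]) (by linarith only [hY0])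
          linarith only [hYv]
      _ = η / 8 := by field_simp
  linarith only [t7, t8, hη]

variable {b₁ b₂ : ℝ → ℂ} {m₁ m₂ : ℝ} {x : (n : ℕ) → Fin (sz n) → ℝ}

/-- Every point is reached. -/
theorem reach {M : ℝ → ℝ → ℝ} (h₁ : IsW b₁ m₁) (h₂ : IsW b₂ m₂)
    (hM : ∀ α β : ℝ, Tendsto (fun T : ℝ => (∫ t in (1 : ℝ)..T, t * ‖lin b₁ b₂ α β t‖) / T) atTop
      (𝓝 (M α β))) {c : ℝ} (hc : 0 ≤ c)
    (hg : ∀ p q : ℚ, GoodW (c * M p q) (lin b₁ b₂ p q) x)
    (w : ℝ → ℂ) (hw : ∀ t, b₂ t = w t * b₁ t) {Q : ℝ}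
    (hQ : ∀ k, ∑ p : Idx k, (‖b₁ (ord x p.1 p.2)‖ ^ 2 + ‖b₂ (ord x p.1 p.2)‖ ^ 2) /
      ‖dz (x p.1) p.2‖ ^ 2 ≤ Q)
    (y₁ y₂ : ℝ → ℝ) (ht₁ : ∀ u : ℝ, 0 < u → Tendsto (fun K => (partW b₁ x K u).re) atTop (𝓝 (y₁ u)))
    (ht₂ : ∀ u : ℝ, 0 < u → Tendsto (fun K => (partW b₂ x K u).re) atTop (𝓝 (y₂ u)))
    (Y₁ Y₂ : ℝ) (hY : ∀ a b : ℝ, a * Y₁ + b * Y₂ ≤ 2 * c * M a b) {η : ℝ} (hη : 0 < η) :
    ∃ᶠ u : ℝ in atTop, |2 * y₁ u / Real.log (Real.log u) ^ (5 / 4 : ℝ) - Y₁| ≤ η ∧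
      |2 * y₂ u / Real.log (Real.log u) ^ (5 / 4 : ℝ) - Y₂| ≤ η := by
  classical
  have hl2 : 0 < Real.log 2 := Real.log_pos (by norm_num)
  have g1 : GoodW (c * M ((1 : ℚ) : ℝ) ((0 : ℚ) : ℝ)) b₁ x := by
    have := hg 1 0
    rwa [lin_one_zero] at this
  have g2 : GoodW (c * M ((0 : ℚ) : ℝ) ((1 : ℚ) : ℝ)) b₂ x := by
    have := hg 0 1
    rwa [lin_zero_one] at this
  set s1 := c * M ((1 : ℚ) : ℝ) ((0 : ℚ) : ℝ) with hs1d
  set s2 := c * M ((0 : ℚ) : ℝ) ((1 : ℚ) : ℝ) with hs2d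
  have hs1 : Tendsto (fun k : ℕ => CW b₁ x (2 ^ k) / vv k) atTop (𝓝 s1) := CW_pow g1
  have hs2 : Tendsto (fun k : ℕ => CW b₂ x (2 ^ k) / vv k) atTop (𝓝 s2) := CW_pow g2
  have hs10 : 0 ≤ s1 := by
    refine ge_of_tendsto hs1 ?_
    filter_upwards [eventually_ge_atTop 1] with k hk
    exact div_nonneg (CW_nonneg _ _) (vv_pos hk).le
  have hs20 : 0 ≤ s2 := by
    refine ge_of_tendsto hs2 ?_
    filter_upwards [eventually_ge_atTop 1] with k hk
    exact div_nonneg (CW_nonneg _ _) (vv_pos hk).le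
  -- parameters
  set s := s1 + s2 with hs
  have hs0 : 0 ≤ s := by positivity
  set Y := |Y₁| + |Y₂| with hYd
  have hY0 : 0 ≤ Y := by positivity
  obtain ⟨m, hm1, hm2, hm3⟩ : ∃ m : ℕ, (1 + 5 * ee m) ^ (5 / 4 : ℝ) - 1 < η / (16 * (s + 1)) ∧
      (1 + 3 * ee m) ^ (5 / 4 : ℝ) - 1 < η / (8 * (Y + 1)) ∧ ee m ≤ 1 / 10 := by
    have q1 : Tendsto (fun m : ℕ => (1 + 5 * ee m) ^ (5 / 4 : ℝ) - 1) atTop (𝓝 ((1 + 5 * 0) ^ (5 / 4 : ℝ) - 1)) := by
      apply Tendsto.sub _ tendsto_const_nhds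
      apply Tendsto.rpow_const
      · exact tendsto_const_nhds.add (ee_tendsto.const_mul 5)
      · left
        norm_num
    have q2 : Tendsto (fun m : ℕ => (1 + 3 * ee m) ^ (5 / 4 : ℝ) - 1) atTop (𝓝 ((1 + 3 * 0) ^ (5 / 4 : ℝ) - 1)) := by
      apply Tendsto.sub _ tendsto_const_nhds
      apply Tendsto.rpow_const
      · exact tendsto_const_nhds.add (ee_tendsto.const_mul 3)
      · left
        norm_num
    norm_num at q1 q2
    obtain ⟨m, r1, r2, r3⟩ := ((q1.eventually_lt_const (show 0 < η / (16 * (s + 1)) by positivity)).and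
      ((q2.eventually_lt_const (show 0 < η / (8 * (Y + 1)) by positivity)).and
      (ee_tendsto.eventually_le_const (show (0 : ℝ) < 1 / 10 by norm_num)))).exists
    exact ⟨m, by norm_num at r1 ⊢; exact r1, by norm_num at r2 ⊢; exact r2, r3⟩
  set ε := ee m with hεd
  have hε : 0 < ε := ee_pos m
  set δ := η / 32 with hδ
  have hδ0 : 0 < δ := by positivity
  set θ := η / (32 * (s + 2)) with hθ
  have hθ0 : 0 < θ := by positivity
  obtain ⟨D, hD⟩ := exists_nat_gt (1 / θ ^ 2)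
  have hD0 : (0 : ℝ) < (D : ℝ) + 1 := by positivity
  have hDθ : 2 / ((D : ℝ) + 1) ≤ 2 * θ ^ 2 := by
    rw [div_le_iff₀ hD0]
    rw [div_lt_iff₀ (by positivity)] at hD
    have e : 2 * θ ^ 2 * ((D : ℝ) + 1) = 2 * (D * θ ^ 2) + 2 * θ ^ 2 := by ring
    rw [e]
    linarith only [hD, sq_nonneg θ]
  -- the scales
  set k' : ℕ → ℕ := fun k => ⌈(1 + 5 * ε) * k⌉₊ with hk'
  have hkt : Tendsto k' atTop atTop :=
    tendsto_nat_ceil_atTop.comp (tendsto_natCast_atTop_atTop.const_mul_atTop (by positivity))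
  have hk'v : Tendsto (fun k : ℕ => (k' k : ℝ) * Real.log 2 / ((k : ℝ) * Real.log 2)) atTop
      (𝓝 (1 + 5 * ε)) := by
    have h2 := (tendsto_nat_ceil_mul_div_atTop (R := ℝ) (a := 1 + 5 * ε) (by positivity)).comp
      tendsto_natCast_atTop_atTop
    refine h2.congr' ?_
    filter_upwards [eventually_ge_atTop 1] with k hk
    have : (0 : ℝ) < k := by exact_mod_cast hk
    simp only [Function.comp, hk']
    field_simp
  have hv : ∀ᶠ k : ℕ in atTop, 0 < (k : ℝ) * Real.log 2 := by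
    filter_upwards [eventually_ge_atTop 1] with k hk
    have : (0 : ℝ) < k := by exact_mod_cast hk
    positivity
  have hS1' := CW_resc g1 (by positivity : (0 : ℝ) < 1 + 5 * ε) k' (fun k : ℕ => (k : ℝ) * Real.log 2) hkt
    hv hk'v
  have hS2' := CW_resc g2 (by positivity : (0 : ℝ) < 1 + 5 * ε) k' (fun k : ℕ => (k : ℝ) * Real.log 2) hkt
    hv hk'v
  obtain ⟨C₁, k₁, hk₁⟩ := limW_close h₁ g1 hε ⟨m, rfl⟩
  obtain ⟨C₂, k₂, hk₂⟩ := limW_close h₂ g2 hε ⟨m, rfl⟩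
  have hQ0 : 0 ≤ Q := le_trans (sum_nonneg fun p _ => by positivity) (hQ 0)
  -- the errors
  have herr : ∀ (s' C : ℝ) (b : ℝ → ℂ), s' ≤ s →
      Tendsto (fun k : ℕ => CW b x (2 ^ k) / vv k) atTop (𝓝 s') →
      Tendsto (fun k : ℕ => CW b x (2 ^ k' k) / vv k) atTop (𝓝 (s' * (1 + 5 * ε) ^ (5 / 4 : ℝ))) →
      ∀ᶠ k : ℕ in atTop, (4 * Real.sqrt Q + 2 * (tau ε (k' k) + C)) / vv k +
        2 * (CW b x (2 ^ k' k) - CW b x (2 ^ k)) / vv k < η / 4 := by
    intro s' C b hs' hb hb'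
    have r1 : Tendsto (fun k : ℕ => (4 * Real.sqrt Q + 2 * (tau ε (k' k) + C)) / vv k) atTop (𝓝 0) := by
      have := ((((tau_tendsto hε).comp hkt).add_const C).const_mul 2).const_add (4 * Real.sqrt Q)
      exact this.div_atTop vv_top
    have r2 := (hb'.sub hb).const_mul 2
    have r3 := r1.add r2
    have hq1 : (1 : ℝ) ≤ (1 + 5 * ε) ^ (5 / 4 : ℝ) := Real.one_le_rpow (by linarith) (by norm_num)
    have r4 : 0 + 2 * (s' * (1 + 5 * ε) ^ (5 / 4 : ℝ) - s') < η / 4 := by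
      have e : 0 + 2 * (s' * (1 + 5 * ε) ^ (5 / 4 : ℝ) - s') = 2 * (s' * ((1 + 5 * ε) ^ (5 / 4 : ℝ) - 1)) := by ring
      rw [e]
      have r5 : s' * ((1 + 5 * ε) ^ (5 / 4 : ℝ) - 1) ≤ (s + 1) * (η / (16 * (s + 1))) := by
        calc s' * ((1 + 5 * ε) ^ (5 / 4 : ℝ) - 1) ≤ (s + 1) * ((1 + 5 * ε) ^ (5 / 4 : ℝ) - 1) := by
              apply mul_le_mul_of_nonneg_right _ (by linarith)
              linarith
          _ ≤ (s + 1) * (η / (16 * (s + 1))) := by gcongr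
      have r6 : (s + 1) * (η / (16 * (s + 1))) = η / 16 := by field_simp
      rw [r6] at r5
      linarith
    filter_upwards [r3.eventually_lt_const r4] with k hk
    have e : 2 * (CW b x (2 ^ k' k) - CW b x (2 ^ k)) / vv k =
        2 * (CW b x (2 ^ k' k) / vv k - CW b x (2 ^ k) / vv k) := by ring
    rw [e]
    exact hk
  have herr1 := herr s1 C₁ b₁ (by linarith) hs1 hS1'
  have herr2 := herr s2 C₂ b₂ (by linarith) hs2 hS2'
  obtain ⟨kf, hkf⟩ := g1.forms ε hε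
  have hsupp := supp h₁ h₂ hM hc hg hδ0
  rw [frequently_atTop]
  intro U
  have hLtop : Tendsto (fun k : ℕ => Real.exp ((2 : ℝ) ^ ((k : ℝ) * (1 + 2 * ε)))) atTop atTop := by
    apply Real.tendsto_exp_atTop.comp
    apply (tendsto_rpow_atTop_of_base_gt_one 2 (by norm_num)).comp
    exact tendsto_natCast_atTop_atTop.atTop_mul_const (by linarith)
  have hkε : Tendsto (fun k : ℕ => (k : ℝ) * ε) atTop atTop :=
    tendsto_natCast_atTop_atTop.atTop_mul_const hε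
  obtain ⟨k, ⟨he1, he2, hsu, hb1, hb2⟩, hk2, hk2', hk3, hk4, hk5, hk6, hk7⟩ :=
    ((herr1.and (herr2.and (hsupp.and ((hs1.eventually_lt_const (show s1 < s1 + 1 by linarith)).and
      (hs2.eventually_lt_const (show s2 < s2 + 1 by linarith)))))).and
    ((hkt.eventually_ge_atTop k₁).and ((hkt.eventually_ge_atTop k₂).and ((eventually_ge_atTop kf).and
    ((hLtop.eventually_ge_atTop (max U 3)).and
    ((size_cond hε D).and ((hkε.eventually_ge_atTop 2).and (eventually_ge_atTop (D + 1))))))))).exists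
  have hk1n : 1 ≤ k := by omega
  have hvk : 0 < vv k := vv_pos hk1n
  rw [div_lt_iff₀ hvk] at hb1 hb2
  -- the phases
  set cc : Idx k → ℂ := fun p => b₁ (ord x p.1 p.2) / dz (x p.1) p.2 with hcc
  set ww : Idx k → ℂ := fun p => w (ord x p.1 p.2) with hww
  obtain ⟨z, hz, hz1, hz2⟩ := phases cc ww (Y₁ * vv k / 2) (Y₂ * vv k / 2) (δ * vv k) (by positivity) (by
    intro a b
    have q1 := hsu a b
    have q2 : CW (lin b₁ b₂ a b) x (2 ^ k) = ∑ p : Idx k, ‖cc p‖ * ‖(a : ℂ) + b * ww p‖ := by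
      rw [CW_idx]
      apply sum_congr rfl
      intro p _
      rw [← norm_mul]
      congr 1
      simp only [hcc, hww, lin, hw]
      ring
    have q3 := mul_le_mul_of_nonneg_right (hY a b) hvk.le
    rw [q2] at q1
    have e : a * (Y₁ * vv k / 2) + b * (Y₂ * vv k / 2) = (a * Y₁ + b * Y₂) * vv k / 2 := by ring
    rw [e]
    linarith)
  have hQk : Real.sqrt (∑ i, ‖cc i‖ ^ 2 * (1 + ‖ww i‖ ^ 2)) ≤ Real.sqrt Q := by
    apply Real.sqrt_le_sqrt
    refine le_trans (le_of_eq ?_) (hQ k)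
    apply sum_congr rfl
    intro p _
    simp only [hcc, hww, hw, norm_div, norm_mul]
    ring
  -- Kronecker
  set L := Real.exp ((2 : ℝ) ^ ((k : ℝ) * (1 + 2 * ε))) with hL
  have hLpos : 0 < L := Real.exp_pos _
  set A : Idx k → ℝ := fun p => ‖cc p‖ * (1 + ‖ww p‖) with hA
  have hA0 : ∀ p, 0 ≤ A p := fun p => by positivity
  have hAsum : ∑ p, A p = CW b₁ x (2 ^ k) + CW b₂ x (2 ^ k) := by
    rw [CW_idx, CW_idx, ← sum_add_distrib]
    apply sum_congr rfl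
    intro p _
    simp only [hA, hcc, hww, hw, norm_div, norm_mul]
    ring
  obtain ⟨u, hu1, hu2, hu3⟩ := kron (fun p : Idx k => ord x p.1 p.2)
    (fun p : Idx k => (A p : ℂ) * (starRingEnd ℂ) (z p)) D
    (Real.exp (-(2 : ℝ) ^ ((k : ℝ) * (1 + ε)))) L L
    (Real.exp_pos _) hLpos (fun m hm hm0 => hkf k hk3 m (fun p => (hm p).trans (by exact_mod_cast hk7)) hm0)
    hk5
  set e : Idx k → ℂ := fun p => Complex.exp ((u * ord x p.1 p.2 : ℝ) * Complex.I) with he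
  have hen : ∀ p, ‖e p‖ = 1 := fun p => Complex.norm_exp_ofReal_mul_I _
  have hclosep : ∑ p, A p * ‖e p - z p‖ ≤ 2 * θ * ∑ p, A p := by
    apply kron_phases A hA0 z e hz hen hθ0 hDθ
    refine le_trans (le_of_eq ?_) hu3
    congr 1
    apply sum_congr rfl
    intro p _
    rw [norm_mul, Complex.norm_real, Real.norm_of_nonneg (hA0 p), RCLike.norm_conj, hz p, mul_one]
  have hsumA : ∑ p, A p ≤ (s + 2) * vv k := by
    rw [hAsum]
    linarith
  have hθS : 2 * θ * ∑ p, A p ≤ η / 16 * vv k := by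
    calc 2 * θ * ∑ p, A p ≤ 2 * θ * ((s + 2) * vv k) := by gcongr
      _ = η / 16 * vv k := by
          rw [hθ]
          field_simp
          ring
  have hUL : max U 3 ≤ L := hk4
  have hu3L : 3 ≤ L := (le_max_right _ _).trans hUL
  refine ⟨u, (le_max_left U 3).trans (hUL.trans hu1), ?_⟩
  have hu0 : 0 < u := by linarith
  have hk1' : (1 : ℝ) ≤ k := by exact_mod_cast hk1n
  -- log u
  have hlogu : Real.log u ≤ (2 : ℝ) ^ ((k : ℝ) * (1 + 2 * ε) + 1) := by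
    have h1 : Real.log u ≤ Real.log (2 * L) := Real.log_le_log (by linarith) (by linarith)
    rw [Real.log_mul (by norm_num) hLpos.ne', hL, Real.log_exp] at h1
    have h2 : (1 : ℝ) ≤ (2 : ℝ) ^ ((k : ℝ) * (1 + 2 * ε)) :=
      Real.one_le_rpow (by norm_num) (by positivity)
    have h3 : Real.log 2 ≤ 1 := by
      have := Real.log_two_lt_d9
      linarith
    rw [Real.rpow_add (by norm_num), Real.rpow_one]
    linarith
  have hlogu2 : (2 : ℝ) ^ ((k : ℝ) * (1 + 2 * ε)) ≤ Real.log u := by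
    rw [Real.le_log_iff_exp_le hu0]
    exact hu1
  have hlogu1 : 1 < Real.log u := by
    rw [Real.lt_log_iff_exp_lt (by linarith)]
    have := Real.exp_one_lt_d9
    linarith
  have hloglog : Real.log (Real.log u) ≤ (1 + 3 * ε) * (k * Real.log 2) := by
    have h1 := Real.log_le_log (by linarith) hlogu
    rw [Real.log_rpow (by norm_num)] at h1
    refine h1.trans ?_
    have : ((k : ℝ) * (1 + 2 * ε) + 1) ≤ (1 + 3 * ε) * k := by
      have e : (1 + 3 * ε) * (k : ℝ) = (k : ℝ) * (1 + 2 * ε) + k * ε := by ring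
      rw [e]
      linarith only [hk6]
    calc ((k : ℝ) * (1 + 2 * ε) + 1) * Real.log 2 ≤ ((1 + 3 * ε) * k) * Real.log 2 := by gcongr
      _ = _ := by ring
  have hloglog2 : k * Real.log 2 ≤ Real.log (Real.log u) := by
    have h1 := Real.log_le_log (by positivity) hlogu2
    rw [Real.log_rpow (by norm_num)] at h1
    refine le_trans ?_ h1
    have : (k : ℝ) ≤ (k : ℝ) * (1 + 2 * ε) := le_mul_of_one_le_right (by positivity) (by linarith only [hε])
    gcongr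
  have hll0 : 0 ≤ Real.log (Real.log u) := Real.log_nonneg hlogu1.le
  set F := Real.log (Real.log u) ^ (5 / 4 : ℝ) with hF
  have hpow : F ≤ (1 + 3 * ε) ^ (5 / 4 : ℝ) * vv k := by
    rw [hF]
    unfold vv
    rw [← Real.mul_rpow (by positivity) (by positivity)]
    exact Real.rpow_le_rpow hll0 hloglog (by norm_num)
  have hpow2 : vv k ≤ F := by
    rw [hF]
    unfold vv
    exact Real.rpow_le_rpow (by positivity) hloglog2 (by norm_num)
  have hF0 : 0 < F := lt_of_lt_of_le hvk hpow2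
  -- range of u
  have hk'k : (1 + 5 * ε) * k ≤ k' k := Nat.le_ceil _
  have hkk' : k ≤ k' k := by
    have : (k : ℝ) ≤ k' k :=
      (le_mul_of_one_le_left (by positivity) (by linarith only [hε])).trans hk'k
    exact_mod_cast this
  have hu6 : u ≤ Real.exp ((2 : ℝ) ^ ((k' k : ℝ) * (1 - ε))) := by
    rw [← Real.log_le_iff_le_exp (by linarith)]
    refine hlogu.trans (Real.rpow_le_rpow_of_exponent_le (by norm_num) ?_)
    have h1 : (1 + 5 * ε) * k * (1 - ε) ≤ (k' k : ℝ) * (1 - ε) := by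
      apply mul_le_mul_of_nonneg_right hk'k
      linarith
    nlinarith only [mul_nonneg (mul_nonneg hε.le (show (0 : ℝ) ≤ k by positivity))
      (show (0 : ℝ) ≤ 1 / 10 - ε by linarith only [hm3]), h1, hk6]
  -- the common estimate
  have hfin : ∀ (b : ℝ → ℂ) (coef' : Idx k → ℂ) (yv Yv C : ℝ), |Yv| ≤ Y →
      partW b x (2 ^ k) u = ∑ p, coef' p * e p →
      (∀ p, ‖coef' p‖ ≤ A p) →
      |(∑ p, coef' p * z p).re - Yv * vv k / 2| ≤ 2 * (δ * vv k) + 2 * Real.sqrt Q →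
      |yv - (partW b x (2 ^ k' k) u).re| ≤ tau ε (k' k) + C →
      (4 * Real.sqrt Q + 2 * (tau ε (k' k) + C)) / vv k +
        2 * (CW b x (2 ^ k' k) - CW b x (2 ^ k)) / vv k < η / 4 →
      |2 * yv / F - Yv| ≤ η := by
    intro b coef' yv Yv C hYv hpart hcoef hzz hyy herr'
    have t1 : |(partW b x (2 ^ k) u).re - (∑ p, coef' p * z p).re| ≤ η / 16 * vv k := by
      rw [hpart, ← Complex.sub_re, ← sum_sub_distrib]
      refine (Complex.abs_re_le_norm _).trans ((norm_sum_le _ _).trans ?_)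
      refine le_trans (sum_le_sum fun p _ => ?_) (hclosep.trans hθS)
      rw [← mul_sub, norm_mul]
      exact mul_le_mul_of_nonneg_right (hcoef p) (norm_nonneg _)
    have t2 : |(partW b x (2 ^ k' k) u).re - (partW b x (2 ^ k) u).re| ≤
        CW b x (2 ^ k' k) - CW b x (2 ^ k) := by
      rw [← Complex.sub_re]
      exact (Complex.abs_re_le_norm _).trans
        (norm_partW_diff_le (Nat.pow_le_pow_right (by norm_num) hkk') u)
    exact fin_est hη hvk hpow2 hpow hm2.le hYv hY0 t1 t2 hzz hyy herr'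
  constructor
  · apply hfin b₁ cc (y₁ u) Y₁ C₁ (by linarith [abs_nonneg Y₂]) _ _ _ _ he1
    · rw [partW_idx]
    · intro p
      exact le_mul_of_one_le_right (norm_nonneg _) (by linarith [norm_nonneg (ww p)])
    · linarith [hz1, hQk]
    · exact hk₁ (k' k) hk2 u (by linarith) hu6 _ (ht₁ u hu0)
  · apply hfin b₂ (fun p => cc p * ww p) (y₂ u) Y₂ C₂ (by linarith [abs_nonneg Y₁]) _ _ _ _ he2
    · rw [partW_idx]
      apply sum_congr rfl
      intro p _
      simp only [hcc, hww, hw, he]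
      ring
    · intro p
      rw [norm_mul]
      exact mul_le_mul_of_nonneg_left (by linarith) (norm_nonneg _)
    · linarith [hz2, hQk]
    · exact hk₂ (k' k) hk2' u (by linarith) hu6 _ (ht₂ u hu0)

end Pool.Agent.Helper66.RMT
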