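import Pool.Agent.Helper66.RMT.FinW
import Pool.Agent.Helper66.RMT.Reach

/-!
# Random matrix model: the set of limit points
-/

set_option autoImplicit false

namespace Pool.Agent.Helper66.RMT

open MeasureTheory ProbabilityTheory Filter Finset Topology

section

variable {Ω : Type*} [MeasurableSpace Ω] (P : Measure Ω) [IsProbabilityMeasure P]
  (θ : (n : ℕ) → Ω → (Fin (sz n) → ℝ)) (hm : ∀ n, Measurable (θ n)) (hi : iIndepFun θ P)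
  (hl : ∀ n, P.map (θ n) = cue (sz n))

include hm hi hl

/-- The joint law for two weights, with the approximation of every point of the convex body. -/
theorem joint_ae2 {b₁ b₂ : ℝ → ℂ} {m₁ m₂ : ℝ} {M : ℝ → ℝ → ℝ} (h₁ : IsW b₁ m₁) (h₂ : IsW b₂ m₂)
    (hM : ∀ α β : ℝ, Tendsto (fun T : ℝ => (∫ t in (1 : ℝ)..T, t * ‖lin b₁ b₂ α β t‖) / T) atTop
      (𝓝 (M α β))) {κ : ℝ} (hκ0 : 0 ≤ κ)
    (hκ : Tendsto (fun N : ℕ => (∏ j ∈ Icc 1 N, aa j) / (N : ℝ) ^ (1 / 4 : ℝ)) atTop (𝓝 κ))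
    (w : ℝ → ℂ) (hw : ∀ t, b₂ t = w t * b₁ t)
    (hQ : ∀ᵐ ω ∂P, ∃ Q : ℝ, ∀ k, ∑ p : Idx k, (‖b₁ (ord (fun n => θ n ω) p.1 p.2)‖ ^ 2 +
      ‖b₂ (ord (fun n => θ n ω) p.1 p.2)‖ ^ 2) / ‖dz (θ p.1 ω) p.2‖ ^ 2 ≤ Q) :
    ∀ᵐ ω ∂P, ∃ y₁ y₂ : ℝ → ℝ,
      (∀ u : ℝ, 0 < u → Tendsto (fun K => (partW b₁ (fun n => θ n ω) K u).re) atTop (𝓝 (y₁ u))) ∧
      (∀ u : ℝ, 0 < u → Tendsto (fun K => (partW b₂ (fun n => θ n ω) K u).re) atTop (𝓝 (y₂ u))) ∧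
      (∀ a α β : ℝ,
      liminf (fun t : ℝ => (((α * (2 * y₁ (Real.log t)) + β * (a + 2 * y₂ (Real.log t))) /
        Real.log (Real.log (Real.log t)) ^ (5 / 4 : ℝ) : ℝ) : EReal)) atTop =
          ((-(4 * κ / (5 * Real.pi) * M α β) : ℝ) : EReal) ∧
      limsup (fun t : ℝ => (((α * (2 * y₁ (Real.log t)) + β * (a + 2 * y₂ (Real.log t))) /
        Real.log (Real.log (Real.log t)) ^ (5 / 4 : ℝ) : ℝ) : EReal)) atTop =
          ((4 * κ / (5 * Real.pi) * M α β : ℝ) : EReal)) ∧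
      ∀ Y₁ Y₂ : ℝ, (∀ α β : ℝ, α * Y₁ + β * Y₂ ≤ 4 * κ / (5 * Real.pi) * M α β) → ∀ η : ℝ, 0 < η →
        ∃ᶠ u : ℝ in atTop, |2 * y₁ u / Real.log (Real.log u) ^ (5 / 4 : ℝ) - Y₁| ≤ η ∧
          |2 * y₂ u / Real.log (Real.log u) ^ (5 / 4 : ℝ) - Y₂| ≤ η := by
  have hpi := Real.pi_pos
  have h : ∀ᵐ ω ∂P, ∀ p q : ℚ, GoodW (4 / 5 * κ / (2 * Real.pi) * M p q) (lin b₁ b₂ p q)
      (fun n => θ n ω) := by
    rw [ae_all_iff]
    intro p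
    rw [ae_all_iff]
    intro q
    exact goodW_ae P θ hm hi hl (isW_lin h₁ h₂ p q (hM p q)) hκ
  filter_upwards [h, hQ] with ω hω hQω
  obtain ⟨Q, hQω⟩ := hQω
  have hc : 0 ≤ 4 / 5 * κ / (2 * Real.pi) := by positivity
  obtain ⟨y₁, y₂, g1, g2, g3⟩ := lin_limits h₁ h₂ hM hc hω
  have e : ∀ α β : ℝ, 2 * (4 / 5 * κ / (2 * Real.pi)) * M α β = 4 * κ / (5 * Real.pi) * M α β := by
    intro α β
    field_simp
  refine ⟨y₁, y₂, g1, g2, fun a α β => ?_, fun Y₁ Y₂ hY η hη => ?_⟩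
  · have g4 := g3 a α β
    rw [e] at g4
    exact g4
  · refine reach h₁ h₂ hM hc hω w hw hQω y₁ y₂ g1 g2 Y₁ Y₂ (fun a b => ?_) hη
    rw [e]
    exact hY a b

end

/-- The set of limit points from the support function and the approximation. -/
theorem limit_set {V₁ V₂ : ℝ → ℝ} {h : ℝ → ℝ → ℝ}
    (hs : ∀ α β : ℝ, limsup (fun x : ℝ => ((α * V₁ x + β * V₂ x : ℝ) : EReal)) atTop = (h α β : EReal))
    (hr : ∀ Y₁ Y₂ : ℝ, (∀ α β : ℝ, α * Y₁ + β * Y₂ ≤ h α β) → ∀ η : ℝ, 0 < η →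
      ∃ᶠ x : ℝ in atTop, |V₁ x - Y₁| ≤ η ∧ |V₂ x - Y₂| ≤ η) :
    {p : ℝ × ℝ | MapClusterPt p atTop fun x : ℝ => (V₁ x, V₂ x)} =
      {p : ℝ × ℝ | ∀ α β : ℝ, α * p.1 + β * p.2 ≤ h α β} := by
  ext p
  simp only [Set.mem_setOf_eq]
  constructor
  · intro hp α β
    by_contra hc
    push Not at hc
    obtain ⟨r, hr1, hr2⟩ := exists_between hc
    have hopen : IsOpen {q : ℝ × ℝ | r < α * q.1 + β * q.2} := by
      apply isOpen_lt continuous_const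
      fun_prop
    have h1 := (mapClusterPt_iff_frequently.mp hp) _ (hopen.mem_nhds hr2)
    have h2 : limsup (fun x : ℝ => ((α * V₁ x + β * V₂ x : ℝ) : EReal)) atTop < (r : EReal) := by
      rw [hs α β]
      exact_mod_cast hr1
    have h3 := eventually_lt_of_limsup_lt h2
    obtain ⟨x, hx1, hx2⟩ := (h1.and_eventually h3).exists
    have hx1' : r < α * V₁ x + β * V₂ x := hx1
    have hx2' : α * V₁ x + β * V₂ x < r := by exact_mod_cast hx2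
    linarith
  · intro hp
    rw [mapClusterPt_iff_frequently]
    intro s hs'
    obtain ⟨η, hη, hball⟩ := Metric.mem_nhds_iff.mp hs'
    refine (hr p.1 p.2 hp (η / 2) (by positivity)).mono ?_
    rintro x ⟨hx1, hx2⟩
    apply hball
    rw [Metric.mem_ball, Prod.dist_eq, max_lt_iff, Real.dist_eq, Real.dist_eq]
    constructor
    · exact lt_of_le_of_lt hx1 (by linarith)
    · exact lt_of_le_of_lt hx2 (by linarith)

end Pool.Agent.Helper66.RMT
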