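import Pool.Agent.Helper66.RMT.SqSum

/-!
# Random matrix model: block B1

The law of large numbers for `∑ amp / n`.
-/

set_option autoImplicit false

namespace Pool.Agent.Helper66.RMT

open MeasureTheory ProbabilityTheory Filter Finset Topology

/-- The comparison function. -/
noncomputable def hh (x : ℝ) : ℝ := 4 / 5 * Real.log x ^ (5 / 4 : ℝ)

theorem hh_deriv {x : ℝ} (hx : 1 < x) : HasDerivAt hh (Real.log x ^ (1 / 4 : ℝ) / x) x := by
  have hx0 : (0 : ℝ) < x := by linarith
  have hl : 0 < Real.log x := Real.log_pos hx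
  have h1 := (Real.hasDerivAt_log hx0.ne').rpow_const (p := 5 / 4) (Or.inl hl.ne')
  have h2 := h1.const_mul (4 / 5 : ℝ)
  refine h2.congr_deriv ?_
  have : (5 / 4 : ℝ) - 1 = 1 / 4 := by norm_num
  rw [this]
  field_simp

theorem hh_step {n : ℕ} (hn : 2 ≤ n) :
    Real.log n ^ (1 / 4 : ℝ) / (n + 1) ≤ hh (n + 1) - hh n ∧
      hh (n + 1) - hh n ≤ Real.log (n + 1) ^ (1 / 4 : ℝ) / n := by
  have hn' : (2 : ℝ) ≤ n := by exact_mod_cast hn
  obtain ⟨ξ, hξ, h⟩ := exists_hasDerivAt_eq_slope hh (fun x => Real.log x ^ (1 / 4 : ℝ) / x)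
    (a := n) (b := n + 1) (by linarith)
    (fun x hx => (hh_deriv (by linarith [hx.1])).continuousAt.continuousWithinAt)
    (fun x hx => hh_deriv (by linarith [hx.1]))
  have e : (n : ℝ) + 1 - n = 1 := by ring
  rw [e, div_one] at h
  rw [← h]
  have hl : 0 < Real.log n := Real.log_pos (by linarith)
  have h1 : Real.log n ≤ Real.log ξ := Real.log_le_log (by linarith) hξ.1.le
  have h2 : Real.log ξ ≤ Real.log (n + 1) := Real.log_le_log (by linarith [hξ.1]) hξ.2.le
  constructor
  · apply div_le_div₀ (Real.rpow_nonneg (by linarith) _)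
    · exact Real.rpow_le_rpow hl.le h1 (by norm_num)
    · linarith [hξ.1]
    · exact hξ.2.le
  · apply div_le_div₀
    · exact Real.rpow_nonneg (by linarith) _
    · exact Real.rpow_le_rpow (by linarith) h2 (by norm_num)
    · linarith
    · exact hξ.1.le

theorem log_succ_div : Tendsto (fun n : ℕ => Real.log (n + 1) / Real.log n) atTop (𝓝 1) := by
  have h1 : Tendsto (fun n : ℕ => Real.log (n + 1) - Real.log n) atTop (𝓝 0) := by
    have h2 : Tendsto (fun n : ℕ => Real.log (1 + 1 / (n : ℝ))) atTop (𝓝 0) := by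
      have h3 : Tendsto (fun n : ℕ => 1 + 1 / (n : ℝ)) atTop (𝓝 (1 + 0)) :=
        tendsto_const_nhds.add tendsto_one_div_atTop_nhds_zero_nat
      rw [add_zero] at h3
      have h4 := (Real.continuousAt_log (one_ne_zero)).tendsto.comp h3
      rw [Real.log_one] at h4
      exact h4
    refine h2.congr' ?_
    filter_upwards [eventually_ge_atTop 1] with n hn
    have hn' : (0 : ℝ) < n := by exact_mod_cast hn
    rw [← Real.log_div (by positivity) hn'.ne']
    congr 1
    field_simp
  have hlog : Tendsto (fun n : ℕ => Real.log n) atTop atTop :=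
    Real.tendsto_log_atTop.comp tendsto_natCast_atTop_atTop
  have h5 : Tendsto (fun n : ℕ => 1 + (Real.log (n + 1) - Real.log n) / Real.log n) atTop (𝓝 (1 + 0)) :=
    tendsto_const_nhds.add (h1.div_atTop hlog)
  rw [add_zero] at h5
  refine h5.congr' ?_
  filter_upwards [eventually_ge_atTop 2] with n hn
  have : 0 < Real.log n := Real.log_pos (by exact_mod_cast hn)
  field_simp
  ring

/-- If `b n ~ κ (log n)^{1/4}` then `∑ b n / n ~ κ (4/5) (log K)^{5/4}`. -/
theorem sum_asymp {b : ℕ → ℝ} {κ : ℝ}
    (hb : Tendsto (fun n : ℕ => b n / Real.log n ^ (1 / 4 : ℝ)) atTop (𝓝 κ)) :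
    Tendsto (fun K : ℕ => (∑ n ∈ range K, b n / n) / Real.log K ^ (5 / 4 : ℝ)) atTop
      (𝓝 (4 / 5 * κ)) := by
  set d : ℕ → ℝ := fun n => hh (n + 1) - hh n with hd
  have hlog : Tendsto (fun n : ℕ => Real.log n) atTop atTop :=
    Real.tendsto_log_atTop.comp tendsto_natCast_atTop_atTop
  have hsum : ∀ K : ℕ, ∑ n ∈ range K, d n = hh K := by
    intro K
    have h1 := Finset.sum_range_sub (fun n : ℕ => hh (n : ℝ)) K
    have h0 : hh ((0 : ℕ) : ℝ) = 0 := by simp [hh]
    rw [h0, sub_zero] at h1
    rw [← h1]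
    apply sum_congr rfl
    intro n _
    simp [hd]
  have hhtop : Tendsto (fun K : ℕ => hh K) atTop atTop := by
    unfold hh
    exact ((tendsto_rpow_atTop (by norm_num)).comp hlog).const_mul_atTop (by norm_num)
  have hd0 : ∀ n, 0 ≤ d n := by
    intro n
    rcases Nat.lt_or_ge n 2 with h | h
    · interval_cases n
      · simp [hd, hh]
      · simp only [hd, hh, Nat.cast_one, Real.log_one]
        rw [Real.zero_rpow (by norm_num)]
        have : 0 ≤ Real.log (1 + 1) := Real.log_nonneg (by norm_num)
        have := Real.rpow_nonneg this (5 / 4)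
        linarith
    · exact le_trans (by positivity) (hh_step h).1
  -- the ratio of `d n` to `(log n)^(1/4) / n`
  have hratio : Tendsto (fun n : ℕ => d n / (Real.log n ^ (1 / 4 : ℝ) / n)) atTop (𝓝 1) := by
    have hlow : Tendsto (fun n : ℕ => (n : ℝ) / (n + 1)) atTop (𝓝 1) :=
      tendsto_natCast_div_add_atTop (1 : ℝ)
    have hup : Tendsto (fun n : ℕ => (Real.log (n + 1) / Real.log n) ^ (1 / 4 : ℝ)) atTop (𝓝 1) := by
      have := log_succ_div.rpow_const (p := 1 / 4) (Or.inl one_ne_zero)
      rwa [Real.one_rpow] at this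
    refine tendsto_of_tendsto_of_tendsto_of_le_of_le' hlow hup ?_ ?_
    · filter_upwards [eventually_ge_atTop 2] with n hn
      have hn' : (0 : ℝ) < n := by
        have : 0 < n := by omega
        exact_mod_cast this
      have hl : 0 < Real.log n := Real.log_pos (by exact_mod_cast (by omega : 1 < n))
      have hp : 0 < Real.log n ^ (1 / 4 : ℝ) := Real.rpow_pos_of_pos hl _
      rw [le_div_iff₀ (by positivity)]
      refine le_trans (le_of_eq ?_) (hh_step hn).1
      field_simp
    · filter_upwards [eventually_ge_atTop 2] with n hn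
      have hn' : (0 : ℝ) < n := by
        have : 0 < n := by omega
        exact_mod_cast this
      have hl : 0 < Real.log n := Real.log_pos (by exact_mod_cast (by omega : 1 < n))
      have hp : 0 < Real.log n ^ (1 / 4 : ℝ) := Real.rpow_pos_of_pos hl _
      rw [div_le_iff₀ (by positivity)]
      refine le_trans (hh_step hn).2 (le_of_eq ?_)
      have hl1 : 0 ≤ Real.log (n + 1) := Real.log_nonneg (by linarith)
      rw [Real.div_rpow hl1 hl.le]
      field_simp
  have hbd : Tendsto (fun n : ℕ => (b n / n) / d n) atTop (𝓝 κ) := by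
    have h1 := hb.div hratio one_ne_zero
    rw [div_one] at h1
    refine h1.congr' ?_
    filter_upwards [eventually_ge_atTop 2] with n hn
    have hn' : (0 : ℝ) < n := by
      have : 0 < n := by omega
      exact_mod_cast this
    have hl : 0 < Real.log n := Real.log_pos (by exact_mod_cast (by omega : 1 < n))
    have hp : 0 < Real.log n ^ (1 / 4 : ℝ) := Real.rpow_pos_of_pos hl _
    have hdn : 0 < d n := lt_of_lt_of_le (by positivity) (hh_step hn).1
    simp only [Pi.div_apply]
    field_simp
  have hlo : (fun n : ℕ => b n / n - κ * d n) =o[atTop] d := by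
    rw [Asymptotics.isLittleO_iff_tendsto']
    · have h1 : Tendsto (fun n : ℕ => (b n / n) / d n - κ) atTop (𝓝 (κ - κ)) :=
        hbd.sub tendsto_const_nhds
      rw [sub_self] at h1
      refine h1.congr' ?_
      filter_upwards [eventually_ge_atTop 2] with n hn
      have hl : 0 < Real.log n := Real.log_pos (by exact_mod_cast (by omega : 1 < n))
      have hdn : 0 < d n := lt_of_lt_of_le (by positivity) (hh_step hn).1
      field_simp
    · filter_upwards [eventually_ge_atTop 2] with n hn h0
      have hl : 0 < Real.log n := Real.log_pos (by exact_mod_cast (by omega : 1 < n))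
      have hdn : 0 < d n := lt_of_lt_of_le (by positivity) (hh_step hn).1
      exact absurd h0 hdn.ne'
  have htop : Tendsto (fun K : ℕ => ∑ n ∈ range K, d n) atTop atTop := by
    simp_rw [hsum]
    exact hhtop
  have h2 := hlo.sum_range hd0 htop
  simp_rw [sum_sub_distrib, ← mul_sum, hsum] at h2
  have h3 : Tendsto (fun K : ℕ => (∑ n ∈ range K, b n / n - κ * hh K) / hh K) atTop (𝓝 0) :=
    h2.tendsto_div_nhds_zero
  have h4 : Tendsto (fun K : ℕ => 4 / 5 * ((∑ n ∈ range K, b n / n - κ * hh K) / hh K) + 4 / 5 * κ)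
      atTop (𝓝 (4 / 5 * 0 + 4 / 5 * κ)) := (h3.const_mul _).add tendsto_const_nhds
  rw [mul_zero, zero_add] at h4
  refine h4.congr' ?_
  filter_upwards [eventually_ge_atTop 2] with K hK
  have hl : 0 < Real.log K := Real.log_pos (by exact_mod_cast (by omega : 1 < K))
  have hp : 0 < Real.log K ^ (5 / 4 : ℝ) := Real.rpow_pos_of_pos hl _
  unfold hh
  field_simp
  ring

end Pool.Agent.Helper66.RMT
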