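import Pool.Agent.Helper66.RMT.Core

/-!
# Random matrix model: block B2

The sum of `amp² / n^{1+ε}` is finite almost surely.
-/

set_option autoImplicit false

namespace Pool.Agent.Helper66.RMT

open MeasureTheory ProbabilityTheory Filter Finset Topology

theorem amp_nonneg {N : ℕ} (θ : Fin N → ℝ) : 0 ≤ amp θ :=
  sum_nonneg fun _ _ => by positivity

theorem sz_le_log (n : ℕ) : (sz n : ℝ) ≤ Real.log n := by
  unfold sz
  rcases Nat.eq_zero_or_pos n with rfl | hn
  · simp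
  · exact Nat.floor_le (Real.log_nonneg (by exact_mod_cast hn))

section

variable {Ω : Type*} [MeasurableSpace Ω] (P : Measure Ω) [IsProbabilityMeasure P]
  (θ : (n : ℕ) → Ω → (Fin (sz n) → ℝ)) (hm : ∀ n, Measurable (θ n))
  (hl : ∀ n, P.map (θ n) = cue (sz n))

include hm hl

theorem integral_law (n : ℕ) {g : (Fin (sz n) → ℝ) → ℝ} (hg : Measurable g) :
    ∫ ω, g (θ n ω) ∂P = ∫ x, g x ∂(cue (sz n)) := by
  rw [← hl n, integral_map (hm n).aemeasurable hg.aestronglyMeasurable]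

theorem integrable_law (n : ℕ) {g : (Fin (sz n) → ℝ) → ℝ} (hg : Measurable g)
    (h : Integrable g (cue (sz n))) : Integrable (fun ω => g (θ n ω)) P := by
  rw [← hl n] at h
  exact (integrable_map_measure hg.aestronglyMeasurable (hm n).aemeasurable).mp h

theorem amp_sq_int (n : ℕ) : Integrable (fun ω => amp (θ n ω) ^ 2) P ∧
    ∫ ω, amp (θ n ω) ^ 2 ∂P ≤ sz n := by
  have hg : Measurable fun x : Fin (sz n) → ℝ => amp x ^ 2 := (measurable_amp _).pow_const 2
  exact ⟨integrable_law P θ hm hl n hg (amp_sq (sz n)).1, by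
    rw [integral_law P θ hm hl n hg]
    exact (amp_sq (sz n)).2⟩

theorem sq_summable' (ε : ℝ) (hε : 0 < ε) :
    ∀ᵐ ω ∂P, Summable fun n : ℕ => amp (θ n ω) ^ 2 / (n : ℝ) ^ (1 + ε) := by
  have hnn : ∀ (n : ℕ) (ω : Ω), 0 ≤ amp (θ n ω) ^ 2 / (n : ℝ) ^ (1 + ε) := fun n ω => by positivity
  have hmeas : ∀ n : ℕ, Measurable fun ω => ENNReal.ofReal (amp (θ n ω) ^ 2 / (n : ℝ) ^ (1 + ε)) :=
    fun n => ((((measurable_amp _).comp (hm n)).pow_const 2).div_const _).ennreal_ofReal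
  have hs : Summable fun n : ℕ => (sz n : ℝ) / (n : ℝ) ^ (1 + ε) := by
    have h1 : Summable fun n : ℕ => (2 / ε) * (1 / (n : ℝ) ^ (1 + ε / 2)) :=
      ((Real.summable_one_div_nat_rpow).mpr (by linarith)).mul_left _
    refine Summable.of_nonneg_of_le (fun n => by positivity) (fun n => ?_) h1
    rcases Nat.eq_zero_or_pos n with rfl | hn
    · have : sz 0 = 0 := by simp [sz]
      rw [this]
      have h2 : (0 : ℝ) ^ (1 + ε / 2) = 0 := Real.zero_rpow (by linarith)
      simp [h2]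
    have hn' : (0 : ℝ) < n := by exact_mod_cast hn
    have h2 : (sz n : ℝ) ≤ (n : ℝ) ^ (ε / 2) / (ε / 2) :=
      (sz_le_log n).trans (Real.log_le_rpow_div hn'.le (by linarith))
    have h3 : (n : ℝ) ^ (1 + ε) = (n : ℝ) ^ (1 + ε / 2) * (n : ℝ) ^ (ε / 2) := by
      rw [← Real.rpow_add hn']
      congr 1
      ring
    have h4 : (0 : ℝ) < (n : ℝ) ^ (ε / 2) := Real.rpow_pos_of_pos hn' _
    have h5 : (0 : ℝ) < (n : ℝ) ^ (1 + ε / 2) := Real.rpow_pos_of_pos hn' _
    calc (sz n : ℝ) / (n : ℝ) ^ (1 + ε) ≤ ((n : ℝ) ^ (ε / 2) / (ε / 2)) / (n : ℝ) ^ (1 + ε) := by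
          gcongr
      _ = 2 / ε * (1 / (n : ℝ) ^ (1 + ε / 2)) := by
          rw [h3]
          field_simp
  have hfin : ∫⁻ ω, ∑' n : ℕ, ENNReal.ofReal (amp (θ n ω) ^ 2 / (n : ℝ) ^ (1 + ε)) ∂P < ⊤ := by
    rw [lintegral_tsum fun n => (hmeas n).aemeasurable]
    calc ∑' n : ℕ, ∫⁻ ω, ENNReal.ofReal (amp (θ n ω) ^ 2 / (n : ℝ) ^ (1 + ε)) ∂P
        ≤ ∑' n : ℕ, ENNReal.ofReal ((sz n : ℝ) / (n : ℝ) ^ (1 + ε)) := by
          refine ENNReal.tsum_le_tsum fun n => ?_
          rw [← ofReal_integral_eq_lintegral_ofReal]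
          · apply ENNReal.ofReal_le_ofReal
            rw [integral_div]
            gcongr
            exact (amp_sq_int P θ hm hl n).2
          · exact (amp_sq_int P θ hm hl n).1.div_const _
          · exact ae_of_all _ fun ω => hnn n ω
      _ < ⊤ := by
          rw [← ENNReal.ofReal_tsum_of_nonneg (fun n => by positivity) hs]
          exact ENNReal.ofReal_lt_top
  have hae := ae_lt_top' (AEMeasurable.ennreal_tsum fun n => (hmeas n).aemeasurable) hfin.ne
  filter_upwards [hae] with ω hω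
  have h1 := ENNReal.summable_toReal hω.ne
  refine h1.congr fun n => ?_
  rw [ENNReal.toReal_ofReal (hnn n ω)]

end

end Pool.Agent.Helper66.RMT
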