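import Pool.Agent.Helper66.RMT.AsmW4

/-!
# Random matrix model: uniform convergence of the support functions
-/

set_option autoImplicit false

namespace Pool.Agent.Helper66.RMT

open MeasureTheory Filter Finset Topology

variable {b₁ b₂ : ℝ → ℂ} {m₁ m₂ : ℝ} {x : (n : ℕ) → Fin (sz n) → ℝ}

/-- The scale. -/
noncomputable def vv (k : ℕ) : ℝ := ((k : ℝ) * Real.log 2) ^ (5 / 4 : ℝ)

theorem vv_pos {k : ℕ} (hk : 1 ≤ k) : 0 < vv k := by
  have : (0 : ℝ) < k := by exact_mod_cast hk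
  have hl2 : 0 < Real.log 2 := Real.log_pos (by norm_num)
  exact Real.rpow_pos_of_pos (by positivity) _

theorem vv_top : Tendsto vv atTop atTop := by
  have hl2 : 0 < Real.log 2 := Real.log_pos (by norm_num)
  apply (tendsto_rpow_atTop (by norm_num)).comp
  exact tendsto_natCast_atTop_atTop.atTop_mul_const hl2

theorem CW_nonneg (b : ℝ → ℂ) (K : ℕ) : 0 ≤ CW b x K := (norm_nonneg _).trans (norm_partW_le K 0)

theorem CW_lin_le (α β p q : ℝ) (K : ℕ) : CW (lin b₁ b₂ p q) x K ≤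
    CW (lin b₁ b₂ α β) x K + (|α - p| * CW b₁ x K + |β - q| * CW b₂ x K) := by
  unfold CW
  rw [mul_sum, mul_sum, ← sum_add_distrib, ← sum_add_distrib]
  apply sum_le_sum
  intro n _
  rw [mul_sum, mul_sum, ← sum_add_distrib, ← sum_add_distrib]
  apply sum_le_sum
  intro j _
  rw [← mul_div_assoc, ← mul_div_assoc, ← add_div, ← add_div]
  apply div_le_div_of_nonneg_right _ (norm_nonneg _)
  set t := ord x n j
  have e : lin b₁ b₂ p q t = lin b₁ b₂ α β t - (((α - p : ℝ) : ℂ) * b₁ t + ((β - q : ℝ) : ℂ) * b₂ t) := by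
    simp only [lin]
    push_cast
    ring
  rw [e]
  refine (norm_sub_le _ _).trans (add_le_add le_rfl ((norm_add_le _ _).trans (le_of_eq ?_)))
  rw [norm_mul, norm_mul, Complex.norm_real, Complex.norm_real, Real.norm_eq_abs, Real.norm_eq_abs]

theorem norm_lin_smul {s : ℝ} (hs : 0 ≤ s) (α β t : ℝ) :
    ‖lin b₁ b₂ (s * α) (s * β) t‖ = s * ‖lin b₁ b₂ α β t‖ := by
  have e : lin b₁ b₂ (s * α) (s * β) t = (s : ℂ) * lin b₁ b₂ α β t := by
    simp only [lin]
    push_cast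
    ring
  rw [e, norm_mul, Complex.norm_real, Real.norm_of_nonneg hs]

theorem CW_smul {s : ℝ} (hs : 0 ≤ s) (α β : ℝ) (K : ℕ) :
    CW (lin b₁ b₂ (s * α) (s * β)) x K = s * CW (lin b₁ b₂ α β) x K := by
  unfold CW
  rw [mul_sum]
  apply sum_congr rfl
  intro n _
  rw [mul_sum]
  apply sum_congr rfl
  intro j _
  rw [norm_lin_smul hs, mul_div_assoc]

theorem M_smul {M : ℝ → ℝ → ℝ}
    (hM : ∀ α β : ℝ, Tendsto (fun T : ℝ => (∫ t in (1 : ℝ)..T, t * ‖lin b₁ b₂ α β t‖) / T) atTop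
      (𝓝 (M α β))) {s : ℝ} (hs : 0 ≤ s) (α β : ℝ) : M (s * α) (s * β) = s * M α β := by
  refine tendsto_nhds_unique (hM (s * α) (s * β)) (((hM α β).const_mul s).congr fun T => ?_)
  rw [← mul_div_assoc, ← intervalIntegral.integral_const_mul]
  congr 1
  apply intervalIntegral.integral_congr
  intro t _
  simp only [norm_lin_smul hs]
  ring

theorem lin_one_zero : lin b₁ b₂ ((1 : ℚ) : ℝ) ((0 : ℚ) : ℝ) = b₁ := by
  funext t
  simp [lin]

theorem lin_zero_one : lin b₁ b₂ ((0 : ℚ) : ℝ) ((1 : ℚ) : ℝ) = b₂ := by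
  funext t
  simp [lin]

/-- The support functions converge uniformly. -/
theorem supp {M : ℝ → ℝ → ℝ} (h₁ : IsW b₁ m₁) (h₂ : IsW b₂ m₂)
    (hM : ∀ α β : ℝ, Tendsto (fun T : ℝ => (∫ t in (1 : ℝ)..T, t * ‖lin b₁ b₂ α β t‖) / T) atTop
      (𝓝 (M α β))) {c : ℝ} (hc : 0 ≤ c)
    (hg : ∀ p q : ℚ, GoodW (c * M p q) (lin b₁ b₂ p q) x) {δ : ℝ} (hδ : 0 < δ) :
    ∀ᶠ k : ℕ in atTop, ∀ a b : ℝ,
      c * M a b * vv k ≤ CW (lin b₁ b₂ a b) x (2 ^ k) + δ * vv k * (|a| + |b|) := by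
  have hs1 : Tendsto (fun k : ℕ => CW b₁ x (2 ^ k) / vv k) atTop (𝓝 (c * M ((1 : ℚ) : ℝ) ((0 : ℚ) : ℝ))) := by
    have := CW_pow (hg 1 0)
    rwa [lin_one_zero] at this
  have hs2 : Tendsto (fun k : ℕ => CW b₂ x (2 ^ k) / vv k) atTop (𝓝 (c * M ((0 : ℚ) : ℝ) ((1 : ℚ) : ℝ))) := by
    have := CW_pow (hg 0 1)
    rwa [lin_zero_one] at this
  set s1 := c * M ((1 : ℚ) : ℝ) ((0 : ℚ) : ℝ) with hs1d
  set s2 := c * M ((0 : ℚ) : ℝ) ((1 : ℚ) : ℝ) with hs2d
  have hs10 : 0 ≤ s1 := by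
    refine ge_of_tendsto hs1 ?_
    filter_upwards [eventually_ge_atTop 1] with k hk
    exact div_nonneg (CW_nonneg _ _) (vv_pos hk).le
  have hs20 : 0 ≤ s2 := by
    refine ge_of_tendsto hs2 ?_
    filter_upwards [eventually_ge_atTop 1] with k hk
    exact div_nonneg (CW_nonneg _ _) (vv_pos hk).le
  have hm₁ : 0 ≤ m₁ := by
    refine ge_of_tendsto h₁.mean ?_
    filter_upwards [eventually_ge_atTop 1] with T hT
    apply div_nonneg _ (by linarith)
    apply intervalIntegral.integral_nonneg hT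
    intro t ht
    have : 0 ≤ t := by linarith [ht.1]
    positivity
  have hm₂ : 0 ≤ m₂ := by
    refine ge_of_tendsto h₂.mean ?_
    filter_upwards [eventually_ge_atTop 1] with T hT
    apply div_nonneg _ (by linarith)
    apply intervalIntegral.integral_nonneg hT
    intro t ht
    have : 0 ≤ t := by linarith [ht.1]
    positivity
  set R := c * (m₁ + m₂) + (s1 + 1) + (s2 + 1) with hR
  have hR0 : 0 < R := by positivity
  obtain ⟨N, hN⟩ := exists_nat_gt (2 * R / δ)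
  have hN0 : (0 : ℝ) < N := lt_trans (by positivity) hN
  have hN1 : R / N < δ / 2 := by
    rw [div_lt_iff₀ hδ] at hN
    rw [div_lt_iff₀ hN0]
    linarith
  have hnet : ∀ᶠ k : ℕ in atTop, ∀ p ∈ (Icc (-(N : ℤ)) N) ×ˢ (Icc (-(N : ℤ)) N),
      c * M (((p.1 / N : ℚ) : ℝ)) (((p.2 / N : ℚ) : ℝ)) <
        CW (lin b₁ b₂ ((p.1 / N : ℚ) : ℝ) ((p.2 / N : ℚ) : ℝ)) x (2 ^ k) / vv k + δ / 2 := by
    rw [Filter.eventually_all_finset]
    intro p _
    have h := (CW_pow (hg (p.1 / N) (p.2 / N))).eventually_const_lt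
      (show c * M (((p.1 / N : ℚ) : ℝ)) (((p.2 / N : ℚ) : ℝ)) - δ / 2 <
        c * M (((p.1 / N : ℚ) : ℝ)) (((p.2 / N : ℚ) : ℝ)) by linarith)
    filter_upwards [h] with k hk
    unfold vv
    linarith
  filter_upwards [hnet, hs1.eventually_lt_const (show s1 < s1 + 1 by linarith),
    hs2.eventually_lt_const (show s2 < s2 + 1 by linarith), eventually_ge_atTop 1] with k hk hk1 hk2 hk3
  have hv := vv_pos hk3
  rw [div_lt_iff₀ hv] at hk1 hk2
  -- the normalised case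
  have key : ∀ a b : ℝ, |a| ≤ 1 → |b| ≤ 1 →
      c * M a b * vv k ≤ CW (lin b₁ b₂ a b) x (2 ^ k) + δ * vv k := by
    intro a b ha hb
    set i : ℤ := ⌊(N : ℝ) * a⌋ with hi
    set j : ℤ := ⌊(N : ℝ) * b⌋ with hj
    have hi1 : (i : ℝ) ≤ N * a := Int.floor_le _
    have hi2 : (N : ℝ) * a < i + 1 := Int.lt_floor_add_one _
    have hj1 : (j : ℝ) ≤ N * b := Int.floor_le _
    have hj2 : (N : ℝ) * b < j + 1 := Int.lt_floor_add_one _
    have hmem : ∀ (r : ℝ), |r| ≤ 1 → ⌊(N : ℝ) * r⌋ ∈ Icc (-(N : ℤ)) N := by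
      intro r hr
      have hr' := abs_le.mp hr
      rw [Finset.mem_Icc]
      constructor
      · apply Int.le_floor.mpr
        push_cast
        nlinarith
      · have : (⌊(N : ℝ) * r⌋ : ℝ) ≤ N := (Int.floor_le _).trans (by nlinarith)
        exact_mod_cast this
    have hq : ∀ (l : ℤ), (((l : ℚ) / N : ℚ) : ℝ) = (l : ℝ) / N := by
      intro l
      push_cast
      rfl
    have hnear : ∀ (r : ℝ) (l : ℤ), (l : ℝ) ≤ N * r → (N : ℝ) * r < l + 1 → |r - (l : ℝ) / N| ≤ 1 / N := by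
      intro r l h1 h2
      have e : r - (l : ℝ) / N = (N * r - l) / N := by field_simp
      rw [e, abs_div, abs_of_pos hN0, abs_of_nonneg (by linarith)]
      gcongr
      linarith
    have h1 := hk (i, j) (Finset.mem_product.mpr ⟨hmem a ha, hmem b hb⟩)
    simp only [hq] at h1
    set p : ℝ := (i : ℝ) / N with hp
    set q : ℝ := (j : ℝ) / N with hq'
    have hpa : |a - p| ≤ 1 / N := hnear a i hi1 hi2
    have hqb : |b - q| ≤ 1 / N := hnear b j hj1 hj2
    have h2 := (abs_le.mp (mean_lip h₁ h₂ hM a b p q)).2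
    have h3 := CW_lin_le (b₁ := b₁) (b₂ := b₂) (x := x) a b p q (2 ^ k)
    have h4 : c * M p q * vv k ≤ CW (lin b₁ b₂ p q) x (2 ^ k) + δ / 2 * vv k := by
      have h5 := mul_le_mul_of_nonneg_right h1.le hv.le
      rw [add_mul, div_mul_cancel₀ _ hv.ne'] at h5
      exact h5
    have h6 : |a - p| * CW b₁ x (2 ^ k) ≤ 1 / N * ((s1 + 1) * vv k) :=
      mul_le_mul hpa hk1.le (CW_nonneg _ _) (by positivity)
    have h7 : |b - q| * CW b₂ x (2 ^ k) ≤ 1 / N * ((s2 + 1) * vv k) :=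
      mul_le_mul hqb hk2.le (CW_nonneg _ _) (by positivity)
    have h8 : |a - p| * m₁ + |b - q| * m₂ ≤ 1 / N * (m₁ + m₂) := by
      have := mul_le_mul_of_nonneg_right hpa hm₁
      have := mul_le_mul_of_nonneg_right hqb hm₂
      linarith
    have h9 : c * M a b * vv k ≤ c * M p q * vv k + c * (1 / N * (m₁ + m₂)) * vv k := by
      rw [← add_mul, ← mul_add]
      apply mul_le_mul_of_nonneg_right _ hv.le
      apply mul_le_mul_of_nonneg_left _ hc
      linarith
    have h10 : R / N * vv k ≤ δ / 2 * vv k := mul_le_mul_of_nonneg_right hN1.le hv.le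
    have h11 : R / N * vv k = c * (1 / N * (m₁ + m₂)) * vv k + 1 / N * ((s1 + 1) * vv k) +
        1 / N * ((s2 + 1) * vv k) := by
      rw [hR]
      ring
    linarith
  intro a b
  set s := |a| + |b| with hs
  have hs0 : 0 ≤ s := by positivity
  rcases hs0.eq_or_lt with h0 | h0
  · have ha : a = 0 := by
      have : |a| = 0 := by linarith [abs_nonneg a, abs_nonneg b]
      exact abs_eq_zero.mp this
    have hb : b = 0 := by
      have : |b| = 0 := by linarith [abs_nonneg a, abs_nonneg b]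
      exact abs_eq_zero.mp this
    have h1 := M_smul hM le_rfl (1 : ℝ) (1 : ℝ) (s := 0)
    rw [zero_mul, zero_mul] at h1
    rw [ha, hb, h1, ← h0]
    have := CW_nonneg (x := x) (lin b₁ b₂ 0 0) (2 ^ k)
    simp only [mul_zero, zero_mul, add_zero]
    exact this
  · have ha : |a / s| ≤ 1 := by
      rw [abs_div, abs_of_pos h0, div_le_one h0]
      linarith [abs_nonneg b]
    have hb : |b / s| ≤ 1 := by
      rw [abs_div, abs_of_pos h0, div_le_one h0]
      linarith [abs_nonneg a]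
    have h1 := key (a / s) (b / s) ha hb
    have h2 := mul_le_mul_of_nonneg_left h1 h0.le
    have e1 : s * (a / s) = a := by field_simp
    have e2 : s * (b / s) = b := by field_simp
    have h3 := M_smul hM h0.le (a / s) (b / s)
    have h4 := CW_smul (b₁ := b₁) (b₂ := b₂) (x := x) h0.le (a / s) (b / s) (2 ^ k)
    rw [e1, e2] at h3 h4
    rw [h3, h4]
    linarith

end Pool.Agent.Helper66.RMT
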